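import Pool.Agent.H47.OpIdeal.Sep

/-!
# The `𝔅`-local reflexivity principle implies right-accessibility
-/

set_option autoImplicit false
set_option maxSynthPendingDepth 3

open scoped ENNReal Topology
open Filter NormedSpace

namespace Pool.Agent.H47.OpIdeal

variable {𝕜 : Type} [RCLike 𝕜]

/-- the directed set of finite-dimensional subspaces -/
abbrev FD (𝕜 : Type) [RCLike 𝕜] (Y : Type) [NormedAddCommGroup Y] [NormedSpace 𝕜 Y] : Type :=
  {N : Submodule 𝕜 Y // FiniteDimensional 𝕜 N}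

section

variable {Y : Type} [NormedAddCommGroup Y] [NormedSpace 𝕜 Y]

instance (N : FD 𝕜 Y) : FiniteDimensional 𝕜 N.1 := N.2

instance (N : FD 𝕜 Y) : CompleteSpace N.1 := FiniteDimensional.complete 𝕜 N.1

instance : Nonempty (FD 𝕜 Y) := ⟨⟨⊥, inferInstance⟩⟩

instance : IsDirectedOrder (FD 𝕜 Y) :=
  ⟨fun M N => ⟨⟨M.1 ⊔ N.1, Submodule.finiteDimensional_sup _ _⟩,
    (le_sup_left : M.1 ≤ M.1 ⊔ N.1), (le_sup_right : N.1 ≤ M.1 ⊔ N.1)⟩⟩

/-- bounded families `(z_N)`, `z_N ∈ N` -/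
abbrev ZSp (𝕜 : Type) [RCLike 𝕜] (Y : Type) [NormedAddCommGroup Y] [NormedSpace 𝕜 Y] : Type :=
  lp (fun N : FD 𝕜 Y => N.1) ∞

open Classical in
/-- the section at level `N` -/
noncomputable def secFun (N : FD 𝕜 Y) (y : Y) (N' : FD 𝕜 Y) : N'.1 :=
  if h : y ∈ N.1 ∧ N.1 ≤ N'.1 then ⟨y, h.2 h.1⟩ else 0

lemma norm_secFun_le (N : FD 𝕜 Y) (y : Y) (N' : FD 𝕜 Y) : ‖secFun N y N'‖ ≤ ‖y‖ := by
  unfold secFun
  split_ifs with h
  · exact le_rfl
  · simp

/-- the section at level `N`, as an element of the space of bounded families -/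
noncomputable def secZ (N : FD 𝕜 Y) (y : Y) : ZSp 𝕜 Y :=
  ⟨secFun N y, memℓp_infty ⟨‖y‖, by rintro _ ⟨N', rfl⟩; exact norm_secFun_le N y N'⟩⟩

lemma norm_secZ_le (N : FD 𝕜 Y) (y : Y) : ‖secZ N y‖ ≤ ‖y‖ :=
  lp.norm_le_of_forall_le (norm_nonneg _) fun N' => norm_secFun_le N y N'

lemma secZ_apply (N : FD 𝕜 Y) (y : Y) (N' : FD 𝕜 Y) (hy : y ∈ N.1) (hN : N.1 ≤ N'.1) :
    (((secZ N y : ZSp 𝕜 Y) N' : N'.1) : Y) = y := by
  show ((secFun N y N' : N'.1) : Y) = y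
  unfold secFun
  rw [dif_pos ⟨hy, hN⟩]

lemma secZ_add (N : FD 𝕜 Y) (y₁ y₂ : Y) (h₁ : y₁ ∈ N.1) (h₂ : y₂ ∈ N.1) :
    secZ N (y₁ + y₂) = secZ N y₁ + secZ N y₂ := by
  apply lp.ext
  funext N'
  show secFun N (y₁ + y₂) N' = secFun N y₁ N' + secFun N y₂ N'
  unfold secFun
  by_cases hN : N.1 ≤ N'.1
  · rw [dif_pos ⟨N.1.add_mem h₁ h₂, hN⟩, dif_pos ⟨h₁, hN⟩, dif_pos ⟨h₂, hN⟩]
    rfl
  · rw [dif_neg (fun h => hN h.2), dif_neg (fun h => hN h.2), dif_neg (fun h => hN h.2), add_zero]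

lemma secZ_smul (N : FD 𝕜 Y) (c : 𝕜) (y : Y) (h : y ∈ N.1) :
    secZ N (c • y) = c • secZ N y := by
  apply lp.ext
  funext N'
  show secFun N (c • y) N' = c • secFun N y N'
  unfold secFun
  by_cases hN : N.1 ≤ N'.1
  · rw [dif_pos ⟨N.1.smul_mem c h, hN⟩, dif_pos ⟨h, hN⟩]
    rfl
  · rw [dif_neg (fun h => hN h.2), dif_neg (fun h => hN h.2), smul_zero]

/-- an ultrafilter on the directed set -/
noncomputable def 𝒰 (𝕜 : Type) [RCLike 𝕜] (Y : Type) [NormedAddCommGroup Y]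
    [NormedSpace 𝕜 Y] : Ultrafilter (FD 𝕜 Y) := Ultrafilter.of atTop

lemma 𝒰_le : (𝒰 𝕜 Y : Filter (FD 𝕜 Y)) ≤ atTop := Ultrafilter.of_le _

lemma eventually_mem (y : Y) : ∀ᶠ N in (𝒰 𝕜 Y : Filter (FD 𝕜 Y)), y ∈ N.1 := by
  apply 𝒰_le
  have : FiniteDimensional 𝕜 (Submodule.span 𝕜 {y}) := inferInstance
  filter_upwards [eventually_ge_atTop (⟨Submodule.span 𝕜 {y}, this⟩ : FD 𝕜 Y)] with N hN
  exact hN (Submodule.mem_span_singleton_self y)

/-- bounded scalar families converge along the ultrafilter -/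
lemma exists_lim (f : FD 𝕜 Y → 𝕜) (c : ℝ) (hf : ∀ N, ‖f N‖ ≤ c) :
    ∃ l : 𝕜, ‖l‖ ≤ c ∧ Tendsto f (𝒰 𝕜 Y : Filter (FD 𝕜 Y)) (𝓝 l) := by
  have hc : IsCompact (Metric.closedBall (0 : 𝕜) c) := isCompact_closedBall 0 c
  have hle : (((𝒰 𝕜 Y).map f : Ultrafilter 𝕜) : Filter 𝕜) ≤ 𝓟 (Metric.closedBall (0 : 𝕜) c) := by
    rw [Filter.le_principal_iff]
    exact Filter.mem_map.2 (Filter.univ_mem' fun N => by simpa using hf N)
  obtain ⟨l, hl, hl2⟩ := hc.ultrafilter_le_nhds _ hle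
  exact ⟨l, by simpa using hl, hl2⟩

/-- the limit of `z'(s_N y)` along the ultrafilter -/
noncomputable def limFun (y : Y) (z' : StrongDual 𝕜 (ZSp 𝕜 Y)) : 𝕜 :=
  (exists_lim (fun N => z' (secZ N y)) (‖z'‖ * ‖y‖) fun N =>
    (z'.le_opNorm _).trans (mul_le_mul_of_nonneg_left (norm_secZ_le N y) (norm_nonneg _))).choose

lemma norm_limFun_le (y : Y) (z' : StrongDual 𝕜 (ZSp 𝕜 Y)) : ‖limFun y z'‖ ≤ ‖z'‖ * ‖y‖ :=
  (exists_lim (fun N => z' (secZ N y)) (‖z'‖ * ‖y‖) fun N =>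
    (z'.le_opNorm _).trans
      (mul_le_mul_of_nonneg_left (norm_secZ_le N y) (norm_nonneg _))).choose_spec.1

lemma tendsto_limFun (y : Y) (z' : StrongDual 𝕜 (ZSp 𝕜 Y)) :
    Tendsto (fun N => z' (secZ N y)) (𝒰 𝕜 Y : Filter (FD 𝕜 Y)) (𝓝 (limFun y z')) :=
  (exists_lim (fun N => z' (secZ N y)) (‖z'‖ * ‖y‖) fun N =>
    (z'.le_opNorm _).trans
      (mul_le_mul_of_nonneg_left (norm_secZ_le N y) (norm_nonneg _))).choose_spec.2

/-- the local lifting `τ : Y → Z''` -/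
noncomputable def tau (𝕜 : Type) [RCLike 𝕜] (Y : Type) [NormedAddCommGroup Y]
    [NormedSpace 𝕜 Y] : Y →L[𝕜] StrongDual 𝕜 (StrongDual 𝕜 (ZSp 𝕜 Y)) :=
  LinearMap.mkContinuous₂ (LinearMap.mk₂ 𝕜 (limFun (𝕜 := 𝕜) (Y := Y))
    (by
      intro y₁ y₂ z'
      refine tendsto_nhds_unique (tendsto_limFun (y₁ + y₂) z') ?_
      refine ((tendsto_limFun y₁ z').add (tendsto_limFun y₂ z')).congr' ?_
      filter_upwards [eventually_mem (𝕜 := 𝕜) y₁, eventually_mem (𝕜 := 𝕜) y₂] with N h₁ h₂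
      rw [secZ_add N y₁ y₂ h₁ h₂, map_add])
    (by
      intro c y z'
      refine tendsto_nhds_unique (tendsto_limFun (c • y) z') ?_
      refine ((tendsto_limFun y z').const_smul c).congr' ?_
      filter_upwards [eventually_mem (𝕜 := 𝕜) y] with N h
      rw [secZ_smul N c y h, map_smul])
    (by
      intro y z₁ z₂
      exact tendsto_nhds_unique (tendsto_limFun y (z₁ + z₂))
        ((tendsto_limFun y z₁).add (tendsto_limFun y z₂)))
    (by
      intro c y z'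
      exact tendsto_nhds_unique (tendsto_limFun y (c • z')) ((tendsto_limFun y z').const_smul c)))
    1 (by
      intro y z'
      have := norm_limFun_le y z'
      calc _ ≤ ‖z'‖ * ‖y‖ := this
        _ = 1 * ‖y‖ * ‖z'‖ := by ring)

lemma norm_tau_le : ‖tau 𝕜 Y‖ ≤ 1 := LinearMap.mkContinuous₂_norm_le _ zero_le_one _

lemma tau_apply (y : Y) (z' : StrongDual 𝕜 (ZSp 𝕜 Y)) : tau 𝕜 Y y z' = limFun y z' := rfl

/-- evaluation at `N` -/
noncomputable def evalN (N : FD 𝕜 Y) : ZSp 𝕜 Y →L[𝕜] N.1 :=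
  LinearMap.mkContinuous
    { toFun := fun z => z N
      map_add' := fun _ _ => rfl
      map_smul' := fun _ _ => rfl } 1
    (fun z => by
      rw [one_mul]
      exact lp.norm_apply_le_norm ENNReal.top_ne_zero z N)

lemma norm_evalN_le (N : FD 𝕜 Y) : ‖evalN (𝕜 := 𝕜) N‖ ≤ 1 :=
  LinearMap.mkContinuous_norm_le _ zero_le_one _

/-- the limit of `y'(z_N)` along the ultrafilter -/
lemma exists_ulim (y' : StrongDual 𝕜 Y) : ∃ g : StrongDual 𝕜 (ZSp 𝕜 Y), ∀ z : ZSp 𝕜 Y,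
    Tendsto (fun N : FD 𝕜 Y => y' ((z N : N.1) : Y)) (𝒰 𝕜 Y : Filter (FD 𝕜 Y)) (𝓝 (g z)) := by
  have hb : ∀ z : ZSp 𝕜 Y, ∀ N : FD 𝕜 Y, ‖y' ((z N : N.1) : Y)‖ ≤ ‖y'‖ * ‖z‖ := fun z N =>
    (y'.le_opNorm _).trans (mul_le_mul_of_nonneg_left
      (lp.norm_apply_le_norm ENNReal.top_ne_zero z N) (norm_nonneg _))
  choose g hg using fun z : ZSp 𝕜 Y => exists_lim _ _ (hb z)
  refine ⟨LinearMap.mkContinuous
    { toFun := g
      map_add' := fun z w => tendsto_nhds_unique (hg (z + w)).2 (by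
        refine ((hg z).2.add (hg w).2).congr fun N => ?_
        rw [← map_add]; rfl)
      map_smul' := fun c z => tendsto_nhds_unique (hg (c • z)).2 (by
        refine ((hg z).2.const_smul c).congr fun N => ?_
        rw [← map_smul]; rfl) } ‖y'‖ (fun z => (hg z).1), fun z => (hg z).2⟩

end

/-- inclusion of subspaces -/
def incl {Y : Type} [NormedAddCommGroup Y] [NormedSpace 𝕜 Y] {M N : Submodule 𝕜 Y}
    (h : M ≤ N) : M →L[𝕜] N := M.subtypeL.codRestrict N (fun x => h x.2)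

lemma enorm_incl_le {Y : Type} [NormedAddCommGroup Y] [NormedSpace 𝕜 Y]
    {M N : Submodule 𝕜 Y} (h : M ≤ N) : ‖incl h‖ₑ ≤ 1 := by
  have h1 : ‖incl h‖ ≤ 1 := ContinuousLinearMap.opNorm_le_bound _ zero_le_one fun x => by
    rw [one_mul]; exact le_rfl
  rw [enorm_eq_nnnorm]; exact_mod_cast h1

lemma enorm_le_one_of_norm_le {V : Type} [SeminormedAddCommGroup V] {v : V} (h : ‖v‖ ≤ 1) :
    ‖v‖ₑ ≤ 1 := by
  rw [enorm_eq_nnnorm]; exact_mod_cast h

lemma enorm_ofReal_of_nonneg {s : ℝ} (hs : 0 ≤ s) : ‖(s : 𝕜)‖ₑ = ENNReal.ofReal s := by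
  rw [← ofReal_norm, RCLike.norm_ofReal, abs_of_nonneg hs]

/-- **Theorem A.** The `𝔅`-local reflexivity principle implies that `𝔅` is
right-accessible. -/
theorem BanachIdeal.LRP.isRightAccessible {B : BanachIdeal 𝕜} (hB : B.LRP) :
    B.IsRightAccessible := by
  intro E Y _ _ _ _ _ _ _ T ε hε
  by_cases hT0 : T = 0
  · subst hT0
    refine ⟨⊥, inferInstance, inferInstance, 0, by simp, ?_⟩
    rw [B.nrm_zero]
    exact zero_le
  have hTfin : B.nrm T ≠ ∞ := (B.nrm_lt_top_of_finDim T).ne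
  set b : ℝ := (B.nrm T).toReal with hb
  have hbT : B.nrm T = ENNReal.ofReal b := (ENNReal.ofReal_toReal hTfin).symm
  have hb0 : 0 < b := by
    refine ENNReal.toReal_pos ?_ hTfin
    intro h
    have := B.enorm_le_nrm T
    rw [h] at this
    exact hT0 (by simpa using this)
  obtain ⟨c, hc0, hc⟩ := exists_finDim_const (𝕜 := 𝕜) E
  -- the convex set
  set C : Set (E →L[𝕜] Y) := {R | ∃ (N : FD 𝕜 Y) (R₀ : E →L[𝕜] N.1),
    R = N.1.subtypeL ∘L R₀ ∧ B.nrm R₀ ≤ ENNReal.ofReal (1 + ε / 2) * B.nrm T} with hC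
  have hCcvx : Cvx 𝕜 C := by
    rintro x ⟨N, R, rfl, hR⟩ y ⟨N', R', rfl, hR'⟩ s t hs ht hst
    let NN : FD 𝕜 Y := ⟨N.1 ⊔ N'.1, Submodule.finiteDimensional_sup _ _⟩
    have h1 : N.1 ≤ NN.1 := le_sup_left
    have h2 : N'.1 ≤ NN.1 := le_sup_right
    refine ⟨NN, (s : 𝕜) • (incl h1 ∘L R) + (t : 𝕜) • (incl h2 ∘L R'), ?_, ?_⟩
    · ext x; rfl
    · calc B.nrm ((s : 𝕜) • (incl h1 ∘L R) + (t : 𝕜) • (incl h2 ∘L R'))
          ≤ ‖(s : 𝕜)‖ₑ * (‖incl h1‖ₑ * B.nrm R) + ‖(t : 𝕜)‖ₑ * (‖incl h2‖ₑ * B.nrm R') := by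
            refine (B.nrm_add_le _ _).trans (add_le_add ?_ ?_)
            · exact (B.nrm_smul_le _ _).trans (by gcongr; exact B.nrm_comp_left_le _ _)
            · exact (B.nrm_smul_le _ _).trans (by gcongr; exact B.nrm_comp_left_le _ _)
        _ ≤ ENNReal.ofReal s * (1 * (ENNReal.ofReal (1 + ε / 2) * B.nrm T)) +
            ENNReal.ofReal t * (1 * (ENNReal.ofReal (1 + ε / 2) * B.nrm T)) := by
            rw [enorm_ofReal_of_nonneg hs, enorm_ofReal_of_nonneg ht]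
            gcongr
            · exact enorm_incl_le h1
            · exact enorm_incl_le h2
        _ = ENNReal.ofReal (1 + ε / 2) * B.nrm T := by
            rw [one_mul, ← add_mul, ← ENNReal.ofReal_add hs ht, hst, ENNReal.ofReal_one, one_mul]
  have hTC : ∀ (f : StrongDual 𝕜 (E →L[𝕜] Y)) (u : ℝ), (∀ c ∈ C, RCLike.re (f c) ≤ u) →
      RCLike.re (f T) ≤ u := by
    intro f u hfu
    obtain ⟨y', hy'⟩ := functional_repr f
    choose g hg using fun i => exists_ulim (y' i)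
    have : FiniteDimensional 𝕜 (Submodule.span 𝕜 (Set.range g)) :=
      FiniteDimensional.span_of_finite 𝕜 (Set.finite_range g)
    obtain ⟨S, hS1, hS2, -⟩ := hB E (ZSp 𝕜 Y) (Submodule.span 𝕜 (Set.range g))
      (tau 𝕜 Y ∘L T) (ε / 2) (by positivity)
    have hτ : B.nrm (tau 𝕜 Y ∘L T) ≤ B.nrm T := by
      refine (B.nrm_comp_left_le T (tau 𝕜 Y)).trans ?_
      calc ‖tau 𝕜 Y‖ₑ * B.nrm T ≤ 1 * B.nrm T := by
            gcongr; exact enorm_le_one_of_norm_le norm_tau_le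
        _ = _ := one_mul _
    have hval : ∀ i e, g i (S e) = y' i (T e) := by
      intro i e
      rw [hS2 e (g i) (Submodule.subset_span ⟨i, rfl⟩)]
      show limFun (T e) (g i) = _
      refine tendsto_nhds_unique (tendsto_limFun (T e) (g i)) ?_
      refine tendsto_const_nhds.congr' ?_
      filter_upwards [eventually_mem (𝕜 := 𝕜) (T e)] with N hN
      refine tendsto_nhds_unique ?_ (hg i (secZ N (T e)))
      refine tendsto_const_nhds.congr' ?_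
      filter_upwards [𝒰_le (eventually_ge_atTop N)] with N' hN'
      rw [secZ_apply N (T e) N' hN hN']
    have hmem : ∀ N : FD 𝕜 Y, N.1.subtypeL ∘L (evalN N ∘L S) ∈ C := by
      intro N
      refine ⟨N, evalN N ∘L S, rfl, ?_⟩
      calc B.nrm (evalN N ∘L S) ≤ ‖evalN (𝕜 := 𝕜) N‖ₑ * B.nrm S := B.nrm_comp_left_le _ _
        _ ≤ 1 * B.nrm S := by gcongr; exact enorm_le_one_of_norm_le (norm_evalN_le N)
        _ = B.nrm S := one_mul _
        _ ≤ _ := hS1.trans (by gcongr)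
    have hlim : Tendsto (fun N : FD 𝕜 Y => f (N.1.subtypeL ∘L (evalN N ∘L S)))
        (𝒰 𝕜 Y : Filter (FD 𝕜 Y)) (𝓝 (f T)) := by
      rw [hy' T]
      simp_rw [hy']
      refine tendsto_finsetSum _ fun i _ => ?_
      rw [← hval i]
      exact hg i (S (Module.finBasis 𝕜 E i))
    exact le_of_tendsto (((RCLike.continuous_re).tendsto _).comp hlim)
      (Filter.Eventually.of_forall fun N => hfu _ (hmem N))
  obtain ⟨R, ⟨N, R₀, rfl, hR₀⟩, hlt⟩ := exists_approx C hCcvx T hTC (b * ε / 2 / (c + 1))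
    (by positivity)
  -- enlarge `N`
  have : FiniteDimensional 𝕜 (LinearMap.range (T : E →ₗ[𝕜] Y)) := inferInstance
  let NN : FD 𝕜 Y := ⟨N.1 ⊔ LinearMap.range (T : E →ₗ[𝕜] Y), Submodule.finiteDimensional_sup _ _⟩
  have h1 : N.1 ≤ NN.1 := le_sup_left
  have h2 : ∀ x, T x ∈ NN.1 := fun x =>
    (le_sup_right : LinearMap.range (T : E →ₗ[𝕜] Y) ≤ NN.1) ⟨x, rfl⟩
  refine ⟨NN.1, NN.2, inferInstance, T.codRestrict NN.1 h2, by ext x; rfl, ?_⟩
  set D : E →L[𝕜] NN.1 := T.codRestrict NN.1 h2 - incl h1 ∘L R₀ with hD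
  have hDn : ‖D‖ ≤ b * ε / 2 / (c + 1) := by
    refine ContinuousLinearMap.opNorm_le_bound _ (by positivity) fun x => ?_
    have h3 : ‖D x‖ = ‖(T - N.1.subtypeL ∘L R₀) x‖ := rfl
    rw [h3]
    exact ((T - N.1.subtypeL ∘L R₀).le_opNorm x).trans (by gcongr)
  have e : T.codRestrict NN.1 h2 = incl h1 ∘L R₀ + D := by rw [hD]; abel
  rw [e]
  calc B.nrm (incl h1 ∘L R₀ + D) ≤ B.nrm (incl h1 ∘L R₀) + B.nrm D := B.nrm_add_le _ _
    _ ≤ ENNReal.ofReal (1 + ε / 2) * B.nrm T + ENNReal.ofReal (c * ‖D‖) := by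
        gcongr
        · refine (B.nrm_comp_left_le _ _).trans ?_
          calc ‖incl h1‖ₑ * B.nrm R₀ ≤ 1 * B.nrm R₀ := by gcongr; exact enorm_incl_le h1
            _ ≤ _ := by rw [one_mul]; exact hR₀
        · exact hc B NN.1 D
    _ ≤ ENNReal.ofReal (1 + ε / 2) * B.nrm T + ENNReal.ofReal (ε / 2 * b) := by
        refine add_le_add le_rfl (ENNReal.ofReal_le_ofReal ?_)
        calc c * ‖D‖ ≤ c * (b * ε / 2 / (c + 1)) := by gcongr
          _ ≤ (c + 1) * (b * ε / 2 / (c + 1)) := by gcongr; linarith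
          _ = ε / 2 * b := by field_simp
    _ = ENNReal.ofReal (1 + ε) * B.nrm T := by
        rw [hbT, ← ENNReal.ofReal_mul (by positivity), ← ENNReal.ofReal_mul (by positivity),
          ← ENNReal.ofReal_add (by positivity) (by positivity)]
        congr 1
        ring

end Pool.Agent.H47.OpIdeal
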