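import Pool.Agent.H47.OpIdeal.Defs

/-!
# Elementary facts on Banach operator ideals
-/

set_option autoImplicit false
set_option maxSynthPendingDepth 3

open scoped ENNReal Topology
open Filter NormedSpace

namespace Pool.Agent.H47.OpIdeal

variable {𝕜 : Type} [RCLike 𝕜]

namespace BanachIdeal

variable (B : BanachIdeal 𝕜)

variable {W X Y Z : Type} [NormedAddCommGroup W] [NormedSpace 𝕜 W] [CompleteSpace W]
    [NormedAddCommGroup X] [NormedSpace 𝕜 X] [CompleteSpace X]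
    [NormedAddCommGroup Y] [NormedSpace 𝕜 Y] [CompleteSpace Y]
    [NormedAddCommGroup Z] [NormedSpace 𝕜 Z] [CompleteSpace Z]

omit [CompleteSpace X] in
lemma enorm_id_le : ‖ContinuousLinearMap.id 𝕜 X‖ₑ ≤ 1 := by
  have h := ContinuousLinearMap.norm_id_le (𝕜 := 𝕜) (E := X)
  rw [enorm_eq_nnnorm]
  exact_mod_cast h

lemma nrm_comp_left_le (S : X →L[𝕜] Y) (T : Y →L[𝕜] Z) :
    B.nrm (T ∘L S) ≤ ‖T‖ₑ * B.nrm S := by
  have h := B.nrm_comp_le (ContinuousLinearMap.id 𝕜 X) S T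
  rw [ContinuousLinearMap.comp_id] at h
  calc B.nrm (T ∘L S) ≤ ‖T‖ₑ * B.nrm S * ‖ContinuousLinearMap.id 𝕜 X‖ₑ := h
    _ ≤ ‖T‖ₑ * B.nrm S * 1 := by gcongr; exact enorm_id_le
    _ = _ := mul_one _

lemma nrm_comp_right_le (R : W →L[𝕜] X) (S : X →L[𝕜] Y) :
    B.nrm (S ∘L R) ≤ B.nrm S * ‖R‖ₑ := by
  have h := B.nrm_comp_le R S (ContinuousLinearMap.id 𝕜 Y)
  rw [ContinuousLinearMap.id_comp] at h
  calc B.nrm (S ∘L R) ≤ ‖ContinuousLinearMap.id 𝕜 Y‖ₑ * B.nrm S * ‖R‖ₑ := h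
    _ ≤ 1 * B.nrm S * ‖R‖ₑ := by gcongr; exact enorm_id_le
    _ = _ := by rw [one_mul]

lemma nrm_zero : B.nrm (0 : X →L[𝕜] Y) = 0 := by
  have h := B.nrm_comp_le (0 : X →L[𝕜] 𝕜) (ContinuousLinearMap.id 𝕜 𝕜) (0 : 𝕜 →L[𝕜] Y)
  simpa using h

lemma nrm_smul_le (c : 𝕜) (S : X →L[𝕜] Y) : B.nrm (c • S) ≤ ‖c‖ₑ * B.nrm S := by
  have h := B.nrm_comp_left_le S (c • ContinuousLinearMap.id 𝕜 Y)
  rw [ContinuousLinearMap.smul_comp, ContinuousLinearMap.id_comp] at h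
  refine h.trans ?_
  gcongr
  rw [enorm_smul]
  calc ‖c‖ₑ * ‖ContinuousLinearMap.id 𝕜 Y‖ₑ ≤ ‖c‖ₑ * 1 := by gcongr; exact enorm_id_le
    _ = _ := mul_one _

lemma nrm_smul (c : 𝕜) (hc : c ≠ 0) (S : X →L[𝕜] Y) : B.nrm (c • S) = ‖c‖ₑ * B.nrm S := by
  refine le_antisymm (B.nrm_smul_le c S) ?_
  have h := B.nrm_smul_le c⁻¹ (c • S)
  rw [smul_smul, inv_mul_cancel₀ hc, one_smul] at h
  have hc0 : ‖c‖ₑ ≠ 0 := by simpa using hc
  have hct : ‖c‖ₑ ≠ ∞ := enorm_ne_top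
  calc ‖c‖ₑ * B.nrm S ≤ ‖c‖ₑ * (‖c⁻¹‖ₑ * B.nrm (c • S)) := by gcongr
    _ = B.nrm (c • S) := by
      rw [enorm_inv hc, ← mul_assoc, ENNReal.mul_inv_cancel hc0 hct, one_mul]

lemma nrm_neg (S : X →L[𝕜] Y) : B.nrm (-S) = B.nrm S := by
  have h := B.nrm_smul (-1 : 𝕜) (by simp) S
  simpa using h

lemma nrm_sub_le (S T : X →L[𝕜] Y) : B.nrm (S - T) ≤ B.nrm S + B.nrm T := by
  rw [sub_eq_add_neg]
  exact (B.nrm_add_le S (-T)).trans (by rw [B.nrm_neg])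

lemma nrm_sum_le {ι : Type*} (s : Finset ι) (T : ι → (X →L[𝕜] Y)) :
    B.nrm (∑ i ∈ s, T i) ≤ ∑ i ∈ s, B.nrm (T i) := by
  classical
  induction s using Finset.induction_on with
  | empty => simp [B.nrm_zero]
  | insert a s ha ih =>
    rw [Finset.sum_insert ha, Finset.sum_insert ha]
    exact (B.nrm_add_le _ _).trans (by gcongr)

lemma nrm_smulRight_le (ξ : StrongDual 𝕜 X) (y : Y) :
    B.nrm (ξ.smulRight y) ≤ ‖ξ‖ₑ * ‖y‖ₑ := by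
  have h := B.nrm_comp_le ξ (ContinuousLinearMap.id 𝕜 𝕜) (ContinuousLinearMap.toSpanSingleton 𝕜 y)
  have e : (ContinuousLinearMap.toSpanSingleton 𝕜 y) ∘L (ContinuousLinearMap.id 𝕜 𝕜) ∘L ξ =
      ξ.smulRight y := by
    ext x; simp
  rw [e, B.nrm_id, mul_one] at h
  refine h.trans ?_
  have h2 : ‖ContinuousLinearMap.toSpanSingleton 𝕜 y‖ₑ = ‖y‖ₑ := by
    rw [enorm_eq_nnnorm, enorm_eq_nnnorm]
    congr 1
    exact NNReal.eq (ContinuousLinearMap.norm_toSpanSingleton y)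
  rw [h2, mul_comm]

/-- the ideal norm dominates the operator norm -/
lemma enorm_le_nrm (T : X →L[𝕜] Y) : ‖T‖ₑ ≤ B.nrm T := by
  by_cases hT : B.nrm T = ∞
  · rw [hT]; exact le_top
  have key : ∀ (x : X) (y' : StrongDual 𝕜 Y), ‖y' (T x)‖ₑ ≤ ‖y'‖ₑ * B.nrm T * ‖x‖ₑ := by
    intro x y'
    by_cases h0 : y' (T x) = 0
    · rw [h0]; simp
    have h := B.nrm_comp_le (ContinuousLinearMap.toSpanSingleton 𝕜 x) T y'
    have e : y' ∘L T ∘L (ContinuousLinearMap.toSpanSingleton 𝕜 x) =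
        (y' (T x)) • ContinuousLinearMap.id 𝕜 𝕜 := by
      ext; simp
    rw [e, B.nrm_smul _ h0, B.nrm_id, mul_one] at h
    have h2 : ‖ContinuousLinearMap.toSpanSingleton 𝕜 x‖ₑ = ‖x‖ₑ := by
      rw [enorm_eq_nnnorm, enorm_eq_nnnorm]
      congr 1
      exact NNReal.eq (ContinuousLinearMap.norm_toSpanSingleton x)
    rwa [h2] at h
  have hb : ‖T‖ ≤ (B.nrm T).toReal := by
    refine ContinuousLinearMap.opNorm_le_bound _ ENNReal.toReal_nonneg fun x => ?_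
    obtain ⟨g, hg1, hg2⟩ := exists_dual_vector'' 𝕜 (T x)
    have h := key x g
    rw [hg2] at h
    have h3 : ‖T x‖ₑ ≤ B.nrm T * ‖x‖ₑ := by
      calc ‖T x‖ₑ = ‖((‖T x‖ : ℝ) : 𝕜)‖ₑ := by
            rw [enorm_eq_nnnorm, enorm_eq_nnnorm]; congr 1; apply NNReal.eq; simp
        _ ≤ ‖g‖ₑ * B.nrm T * ‖x‖ₑ := h
        _ ≤ 1 * B.nrm T * ‖x‖ₑ := by
            gcongr
            rw [enorm_eq_nnnorm]; exact_mod_cast hg1
        _ = _ := by rw [one_mul]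
    have h4 := (ENNReal.toReal_le_toReal (by simp) (ENNReal.mul_ne_top hT (by simp))).2 h3
    rwa [ENNReal.toReal_mul, toReal_enorm, toReal_enorm] at h4
  calc ‖T‖ₑ = ENNReal.ofReal ‖T‖ := (ofReal_norm T).symm
    _ ≤ ENNReal.ofReal (B.nrm T).toReal := ENNReal.ofReal_le_ofReal hb
    _ = B.nrm T := ENNReal.ofReal_toReal hT

/-- a constant depending on the finite-dimensional domain only -/
lemma exists_finDim_const (E : Type) [NormedAddCommGroup E] [NormedSpace 𝕜 E]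
    [FiniteDimensional 𝕜 E] : ∃ c : ℝ, 0 ≤ c ∧ ∀ (B : BanachIdeal 𝕜) (Y : Type)
      [NormedAddCommGroup Y] [NormedSpace 𝕜 Y] [CompleteSpace Y] [CompleteSpace E]
      (D : E →L[𝕜] Y), B.nrm D ≤ ENNReal.ofReal (c * ‖D‖) := by
  classical
  let b := Module.finBasis 𝕜 E
  let ξ : Fin (Module.finrank 𝕜 E) → StrongDual 𝕜 E := fun i => LinearMap.toContinuousLinearMap (b.coord i)
  refine ⟨∑ i, ‖ξ i‖ * ‖b i‖, by positivity, ?_⟩
  intro B Y _ _ _ _ D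
  have e : D = ∑ i, (ξ i).smulRight (D (b i)) := by
    ext x
    rw [ContinuousLinearMap.sum_apply]
    conv_lhs => rw [← b.sum_repr x, map_sum]
    refine Finset.sum_congr rfl fun i _ => ?_
    simp [ξ]
  calc B.nrm D = B.nrm (∑ i, (ξ i).smulRight (D (b i))) := by rw [← e]
    _ ≤ ∑ i, B.nrm ((ξ i).smulRight (D (b i))) := B.nrm_sum_le _ _
    _ ≤ ∑ i, ‖ξ i‖ₑ * ‖D (b i)‖ₑ := Finset.sum_le_sum fun i _ => B.nrm_smulRight_le _ _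
    _ ≤ ∑ i, ENNReal.ofReal (‖ξ i‖ * ‖b i‖ * ‖D‖) := by
      refine Finset.sum_le_sum fun i _ => ?_
      rw [← ofReal_norm, ← ofReal_norm, ← ENNReal.ofReal_mul (norm_nonneg _)]
      refine ENNReal.ofReal_le_ofReal ?_
      have := D.le_opNorm (b i)
      calc ‖ξ i‖ * ‖D (b i)‖ ≤ ‖ξ i‖ * (‖D‖ * ‖b i‖) := by gcongr
        _ = _ := by ring
    _ = ENNReal.ofReal ((∑ i, ‖ξ i‖ * ‖b i‖) * ‖D‖) := by
      rw [Finset.sum_mul, ENNReal.ofReal_sum_of_nonneg]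
      intro i _; positivity

lemma nrm_lt_top_of_finDim {E : Type} [NormedAddCommGroup E] [NormedSpace 𝕜 E]
    [CompleteSpace E] [FiniteDimensional 𝕜 E] (D : E →L[𝕜] Y) : B.nrm D < ∞ := by
  obtain ⟨c, _, h⟩ := exists_finDim_const (𝕜 := 𝕜) E
  exact (h B Y D).trans_lt ENNReal.ofReal_lt_top

/-- the trace inequality defining the adjoint ideal -/
lemma trace_le_adjNrm (T : X →L[𝕜] Y) (M : Submodule 𝕜 X) [FiniteDimensional 𝕜 M]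
    [CompleteSpace M] (L : Submodule 𝕜 Y) [hL : IsClosed (L : Set Y)]
    [FiniteDimensional 𝕜 (Y ⧸ L)] (S : (Y ⧸ L) →L[𝕜] M) :
    ‖LinearMap.trace 𝕜 (Y ⧸ L)
      (L.mkQL ∘L T ∘L M.subtypeL ∘L S : (Y ⧸ L) →L[𝕜] (Y ⧸ L))‖ₑ ≤ B.adjNrm T * B.nrm S := by
  have base : ∀ S : (Y ⧸ L) →L[𝕜] M, B.nrm S ≤ 1 → ‖LinearMap.trace 𝕜 (Y ⧸ L)
      (L.mkQL ∘L T ∘L M.subtypeL ∘L S : (Y ⧸ L) →L[𝕜] (Y ⧸ L))‖ₑ ≤ B.adjNrm T := by
    intro S hS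
    unfold adjNrm
    exact le_iSup_of_le M <| le_iSup_of_le ‹_› <| le_iSup_of_le ‹_› <| le_iSup_of_le L <|
      le_iSup_of_le hL <| le_iSup_of_le ‹_› <| le_iSup_of_le S <| le_iSup_of_le hS le_rfl
  by_cases h0 : S = 0
  · subst h0
    simp
  have hpos : B.nrm S ≠ 0 := by
    intro h
    have := B.enorm_le_nrm S
    rw [h] at this
    exact h0 (by simpa using this)
  have hfin : B.nrm S ≠ ∞ := (B.nrm_lt_top_of_finDim S).ne
  set r : ℝ := (B.nrm S).toReal with hr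
  have hr0 : 0 < r := ENNReal.toReal_pos hpos hfin
  have h1 : B.nrm (((r⁻¹ : ℝ) : 𝕜) • S) ≤ 1 := by
    refine (B.nrm_smul_le _ _).trans ?_
    rw [← ofReal_norm, RCLike.norm_ofReal, abs_of_pos (inv_pos.2 hr0),
      ← ENNReal.ofReal_toReal hfin, ← ENNReal.ofReal_mul (inv_pos.2 hr0).le, ← hr,
      inv_mul_cancel₀ hr0.ne']
    simp
  have h2 := base _ h1
  have e : (L.mkQL ∘L T ∘L M.subtypeL ∘L (((r⁻¹ : ℝ) : 𝕜) • S) : (Y ⧸ L) →L[𝕜] (Y ⧸ L)) =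
      ((r⁻¹ : ℝ) : 𝕜) • (L.mkQL ∘L T ∘L M.subtypeL ∘L S : (Y ⧸ L) →L[𝕜] (Y ⧸ L)) := by
    ext x; simp
  rw [e, ContinuousLinearMap.toLinearMap_smul, map_smul, enorm_smul] at h2
  have h3 : ‖((r⁻¹ : ℝ) : 𝕜)‖ₑ = (B.nrm S)⁻¹ := by
    rw [← ofReal_norm, RCLike.norm_ofReal, abs_of_pos (inv_pos.2 hr0),
      ENNReal.ofReal_inv_of_pos hr0, hr, ENNReal.ofReal_toReal hfin]
  rw [h3] at h2
  calc _ = B.nrm S * ((B.nrm S)⁻¹ * ‖LinearMap.trace 𝕜 (Y ⧸ L)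
      (L.mkQL ∘L T ∘L M.subtypeL ∘L S : (Y ⧸ L) →L[𝕜] (Y ⧸ L))‖ₑ) := by
        rw [← mul_assoc, ENNReal.mul_inv_cancel hpos hfin, one_mul]
    _ ≤ B.nrm S * B.adjNrm T := by gcongr
    _ = _ := mul_comm _ _

end BanachIdeal

end Pool.Agent.H47.OpIdeal
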