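import Pool.Agent.H47.OpIdeal.Defs

/-!
# The criterion of Lindenstrauss–Pełczyński / Kwapień for factorisation through a Hilbert space
-/

set_option autoImplicit false
set_option maxSynthPendingDepth 3

open scoped ENNReal Topology ComplexConjugate
open Filter NormedSpace RCLike

namespace Pool.Agent.H47.OpIdeal

variable {𝕜 : Type} [RCLike 𝕜]

section core

/-- a copy of `X` without its norm -/
def Syn (X : Type) : Type := X

instance {X : Type} [AddCommGroup X] : AddCommGroup (Syn X) := inferInstanceAs (AddCommGroup X)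

instance {X : Type} [AddCommGroup X] [Module 𝕜 X] : Module 𝕜 (Syn X) :=
  inferInstanceAs (Module 𝕜 X)

/-- factorisation through a Hilbert space from a semi-inner product -/
theorem factor_of_core {X Y : Type} [NormedAddCommGroup X] [NormedSpace 𝕜 X]
    [NormedAddCommGroup Y] [NormedSpace 𝕜 Y] [CompleteSpace Y]
    (c : PreInnerProductSpace.Core 𝕜 (Syn X)) (u : X →L[𝕜] Y) (C : ℝ) (hC : 0 ≤ C)
    (h1 : ∀ x : X, re (c.inner x x) ≤ C ^ 2 * ‖x‖ ^ 2)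
    (h2 : ∀ x : X, ‖u x‖ ^ 2 ≤ re (c.inner x x)) :
    ∃ (H : Type) (_ : NormedAddCommGroup H) (_ : InnerProductSpace 𝕜 H) (_ : CompleteSpace H)
      (a : X →L[𝕜] H) (b : H →L[𝕜] Y), ‖a‖ ≤ C ∧ ‖b‖ ≤ 1 ∧ u = b ∘L a := by
  let _ : SeminormedAddCommGroup (Syn X) :=
    @InnerProductSpace.Core.toSeminormedAddCommGroup 𝕜 (Syn X) _ _ _ c
  let _ : InnerProductSpace 𝕜 (Syn X) := .ofCore c
  have hn : ∀ x : Syn X, ‖x‖ = √(re (c.inner x x)) := fun x => rfl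
  let e : Syn X →ₗ[𝕜] UniformSpace.Completion (Syn X) :=
    (UniformSpace.Completion.toComplL : Syn X →L[𝕜] UniformSpace.Completion (Syn X))
  have he : ∀ x, ‖e x‖ = ‖x‖ := fun x => UniformSpace.Completion.norm_coe x
  have hdense : DenseRange e := UniformSpace.Completion.denseRange_coe
  have hle : ∀ x : X, ‖e x‖ ≤ C * ‖x‖ := by
    intro x
    rw [he, hn]
    refine Real.sqrt_le_iff.2 ⟨by positivity, ?_⟩
    rw [mul_pow]
    exact h1 x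
  have hub : ∀ x : Syn X, ‖(u : X →ₗ[𝕜] Y) x‖ ≤ 1 * ‖e x‖ := by
    intro x
    rw [one_mul, he, hn]
    exact Real.le_sqrt_of_sq_le (h2 x)
  let f : Syn X →ₗ[𝕜] Y := (u : X →ₗ[𝕜] Y)
  let a : X →L[𝕜] UniformSpace.Completion (Syn X) :=
    LinearMap.mkContinuous
      { toFun := fun x => e x
        map_add' := fun x y => map_add e x y
        map_smul' := fun k x => map_smul e k x } C hle
  refine ⟨UniformSpace.Completion (Syn X), inferInstance, inferInstance, inferInstance, a,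
    f.extendOfNorm e, LinearMap.mkContinuous_norm_le _ hC _,
    LinearMap.opNorm_extendOfNorm_le hdense zero_le_one hub, ?_⟩
  ext x
  exact (LinearMap.extendOfNorm_eq (f := f) hdense ⟨1, hub⟩ x).symm

end core

section criterion

variable {X Y : Type} [NormedAddCommGroup X] [NormedSpace 𝕜 X]
  [NormedAddCommGroup Y] [NormedSpace 𝕜 Y]

/-- the criterion with constant `C` -/
def Crit (u : X →L[𝕜] Y) (C : ℝ) : Prop :=
  ∀ (p q : ℕ) (x : Fin p → X) (z : Fin q → X),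
    (∀ ξ : StrongDual 𝕜 X, ∑ i, ‖ξ (x i)‖ ^ 2 = ∑ j, ‖ξ (z j)‖ ^ 2) →
    ∑ j, ‖u (z j)‖ ^ 2 ≤ C ^ 2 * ∑ i, ‖x i‖ ^ 2

/-- `ξ ↦ |ξ(x)|²` -/
noncomputable def hat (𝕜 : Type) [RCLike 𝕜] {X : Type} [NormedAddCommGroup X] [NormedSpace 𝕜 X]
    (x : X) : StrongDual 𝕜 X → ℝ := fun ξ => ‖ξ x‖ ^ 2

/-- the span of the functions `hat x` -/
noncomputable def SS (𝕜 : Type) [RCLike 𝕜] (X : Type) [NormedAddCommGroup X] [NormedSpace 𝕜 X] :
    Submodule ℝ (StrongDual 𝕜 X → ℝ) := Submodule.span ℝ (Set.range (hat 𝕜 (X := X)))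

/-- the set of values over all representations -/
def DD (u : X →L[𝕜] Y) (C : ℝ) (φ : StrongDual 𝕜 X → ℝ) : Set ℝ :=
  {r | ∃ (p q : ℕ) (x : Fin p → X) (z : Fin q → X),
    (∀ ξ : StrongDual 𝕜 X, φ ξ = ∑ i, ‖ξ (x i)‖ ^ 2 - ∑ j, ‖ξ (z j)‖ ^ 2) ∧
    r = C ^ 2 * ∑ i, ‖x i‖ ^ 2 - ∑ j, ‖u (z j)‖ ^ 2}

lemma DD_add (u : X →L[𝕜] Y) (C : ℝ) (φ ψ : StrongDual 𝕜 X → ℝ) {r s : ℝ}
    (hr : r ∈ DD u C φ) (hs : s ∈ DD u C ψ) : r + s ∈ DD u C (φ + ψ) := by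
  obtain ⟨p, q, x, z, h1, h2⟩ := hr
  obtain ⟨p', q', x', z', h1', h2'⟩ := hs
  refine ⟨p + p', q + q', Fin.append x x', Fin.append z z', ?_, ?_⟩
  · intro ξ
    rw [Pi.add_apply, h1, h1', Fin.sum_univ_add, Fin.sum_univ_add]
    simp only [Fin.append_left, Fin.append_right]
    ring
  · rw [h2, h2', Fin.sum_univ_add, Fin.sum_univ_add]
    simp only [Fin.append_left, Fin.append_right]
    ring

lemma DD_smul (u : X →L[𝕜] Y) (C : ℝ) (φ : StrongDual 𝕜 X → ℝ) {r : ℝ} (c : ℝ) (hc : 0 ≤ c)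
    (hr : r ∈ DD u C φ) : c * r ∈ DD u C (c • φ) := by
  obtain ⟨p, q, x, z, h1, h2⟩ := hr
  have hsq : (√c) ^ 2 = c := Real.sq_sqrt hc
  have hk : ∀ {V : Type} [NormedAddCommGroup V] [NormedSpace 𝕜 V] (v : V),
      ‖((√c : ℝ) : 𝕜) • v‖ ^ 2 = c * ‖v‖ ^ 2 := by
    intro V _ _ v
    rw [norm_smul, RCLike.norm_ofReal, abs_of_nonneg (Real.sqrt_nonneg _), mul_pow, hsq]
  refine ⟨p, q, fun i => ((√c : ℝ) : 𝕜) • x i, fun i => ((√c : ℝ) : 𝕜) • z i, ?_, ?_⟩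
  · intro ξ
    rw [Pi.smul_apply, smul_eq_mul, h1]
    simp only [map_smul, hk, ← Finset.mul_sum]
    ring
  · simp only [map_smul, hk, ← Finset.mul_sum, h2]
    ring

lemma DD_hat (u : X →L[𝕜] Y) (C : ℝ) (x : X) : C ^ 2 * ‖x‖ ^ 2 ∈ DD u C (hat 𝕜 x) :=
  ⟨1, 0, fun _ => x, fun i => i.elim0, fun ξ => by simp [hat], by simp⟩

lemma DD_neg_hat (u : X →L[𝕜] Y) (C : ℝ) (x : X) : -‖u x‖ ^ 2 ∈ DD u C (-hat 𝕜 x) :=
  ⟨0, 1, fun i => i.elim0, fun _ => x, fun ξ => by simp [hat], by simp⟩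

lemma DD_nonempty (u : X →L[𝕜] Y) (C : ℝ) (φ : SS 𝕜 X) : (DD u C φ.1).Nonempty := by
  obtain ⟨φ, hφ⟩ := φ
  show (DD u C φ).Nonempty
  induction hφ using Submodule.span_induction with
  | mem φ h =>
    obtain ⟨x, rfl⟩ := h
    exact ⟨_, DD_hat u C x⟩
  | zero => exact ⟨0, 0, 0, fun i => i.elim0, fun i => i.elim0, fun ξ => by simp, by simp⟩
  | add φ ψ _ _ h1 h2 =>
    obtain ⟨r, hr⟩ := h1
    obtain ⟨s, hs⟩ := h2
    exact ⟨_, DD_add u C φ ψ hr hs⟩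
  | smul c φ _ h =>
    obtain ⟨r, hr⟩ := h
    rcases le_total 0 c with hc | hc
    · exact ⟨_, DD_smul u C φ c hc hr⟩
    · obtain ⟨p, q, x, z, h1, h2⟩ := hr
      have h3 : C ^ 2 * ∑ j, ‖z j‖ ^ 2 - ∑ i, ‖u (x i)‖ ^ 2 ∈ DD u C (-φ) :=
        ⟨q, p, z, x, fun ξ => by rw [Pi.neg_apply, h1]; ring, rfl⟩
      have h4 := DD_smul u C (-φ) (-c) (by linarith) h3
      rw [smul_neg, neg_smul, neg_neg] at h4
      exact ⟨_, h4⟩

lemma DD_bddBelow (u : X →L[𝕜] Y) (C : ℝ) (hu : Crit u C) (φ : SS 𝕜 X) :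
    BddBelow (DD u C φ.1) := by
  obtain ⟨s, hs⟩ := DD_nonempty u C (-φ)
  refine ⟨-s, fun r hr => ?_⟩
  have h1 := DD_add u C _ _ hr hs
  obtain ⟨p, q, x, z, h2, h3⟩ := h1
  have h4 := hu p q x z fun ξ => by
    have h5 := h2 ξ
    have h6 : (φ.1 + (-φ : SS 𝕜 X).1) ξ = 0 := by
      simp
    rw [h6] at h5
    linarith
  linarith

/-- the sublinear functional -/
noncomputable def NN (u : X →L[𝕜] Y) (C : ℝ) (φ : SS 𝕜 X) : ℝ := sInf (DD u C φ.1)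

lemma NN_smul_le (u : X →L[𝕜] Y) (C : ℝ) (hu : Crit u C) (c : ℝ) (hc : 0 < c) (φ : SS 𝕜 X) :
    NN u C (c • φ) ≤ c * NN u C φ := by
  rw [← div_le_iff₀' hc]
  refine le_csInf (DD_nonempty u C φ) fun r hr => ?_
  rw [div_le_iff₀' hc]
  exact csInf_le (DD_bddBelow u C hu (c • φ)) (DD_smul u C φ.1 c hc.le hr)

lemma NN_smul (u : X →L[𝕜] Y) (C : ℝ) (hu : Crit u C) (c : ℝ) (hc : 0 < c) (φ : SS 𝕜 X) :
    NN u C (c • φ) = c * NN u C φ := by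
  refine le_antisymm (NN_smul_le u C hu c hc φ) ?_
  have h := NN_smul_le u C hu c⁻¹ (inv_pos.2 hc) (c • φ)
  rw [smul_smul, inv_mul_cancel₀ hc.ne', one_smul] at h
  rwa [← div_eq_inv_mul, le_div_iff₀' hc] at h

lemma NN_add (u : X →L[𝕜] Y) (C : ℝ) (hu : Crit u C) (φ ψ : SS 𝕜 X) :
    NN u C (φ + ψ) ≤ NN u C φ + NN u C ψ := by
  have h1 : ∀ r ∈ DD u C φ.1, ∀ s ∈ DD u C ψ.1, NN u C (φ + ψ) ≤ r + s := fun r hr s hs =>
    csInf_le (DD_bddBelow u C hu (φ + ψ)) (DD_add u C _ _ hr hs)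
  have h2 : ∀ r ∈ DD u C φ.1, NN u C (φ + ψ) - r ≤ NN u C ψ := fun r hr =>
    le_csInf (DD_nonempty u C ψ) fun s hs => by linarith [h1 r hr s hs]
  have h3 : NN u C (φ + ψ) - NN u C ψ ≤ NN u C φ :=
    le_csInf (DD_nonempty u C φ) fun r hr => by linarith [h2 r hr]
  linarith

/-- the dominated functional -/
theorem exists_functional (u : X →L[𝕜] Y) (C : ℝ) (hu : Crit u C) :
    ∃ Λ : SS 𝕜 X →ₗ[ℝ] ℝ, ∀ x : X,
      Λ ⟨hat 𝕜 x, Submodule.subset_span ⟨x, rfl⟩⟩ ≤ C ^ 2 * ‖x‖ ^ 2 ∧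
      ‖u x‖ ^ 2 ≤ Λ ⟨hat 𝕜 x, Submodule.subset_span ⟨x, rfl⟩⟩ := by
  have h0 : 0 ≤ NN u C 0 := by
    have := NN_smul u C hu 2 (by norm_num) 0
    rw [smul_zero] at this
    linarith
  obtain ⟨Λ, -, hΛ⟩ := exists_extension_of_le_sublinear (E := SS 𝕜 X)
    ⟨⊥, 0⟩ (NN u C) (fun c hc φ => NN_smul u C hu c hc φ) (NN_add u C hu)
    (by
      rintro ⟨φ, hφ⟩
      have : φ = 0 := by simpa using hφ
      subst this
      exact h0)
  refine ⟨Λ, fun x => ⟨?_, ?_⟩⟩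
  · exact (hΛ _).trans (csInf_le (DD_bddBelow u C hu _) (DD_hat u C x))
  · have h1 := hΛ (-⟨hat 𝕜 x, Submodule.subset_span ⟨x, rfl⟩⟩)
    have h2 : NN u C (-⟨hat 𝕜 x, Submodule.subset_span ⟨x, rfl⟩⟩) ≤ -‖u x‖ ^ 2 :=
      csInf_le (DD_bddBelow u C hu _) (DD_neg_hat u C x)
    rw [map_neg] at h1
    linarith

/-- `ξ ↦ re (conj ξ(x) ξ(y))` -/
noncomputable def rf (𝕜 : Type) [RCLike 𝕜] {X : Type} [NormedAddCommGroup X] [NormedSpace 𝕜 X]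
    (x y : X) : StrongDual 𝕜 X → ℝ := fun ξ => re (conj (ξ x) * ξ y)

lemma rf_mem (x y : X) : rf 𝕜 x y ∈ SS 𝕜 X := by
  have h : rf 𝕜 x y = (1 / 4 : ℝ) • (hat 𝕜 (x + y) - hat 𝕜 (x - y)) := by
    funext ξ
    simp only [rf, hat, Pi.smul_apply, Pi.sub_apply, smul_eq_mul, map_add, map_sub,
      ← RCLike.normSq_eq_def', RCLike.normSq_apply, RCLike.mul_re, RCLike.conj_re,
      RCLike.conj_im]
    ring
  rw [h]
  exact Submodule.smul_mem _ _ (Submodule.sub_mem _ (Submodule.subset_span ⟨_, rfl⟩)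
    (Submodule.subset_span ⟨_, rfl⟩))

/-- `rf x y` in the span -/
noncomputable def RR (𝕜 : Type) [RCLike 𝕜] {X : Type} [NormedAddCommGroup X] [NormedSpace 𝕜 X]
    (x y : X) : SS 𝕜 X := ⟨rf 𝕜 x y, rf_mem x y⟩

lemma RR_self (x : X) : RR 𝕜 x x = ⟨hat 𝕜 x, Submodule.subset_span ⟨x, rfl⟩⟩ := by
  apply Subtype.ext
  funext ξ
  show re (conj (ξ x) * ξ x) = ‖ξ x‖ ^ 2
  rw [RCLike.conj_mul, ← RCLike.ofReal_pow, RCLike.ofReal_re]

lemma RR_add (x y z : X) : RR 𝕜 (x + y) z = RR 𝕜 x z + RR 𝕜 y z := by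
  apply Subtype.ext
  funext ξ
  show re (conj (ξ (x + y)) * ξ z) = re (conj (ξ x) * ξ z) + re (conj (ξ y) * ξ z)
  rw [map_add, map_add, add_mul, map_add]

lemma RR_smul (c : 𝕜) (x z : X) :
    RR 𝕜 (c • x) z = re c • RR 𝕜 x z + im c • RR 𝕜 ((I : 𝕜) • x) z := by
  apply Subtype.ext
  funext ξ
  show re (conj (ξ (c • x)) * ξ z) =
    re c * re (conj (ξ x) * ξ z) + im c * re (conj (ξ ((I : 𝕜) • x)) * ξ z)
  rw [ξ.map_smul, ξ.map_smul, smul_eq_mul, smul_eq_mul]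
  simp only [RCLike.mul_re, RCLike.mul_im, RCLike.conj_re, RCLike.conj_im, map_mul,
    RCLike.I_re]
  have h := RCLike.I_im' c
  linear_combination (-(re (ξ x) * im (ξ z)) + im (ξ x) * re (ξ z)) * h

lemma RR_symm (x z : X) : RR 𝕜 x z = RR 𝕜 z x := by
  apply Subtype.ext
  funext ξ
  show re (conj (ξ x) * ξ z) = re (conj (ξ z) * ξ x)
  simp only [RCLike.mul_re, RCLike.conj_re, RCLike.conj_im]
  ring

lemma RR_I (x z : X) : RR 𝕜 ((I : 𝕜) • x) z = - RR 𝕜 ((I : 𝕜) • z) x := by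
  apply Subtype.ext
  funext ξ
  show re (conj (ξ ((I : 𝕜) • x)) * ξ z) = - re (conj (ξ ((I : 𝕜) • z)) * ξ x)
  rw [ξ.map_smul, ξ.map_smul, smul_eq_mul, smul_eq_mul]
  simp only [RCLike.mul_re, RCLike.mul_im, RCLike.conj_re, RCLike.conj_im, map_mul,
    RCLike.I_re]
  ring

lemma RR_II (c : 𝕜) (x z : X) :
    im c • RR 𝕜 ((I : 𝕜) • (I : 𝕜) • x) z = -(im c • RR 𝕜 x z) := by
  apply Subtype.ext
  funext ξ
  show im c * re (conj (ξ ((I : 𝕜) • (I : 𝕜) • x)) * ξ z) = -(im c * re (conj (ξ x) * ξ z))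
  rw [ξ.map_smul, ξ.map_smul, smul_eq_mul, smul_eq_mul, ← mul_assoc]
  rcases RCLike.I_mul_I (K := 𝕜) with hI | hI
  · have : im c = 0 := by
      have := RCLike.I_im c
      rw [hI] at this
      simpa using this.symm
    rw [this]; simp
  · rw [hI]
    simp
    ring

/-- the semi-inner product -/
noncomputable def ip (Λ : SS 𝕜 X →ₗ[ℝ] ℝ) (x y : X) : 𝕜 :=
  ((Λ (RR 𝕜 x y) : ℝ) : 𝕜) + ((Λ (RR 𝕜 ((I : 𝕜) • x) y) : ℝ) : 𝕜) * I

lemma ip_symm (Λ : SS 𝕜 X →ₗ[ℝ] ℝ) (x y : X) : conj (ip Λ y x) = ip Λ x y := by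
  unfold ip
  rw [RR_symm (𝕜 := 𝕜) y x, RR_I (𝕜 := 𝕜) x y, map_add, map_mul,
    RCLike.conj_ofReal, RCLike.conj_ofReal, RCLike.conj_I, map_neg, RCLike.ofReal_neg]
  ring

lemma ip_re (Λ : SS 𝕜 X →ₗ[ℝ] ℝ) (x y : X) : re (ip Λ x y) = Λ (RR 𝕜 x y) := by
  unfold ip
  rw [map_add, RCLike.ofReal_re, RCLike.re_ofReal_mul, RCLike.I_re, mul_zero, add_zero]

lemma ip_add (Λ : SS 𝕜 X →ₗ[ℝ] ℝ) (x y z : X) : ip Λ (x + y) z = ip Λ x z + ip Λ y z := by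
  unfold ip
  rw [smul_add, RR_add, RR_add, map_add, map_add, RCLike.ofReal_add, RCLike.ofReal_add]
  ring

lemma ip_smul (Λ : SS 𝕜 X →ₗ[ℝ] ℝ) (x y : X) (c : 𝕜) :
    ip Λ (c • x) y = conj c * ip Λ x y := by
  unfold ip
  rw [smul_comm (I : 𝕜) c, RR_smul (𝕜 := 𝕜) c x, RR_smul (𝕜 := 𝕜) c ((I : 𝕜) • x), RR_II]
  simp only [map_add, map_neg, map_smul, smul_eq_mul, RCLike.ofReal_mul]
  conv_rhs => rw [← RCLike.re_add_im c]
  simp only [map_add, map_mul, RCLike.conj_ofReal, RCLike.conj_I]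
  rcases RCLike.I_mul_I (K := 𝕜) with hI | hI
  · have : im c = 0 := by
      have := RCLike.I_im c
      rw [hI] at this
      simpa using this.symm
    rw [this]
    simp
    ring
  · linear_combination ((im c : 𝕜) * ((Λ (RR 𝕜 ((I : 𝕜) • x) y) : ℝ) : 𝕜)) * hI

/-- the semi-inner product as a core -/
@[instance_reducible]
noncomputable def coreOf (Λ : SS 𝕜 X →ₗ[ℝ] ℝ) (h : ∀ x : X, 0 ≤ Λ (RR 𝕜 x x)) :
    PreInnerProductSpace.Core 𝕜 (Syn X) where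
  inner := fun x y => ip (X := X) Λ x y
  conj_inner_symm := fun x y => ip_symm (X := X) Λ x y
  re_inner_nonneg := fun x => by
    show 0 ≤ re (ip (X := X) Λ x x)
    rw [ip_re]
    exact h x
  add_left := fun x y z => ip_add (X := X) Λ x y z
  smul_left := fun x y c => ip_smul (X := X) Λ x y c

/-- **Theorem (criterion).** -/
theorem Crit.factor [CompleteSpace Y] (u : X →L[𝕜] Y) (C : ℝ) (hC : 0 ≤ C) (hu : Crit u C) :
    ∃ (H : Type) (_ : NormedAddCommGroup H) (_ : InnerProductSpace 𝕜 H) (_ : CompleteSpace H)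
      (a : X →L[𝕜] H) (b : H →L[𝕜] Y), ‖a‖ ≤ C ∧ ‖b‖ ≤ 1 ∧ u = b ∘L a := by
  obtain ⟨Λ, hΛ⟩ := exists_functional u C hu
  have hnn : ∀ x : X, 0 ≤ Λ (RR 𝕜 x x) := fun x => by
    rw [RR_self]
    exact (by positivity : (0 : ℝ) ≤ ‖u x‖ ^ 2).trans (hΛ x).2
  have hre : ∀ x : X, re ((coreOf Λ hnn).inner x x) =
      Λ ⟨hat 𝕜 x, Submodule.subset_span ⟨x, rfl⟩⟩ := by
    intro x
    rw [← RR_self]
    exact ip_re Λ x x
  exact factor_of_core (coreOf Λ hnn) u C hC (fun x => by rw [hre]; exact (hΛ x).1)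
    (fun x => by rw [hre]; exact (hΛ x).2)

end criterion

end Pool.Agent.H47.OpIdeal
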