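import Mathlib

/-!
# Analysis on the cube `{-1, 1}^n`
-/

set_option autoImplicit false
set_option maxSynthPendingDepth 3

open scoped Topology ComplexConjugate
open Filter

namespace Pool.Agent.H47.OpIdeal

variable {𝕜 : Type} [RCLike 𝕜]

/-- the cube `{-1, 1}^n` -/
abbrev Cube (n : ℕ) : Type := Fin n → ℤˣ

/-- a sign as a real number -/
noncomputable def sg (e : ℤˣ) : ℝ := ((e : ℤ) : ℝ)

lemma sg_sq (e : ℤˣ) : sg e * sg e = 1 := by
  unfold sg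
  exact_mod_cast Int.units_coe_mul_self e

lemma sg_mul (e f : ℤˣ) : sg (e * f) = sg e * sg f := by
  unfold sg; push_cast; ring

lemma abs_sg (e : ℤˣ) : |sg e| = 1 := by
  have h := sg_sq e
  rw [← abs_mul_abs_self] at h
  nlinarith [abs_nonneg (sg e)]

lemma sum_sign (f : ℤˣ → ℝ) : ∑ e, f e = f 1 + f (-1) := by
  rw [show (Finset.univ : Finset ℤˣ) = {1, -1} from by decide, Finset.sum_pair (by decide)]

/-- Walsh functions -/
noncomputable def walsh {n : ℕ} (A : Finset (Fin n)) (s : Cube n) : ℝ := ∏ i ∈ A, sg (s i)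

lemma walsh_mul {n : ℕ} (A : Finset (Fin n)) (s t : Cube n) :
    walsh A (s * t) = walsh A s * walsh A t := by
  unfold walsh
  rw [← Finset.prod_mul_distrib]
  exact Finset.prod_congr rfl fun i _ => sg_mul _ _

lemma walsh_singleton {n : ℕ} (i : Fin n) (s : Cube n) : walsh {i} s = sg (s i) := by
  unfold walsh; simp

lemma sum_prod_cube {n : ℕ} (g : Fin n → ℤˣ → ℝ) :
    ∑ s : Cube n, ∏ i, g i (s i) = ∏ i, ∑ e, g i e := by
  rw [Finset.prod_univ_sum, Fintype.piFinset_univ]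

/-- orthogonality -/
lemma walsh_orth {n : ℕ} (A B : Finset (Fin n)) :
    ∑ s : Cube n, walsh A s * walsh B s = if A = B then (2 : ℝ) ^ n else 0 := by
  classical
  have h : ∀ s : Cube n, walsh A s * walsh B s =
      ∏ i, ((if i ∈ A then sg (s i) else 1) * (if i ∈ B then sg (s i) else 1)) := by
    intro s
    unfold walsh
    rw [Finset.prod_mul_distrib, Finset.prod_ite_mem_eq, Finset.prod_ite_mem_eq]
  rw [Finset.sum_congr rfl fun s _ => h s,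
    sum_prod_cube (fun i e => (if i ∈ A then sg e else 1) * (if i ∈ B then sg e else 1))]
  have h1 : sg 1 = 1 := by simp [sg]
  have h2 : sg (-1) = -1 := by simp [sg]
  split_ifs with hAB
  · subst hAB
    rw [Finset.prod_congr rfl (g := fun _ => (2 : ℝ))]
    · simp
    · intro i _
      rw [sum_sign, h1, h2]
      split_ifs <;> norm_num
  · have : ∃ i, ¬ (i ∈ A ↔ i ∈ B) := by
      by_contra hcon
      push Not at hcon
      exact hAB (Finset.ext hcon)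
    obtain ⟨i, hi⟩ := this
    refine Finset.prod_eq_zero (Finset.mem_univ i) ?_
    rw [sum_sign, h1, h2]
    by_cases hA : i ∈ A <;> by_cases hB : i ∈ B <;> simp_all

/-- completeness -/
lemma walsh_complete {n : ℕ} (s t : Cube n) :
    ∑ A : Finset (Fin n), walsh A s * walsh A t = if s = t then (2 : ℝ) ^ n else 0 := by
  classical
  have h : ∀ A : Finset (Fin n), walsh A s * walsh A t = ∏ i ∈ A, (sg (s i) * sg (t i)) := by
    intro A
    unfold walsh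
    rw [Finset.prod_mul_distrib]
  have h3 : ∑ A : Finset (Fin n), ∏ i ∈ A, (sg (s i) * sg (t i)) =
      ∏ i, (1 + sg (s i) * sg (t i)) := by
    rw [Finset.prod_one_add, Finset.powerset_univ]
  rw [Finset.sum_congr rfl fun A _ => h A, h3]
  split_ifs with hst
  · subst hst
    rw [Finset.prod_congr rfl (g := fun _ => (2 : ℝ))]
    · simp
    · intro i _
      rw [sg_sq]; norm_num
  · have : ∃ i, s i ≠ t i := by
      by_contra hcon
      push Not at hcon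
      exact hst (funext hcon)
    obtain ⟨i, hi⟩ := this
    refine Finset.prod_eq_zero (Finset.mem_univ i) ?_
    rcases Int.units_eq_one_or (s i) with h1 | h1 <;> rcases Int.units_eq_one_or (t i) with h2 | h2
    · exact absurd (h1.trans h2.symm) hi
    · rw [h1, h2]; simp [sg]
    · rw [h1, h2]; simp [sg]
    · exact absurd (h1.trans h2.symm) hi

/-- a Parseval identity for vector-valued sums -/
lemma parseval {σ ι H : Type} [Fintype σ] [Fintype ι] [DecidableEq ι] [NormedAddCommGroup H]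
    [InnerProductSpace 𝕜 H] (M : σ → ι → ℝ) (D : ℝ)
    (hM : ∀ i j, ∑ s, M s i * M s j = if i = j then D else 0) (c : ι → H) :
    ∑ s, ‖∑ i, ((M s i : ℝ) : 𝕜) • c i‖ ^ 2 = D * ∑ i, ‖c i‖ ^ 2 := by
  have h : ∀ s, ‖∑ i, ((M s i : ℝ) : 𝕜) • c i‖ ^ 2 =
      ∑ i, ∑ j, M s i * M s j * RCLike.re (inner 𝕜 (c i) (c j)) := by
    intro s
    rw [← inner_self_eq_norm_sq (𝕜 := 𝕜), sum_inner, map_sum]
    refine Finset.sum_congr rfl fun i _ => ?_
    rw [inner_sum, map_sum]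
    refine Finset.sum_congr rfl fun j _ => ?_
    rw [inner_smul_left, inner_smul_right, RCLike.conj_ofReal, RCLike.re_ofReal_mul,
      RCLike.re_ofReal_mul]
    ring
  rw [Finset.sum_congr rfl fun s _ => h s, Finset.sum_comm, Finset.mul_sum]
  refine Finset.sum_congr rfl fun i _ => ?_
  rw [Finset.sum_comm]
  have h2 : ∀ j, ∑ s, M s i * M s j * RCLike.re (inner 𝕜 (c i) (c j)) =
      (if i = j then D else 0) * RCLike.re (inner 𝕜 (c i) (c j)) := by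
    intro j
    rw [← Finset.sum_mul, hM]
  rw [Finset.sum_congr rfl fun j _ => h2 j]
  simp only [ite_mul, zero_mul, Finset.sum_ite_eq, Finset.mem_univ, if_true]
  rw [inner_self_eq_norm_sq]

/-- the unnormalised `L_2` norm -/
noncomputable def nL2 {σ V : Type} [Fintype σ] [SeminormedAddCommGroup V] (f : σ → V) : ℝ :=
  √(∑ s, ‖f s‖ ^ 2)

section nL2

variable {σ V : Type} [Fintype σ] [SeminormedAddCommGroup V]

lemma nL2_nonneg (f : σ → V) : 0 ≤ nL2 f := Real.sqrt_nonneg _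

lemma nL2_sq (f : σ → V) : nL2 f ^ 2 = ∑ s, ‖f s‖ ^ 2 := Real.sq_sqrt (by positivity)

lemma nL2_add_le (f g : σ → V) : nL2 (f + g) ≤ nL2 f + nL2 g := by
  have h : ∀ f : σ → V, nL2 f = ‖(WithLp.toLp 2 f : PiLp 2 (fun _ : σ => V))‖ := fun f => by
    rw [PiLp.norm_eq_of_L2]; rfl
  rw [h, h, h, WithLp.toLp_add]
  exact norm_add_le _ _

lemma nL2_sub_le (f g : σ → V) : nL2 (f - g) ≤ nL2 f + nL2 g := by
  have h : nL2 (-g) = nL2 g := by unfold nL2; simp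
  rw [sub_eq_add_neg, ← h]
  exact nL2_add_le f (-g)

lemma nL2_le_mul {W : Type} [SeminormedAddCommGroup W] (f : σ → V) (g : σ → W) (c : ℝ)
    (hc : 0 ≤ c) (h : ∀ s, ‖f s‖ ≤ c * ‖g s‖) : nL2 f ≤ c * nL2 g := by
  refine Real.sqrt_le_iff.2 ⟨mul_nonneg hc (nL2_nonneg g), ?_⟩
  rw [mul_pow, nL2_sq, Finset.mul_sum]
  refine Finset.sum_le_sum fun s _ => ?_
  rw [← mul_pow]
  exact pow_le_pow_left₀ (norm_nonneg _) (h s) 2

end nL2

/-- the coefficients of a function on the cube -/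
noncomputable def coef (𝕜 : Type) [RCLike 𝕜] {n : ℕ} {V : Type} [NormedAddCommGroup V]
    [NormedSpace 𝕜 V] (A : Finset (Fin n)) (f : Cube n → V) : V :=
  ((((2 : ℝ) ^ n)⁻¹ : ℝ) : 𝕜) • ∑ ω, ((walsh A ω : ℝ) : 𝕜) • f ω

/-- the kernel -/
noncomputable def kern {n : ℕ} (ρ : ℝ) (ω : Cube n) : ℝ := ρ⁻¹ * (∏ i, (1 + ρ * sg (ω i)) - 1)

lemma kern_eq {n : ℕ} (ρ : ℝ) (hρ : ρ ≠ 0) (ω : Cube n) :
    kern ρ ω = ∑ A : Finset (Fin n), (if A = ∅ then 0 else ρ ^ (A.card - 1)) * walsh A ω := by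
  classical
  unfold kern
  have h1 : ∏ i, (1 + ρ * sg (ω i)) = ∑ A : Finset (Fin n), ρ ^ A.card * walsh A ω := by
    rw [Finset.prod_one_add, Finset.powerset_univ]
    refine Finset.sum_congr rfl fun A _ => ?_
    rw [Finset.prod_mul_distrib, Finset.prod_const]
    rfl
  rw [h1, ← Finset.add_sum_erase _ _ (Finset.mem_univ (∅ : Finset (Fin n))),
    ← Finset.add_sum_erase _ _ (Finset.mem_univ (∅ : Finset (Fin n)))]
  have h2 : walsh (∅ : Finset (Fin n)) ω = 1 := by simp [walsh]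
  rw [h2]
  simp only [Finset.card_empty, pow_zero, mul_one, if_true, zero_add, add_sub_cancel_left,
    Finset.mul_sum]
  refine Finset.sum_congr rfl fun A hA => ?_
  have hA' : A ≠ ∅ := (Finset.mem_erase.1 hA).1
  rw [if_neg hA']
  have hc : A.card = (A.card - 1) + 1 := by
    have := Finset.card_pos.2 (Finset.nonempty_iff_ne_empty.2 hA')
    omega
  conv_lhs => rw [hc, pow_succ]
  field_simp

lemma sum_abs_kern_le {n : ℕ} (ρ : ℝ) (hρ : 0 < ρ) (hρ1 : ρ ≤ 1) :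
    ∑ ω : Cube n, |kern ρ ω| ≤ 2 ^ n * (2 / ρ) := by
  have h1 : ∀ ω : Cube n, |kern ρ ω| ≤ ρ⁻¹ * (∏ i, (1 + ρ * sg (ω i)) + 1) := by
    intro ω
    unfold kern
    rw [abs_mul, abs_of_pos (inv_pos.2 hρ)]
    gcongr
    have h2 : 0 ≤ ∏ i, (1 + ρ * sg (ω i)) := Finset.prod_nonneg fun i _ => by
      have h3 := abs_sg (ω i)
      have h4 := neg_abs_le (sg (ω i))
      nlinarith
    calc |∏ i, (1 + ρ * sg (ω i)) - 1| ≤ |∏ i, (1 + ρ * sg (ω i))| + |1| := abs_sub _ _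
      _ = ∏ i, (1 + ρ * sg (ω i)) + 1 := by rw [abs_of_nonneg h2, abs_one]
  refine (Finset.sum_le_sum fun ω _ => h1 ω).trans ?_
  rw [← Finset.mul_sum, Finset.sum_add_distrib, sum_prod_cube (fun _ e => 1 + ρ * sg e)]
  have h5 : ∀ i : Fin n, ∑ e, (1 + ρ * sg e) = 2 := by
    intro i
    rw [sum_sign]
    simp [sg]
    ring
  rw [Finset.prod_congr rfl fun i _ => h5 i]
  simp
  apply le_of_eq
  field_simp
  ring

section conv

variable {n : ℕ} {V : Type} [NormedAddCommGroup V] [NormedSpace 𝕜 V]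

/-- convolution with the kernel -/
noncomputable def kconv (𝕜 : Type) [RCLike 𝕜] {n : ℕ} {V : Type} [NormedAddCommGroup V]
    [NormedSpace 𝕜 V] (ρ : ℝ) (f : Cube n → V) (s : Cube n) : V :=
  ((((2 : ℝ) ^ n)⁻¹ : ℝ) : 𝕜) • ∑ ω, ((kern ρ (s * ω) : ℝ) : 𝕜) • f ω

lemma sum_abs_kern_mul (ρ : ℝ) (s : Cube n) :
    ∑ ω, |kern ρ (s * ω)| = ∑ ω : Cube n, |kern ρ ω| :=
  Equiv.sum_comp (Equiv.mulLeft s) (fun ω => |kern ρ ω|)

lemma nL2_kconv_le (ρ : ℝ) (hρ : 0 < ρ) (hρ1 : ρ ≤ 1) (f : Cube n → V) :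
    nL2 (kconv 𝕜 ρ f) ≤ (2 / ρ) * nL2 f := by
  refine Real.sqrt_le_iff.2 ⟨mul_nonneg (by positivity) (nL2_nonneg f), ?_⟩
  rw [mul_pow, nL2_sq]
  set K : ℝ := ∑ ω : Cube n, |kern ρ ω| with hK
  have hK0 : 0 ≤ K := by positivity
  have hK1 : K ≤ 2 ^ n * (2 / ρ) := sum_abs_kern_le ρ hρ hρ1
  have h1 : ∀ s, ‖kconv 𝕜 ρ f s‖ ^ 2 ≤
      (((2 : ℝ) ^ n)⁻¹) ^ 2 * (K * ∑ ω, |kern ρ (s * ω)| * ‖f ω‖ ^ 2) := by
    intro s
    unfold kconv
    rw [norm_smul, RCLike.norm_ofReal, abs_of_nonneg (by positivity), mul_pow]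
    gcongr
    calc ‖∑ ω, ((kern ρ (s * ω) : ℝ) : 𝕜) • f ω‖ ^ 2
        ≤ (∑ ω, |kern ρ (s * ω)| * ‖f ω‖) ^ 2 := by
          gcongr
          refine (norm_sum_le _ _).trans (Finset.sum_le_sum fun ω _ => ?_)
          rw [norm_smul, RCLike.norm_ofReal]
      _ ≤ (∑ ω, |kern ρ (s * ω)|) * ∑ ω, |kern ρ (s * ω)| * ‖f ω‖ ^ 2 :=
          Finset.sum_sq_le_sum_mul_sum_of_sq_le_mul _ (fun _ _ => by positivity)
            (fun _ _ => by positivity) (fun ω _ => le_of_eq (by ring))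
      _ = K * ∑ ω, |kern ρ (s * ω)| * ‖f ω‖ ^ 2 := by rw [sum_abs_kern_mul]
  refine (Finset.sum_le_sum fun s _ => h1 s).trans ?_
  rw [← Finset.mul_sum, ← Finset.mul_sum, Finset.sum_comm]
  have h2 : ∀ ω, ∑ s, |kern ρ (s * ω)| * ‖f ω‖ ^ 2 = K * ‖f ω‖ ^ 2 := by
    intro ω
    rw [← Finset.sum_mul]
    congr 1
    exact Equiv.sum_comp (Equiv.mulRight ω) (fun ω => |kern ρ ω|)
  rw [Finset.sum_congr rfl fun ω _ => h2 ω, ← Finset.mul_sum]
  have h3 : (((2 : ℝ) ^ n)⁻¹) ^ 2 * (K * (K * ∑ s, ‖f s‖ ^ 2)) =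
      (((2 : ℝ) ^ n)⁻¹ * K) ^ 2 * ∑ s, ‖f s‖ ^ 2 := by ring
  rw [h3]
  gcongr
  rw [inv_mul_le_iff₀ (by positivity)]
  exact hK1

lemma kconv_eq (ρ : ℝ) (hρ : ρ ≠ 0) (f : Cube n → V) (s : Cube n) :
    kconv 𝕜 ρ f s = ∑ A : Finset (Fin n), ((walsh A s : ℝ) : 𝕜) •
      ((((if A = ∅ then 0 else ρ ^ (A.card - 1) : ℝ)) : 𝕜) • coef 𝕜 A f) := by
  unfold kconv coef
  simp only [kern_eq ρ hρ, walsh_mul, Finset.smul_sum, RCLike.ofReal_sum, Finset.sum_smul]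
  rw [Finset.sum_comm]
  refine Finset.sum_congr rfl fun A _ => Finset.sum_congr rfl fun ω _ => ?_
  simp only [smul_smul]
  congr 1
  push_cast
  ring

lemma sum_singleton_eq (f : Cube n → V) (s : Cube n) :
    ∑ i, ((sg (s i) : ℝ) : 𝕜) • coef 𝕜 {i} f = ∑ A : Finset (Fin n), ((walsh A s : ℝ) : 𝕜) •
      (if A.card = 1 then coef 𝕜 A f else 0) := by
  classical
  have h1 : ∑ A : Finset (Fin n), ((walsh A s : ℝ) : 𝕜) •
      (if A.card = 1 then coef 𝕜 A f else 0) =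
      ∑ A ∈ Finset.powersetCard 1 (Finset.univ : Finset (Fin n)),
        ((walsh A s : ℝ) : 𝕜) • coef 𝕜 A f := by
    rw [← Finset.univ_filter_card_eq, Finset.sum_filter]
    refine Finset.sum_congr rfl fun A _ => ?_
    split_ifs <;> simp
  rw [h1, Finset.powersetCard_one, Finset.sum_map]
  refine Finset.sum_congr rfl fun i _ => ?_
  show _ = ((walsh {i} s : ℝ) : 𝕜) • coef 𝕜 {i} f
  rw [walsh_singleton]

lemma kconv_sub_eq (ρ : ℝ) (hρ : ρ ≠ 0) (f : Cube n → V) (s : Cube n) :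
    kconv 𝕜 ρ f s - ∑ i, ((sg (s i) : ℝ) : 𝕜) • coef 𝕜 {i} f =
      ∑ A : Finset (Fin n), ((walsh A s : ℝ) : 𝕜) •
        ((((if 2 ≤ A.card then ρ ^ (A.card - 1) else 0 : ℝ)) : 𝕜) • coef 𝕜 A f) := by
  rw [kconv_eq ρ hρ, sum_singleton_eq, ← Finset.sum_sub_distrib]
  refine Finset.sum_congr rfl fun A _ => ?_
  rw [← smul_sub]
  congr 1
  by_cases h0 : A = ∅
  · subst h0; simp
  · have hpos := Finset.card_pos.2 (Finset.nonempty_iff_ne_empty.2 h0)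
    by_cases h1 : A.card = 1
    · rw [if_neg h0, if_pos h1, if_neg (by omega), h1]; simp
    · rw [if_neg h0, if_neg h1, if_pos (by omega), sub_zero]

end conv

/-- the Hilbert space estimate -/
lemma nL2_kconv_sub_le {n : ℕ} {H : Type} [NormedAddCommGroup H] [InnerProductSpace 𝕜 H]
    (ρ : ℝ) (hρ : 0 < ρ) (hρ1 : ρ ≤ 1) (h : Cube n → H) :
    nL2 (fun s => kconv 𝕜 ρ h s - ∑ i, ((sg (s i) : ℝ) : 𝕜) • coef 𝕜 {i} h) ≤ ρ * nL2 h := by
  classical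
  refine Real.sqrt_le_iff.2 ⟨mul_nonneg hρ.le (nL2_nonneg h), ?_⟩
  rw [mul_pow, nL2_sq]
  have h0 : ∀ s, ‖kconv 𝕜 ρ h s - ∑ i, ((sg (s i) : ℝ) : 𝕜) • coef 𝕜 {i} h‖ ^ 2 =
      ‖∑ A : Finset (Fin n), ((walsh A s : ℝ) : 𝕜) •
        ((((if 2 ≤ A.card then ρ ^ (A.card - 1) else 0 : ℝ)) : 𝕜) • coef 𝕜 A h)‖ ^ 2 :=
    fun s => by rw [kconv_sub_eq ρ hρ.ne' h s]
  rw [Finset.sum_congr rfl fun s _ => h0 s]
  rw [parseval (𝕜 := 𝕜) (fun (s : Cube n) (A : Finset (Fin n)) => walsh A s) (2 ^ n)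
    (fun A B => walsh_orth A B)]
  have h1 : ∀ A : Finset (Fin n),
      ‖(((if 2 ≤ A.card then ρ ^ (A.card - 1) else 0 : ℝ)) : 𝕜) • coef 𝕜 A h‖ ^ 2 ≤
      ρ ^ 2 * ‖coef 𝕜 A h‖ ^ 2 := by
    intro A
    rw [norm_smul, RCLike.norm_ofReal, mul_pow]
    gcongr
    split_ifs with hA
    · rw [abs_of_nonneg (by positivity)]
      calc ρ ^ (A.card - 1) ≤ ρ ^ 1 := pow_le_pow_of_le_one hρ.le hρ1 (by omega)
        _ = ρ := pow_one ρ
    · simpa using hρ.le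
  have h2 : ∑ A : Finset (Fin n), ‖coef 𝕜 A h‖ ^ 2 = ((2 : ℝ) ^ n)⁻¹ * ∑ s, ‖h s‖ ^ 2 := by
    have h3 : ∀ A : Finset (Fin n), ‖coef 𝕜 A h‖ ^ 2 =
        (((2 : ℝ) ^ n)⁻¹) ^ 2 * ‖∑ ω, ((walsh A ω : ℝ) : 𝕜) • h ω‖ ^ 2 := by
      intro A
      unfold coef
      rw [norm_smul, RCLike.norm_ofReal, abs_of_nonneg (by positivity), mul_pow]
    rw [Finset.sum_congr rfl fun A _ => h3 A, ← Finset.mul_sum,
      parseval (𝕜 := 𝕜) (fun (A : Finset (Fin n)) (s : Cube n) => walsh A s) (2 ^ n)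
        (fun s t => walsh_complete s t)]
    have : ((2 : ℝ) ^ n) ≠ 0 := by positivity
    field_simp
  calc 2 ^ n * ∑ A : Finset (Fin n),
        ‖(((if 2 ≤ A.card then ρ ^ (A.card - 1) else 0 : ℝ)) : 𝕜) • coef 𝕜 A h‖ ^ 2
      ≤ 2 ^ n * ∑ A : Finset (Fin n), ρ ^ 2 * ‖coef 𝕜 A h‖ ^ 2 := by
        gcongr with A _
        exact h1 A
    _ = ρ ^ 2 * ∑ s, ‖h s‖ ^ 2 := by
        rw [← Finset.mul_sum, h2]
        have : ((2 : ℝ) ^ n) ≠ 0 := by positivity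
        field_simp

end Pool.Agent.H47.OpIdeal
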