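import Mathlib

/-!
# Operator ideals in the sense of Pietsch: the notions of problem MP_df739d_an

All Banach spaces live in `Type`, over a field `𝕜` which is `ℝ` or `ℂ` (`RCLike 𝕜`).
-/

set_option autoImplicit false
set_option maxSynthPendingDepth 3

open scoped ENNReal Topology
open Filter NormedSpace

namespace Pool.Agent.H47.OpIdeal

/-- A Banach operator ideal in the sense of Pietsch. The ideal is encoded by its norm
`nrm`, with values in `[0, ∞]`: an operator belongs to the ideal iff its norm is finite. -/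
structure BanachIdeal (𝕜 : Type) [RCLike 𝕜] where
  /-- the ideal norm; `∞` outside of the ideal -/
  nrm : ∀ {X Y : Type} [NormedAddCommGroup X] [NormedSpace 𝕜 X] [CompleteSpace X]
    [NormedAddCommGroup Y] [NormedSpace 𝕜 Y] [CompleteSpace Y], (X →L[𝕜] Y) → ℝ≥0∞
  /-- the identity of the scalar field has norm one -/
  nrm_id : nrm (ContinuousLinearMap.id 𝕜 𝕜) = 1
  /-- triangle inequality (in particular the sum of two members is a member) -/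
  nrm_add_le : ∀ {X Y : Type} [NormedAddCommGroup X] [NormedSpace 𝕜 X] [CompleteSpace X]
    [NormedAddCommGroup Y] [NormedSpace 𝕜 Y] [CompleteSpace Y] (S T : X →L[𝕜] Y),
    nrm (S + T) ≤ nrm S + nrm T
  /-- the ideal property -/
  nrm_comp_le : ∀ {W X Y Z : Type} [NormedAddCommGroup W] [NormedSpace 𝕜 W] [CompleteSpace W]
    [NormedAddCommGroup X] [NormedSpace 𝕜 X] [CompleteSpace X]
    [NormedAddCommGroup Y] [NormedSpace 𝕜 Y] [CompleteSpace Y]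
    [NormedAddCommGroup Z] [NormedSpace 𝕜 Z] [CompleteSpace Z]
    (R : W →L[𝕜] X) (S : X →L[𝕜] Y) (T : Y →L[𝕜] Z),
    nrm (T ∘L S ∘L R) ≤ ‖T‖ₑ * nrm S * ‖R‖ₑ
  /-- completeness of every component of the ideal -/
  complete : ∀ {X Y : Type} [NormedAddCommGroup X] [NormedSpace 𝕜 X] [CompleteSpace X]
    [NormedAddCommGroup Y] [NormedSpace 𝕜 Y] [CompleteSpace Y] (T : ℕ → (X →L[𝕜] Y)),
    (∀ n, nrm (T n) < ∞) →
    (∀ ε > 0, ∃ N : ℕ, ∀ m ≥ N, ∀ n ≥ N, nrm (T m - T n) ≤ ε) →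
    ∃ S : X →L[𝕜] Y, nrm S < ∞ ∧ Tendsto (fun n => nrm (T n - S)) atTop (𝓝 0)

variable {𝕜 : Type} [RCLike 𝕜]

section

variable {X Y : Type} [NormedAddCommGroup X] [NormedSpace 𝕜 X] [CompleteSpace X]
  [NormedAddCommGroup Y] [NormedSpace 𝕜 Y] [CompleteSpace Y]

/-- The ideal `B` is maximal: `B(T)` is the supremum of `B(Q_L T J_M)` over all
finite-dimensional subspaces `M` of `X` and all closed finite-codimensional subspaces `L`
of `Y`. -/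
def BanachIdeal.IsMaximal (B : BanachIdeal 𝕜) : Prop :=
  ∀ (X Y : Type) [NormedAddCommGroup X] [NormedSpace 𝕜 X] [CompleteSpace X]
    [NormedAddCommGroup Y] [NormedSpace 𝕜 Y] [CompleteSpace Y] (T : X →L[𝕜] Y),
    B.nrm T = ⨆ (M : Submodule 𝕜 X) (_ : FiniteDimensional 𝕜 M) (_ : CompleteSpace M)
      (L : Submodule 𝕜 Y) (_ : IsClosed (L : Set Y)) (_ : FiniteDimensional 𝕜 (Y ⧸ L)),
      B.nrm (L.mkQL ∘L T ∘L M.subtypeL)

/-- The norm `B^*(T)` of the adjoint ideal: the supremum of `|tr(Q_L T J_M S)|` over all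
finite-dimensional `M ⊆ X`, closed finite-codimensional `L ⊆ Y` and `S : Y/L → M` with
`B(S) ≤ 1`. -/
noncomputable def BanachIdeal.adjNrm (B : BanachIdeal 𝕜) (T : X →L[𝕜] Y) : ℝ≥0∞ :=
  ⨆ (M : Submodule 𝕜 X) (_ : FiniteDimensional 𝕜 M) (_ : CompleteSpace M)
    (L : Submodule 𝕜 Y) (_ : IsClosed (L : Set Y)) (_ : FiniteDimensional 𝕜 (Y ⧸ L))
    (S : (Y ⧸ L) →L[𝕜] M) (_ : B.nrm S ≤ 1),
    ‖LinearMap.trace 𝕜 (Y ⧸ L) (L.mkQL ∘L T ∘L M.subtypeL ∘L S : (Y ⧸ L) →L[𝕜] (Y ⧸ L))‖ₑ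

/-- `T` belongs to `𝔏_2`: it factors through a Hilbert space. -/
def FactorsThroughHilbert (T : X →L[𝕜] Y) : Prop :=
  ∃ (H : Type) (_ : NormedAddCommGroup H) (_ : InnerProductSpace 𝕜 H) (_ : CompleteSpace H)
    (R : X →L[𝕜] H) (A : H →L[𝕜] Y), T = A ∘L R

/-- The norm of the ideal `𝔏_∞`: the infimum of `‖A‖ ‖R‖` over all factorisations
`j_Y T = A R` through some space `L_∞(μ)`; it is `∞` if there is none. -/
noncomputable def linftyNrm (T : X →L[𝕜] Y) : ℝ≥0∞ :=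
  ⨅ (Ω : Type) (_ : MeasurableSpace Ω) (μ : MeasureTheory.Measure Ω)
    (R : X →L[𝕜] MeasureTheory.Lp 𝕜 ∞ μ)
    (A : MeasureTheory.Lp 𝕜 ∞ μ →L[𝕜] StrongDual 𝕜 (StrongDual 𝕜 Y))
    (_ : inclusionInDoubleDual 𝕜 Y ∘L T = A ∘L R), ‖A‖ₑ * ‖R‖ₑ

/-- The quasi-norm of `𝔅 ∘ 𝔏_∞`: the infimum of `B(A) L_∞(R)` over all factorisations
`T = A R` with `R ∈ 𝔏_∞(X, W)`, `A ∈ 𝔅(W, Y)`; it is `∞` if there is none. -/
noncomputable def BanachIdeal.compLinftyNrm (B : BanachIdeal 𝕜) (T : X →L[𝕜] Y) : ℝ≥0∞ :=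
  ⨅ (W : Type) (_ : NormedAddCommGroup W) (_ : NormedSpace 𝕜 W) (_ : CompleteSpace W)
    (R : X →L[𝕜] W) (_ : linftyNrm R < ∞) (A : W →L[𝕜] Y) (_ : B.nrm A < ∞)
    (_ : T = A ∘L R), B.nrm A * linftyNrm R

end

/-- Property (I) of `𝔅 ∘ 𝔏_∞`: every finite-rank `T` in it has, for every `ε > 0`, a
factorisation `T = A R` with `B(A) L_∞(R) ≤ (1 + ε) B∘L_∞(T)` and `A` of
finite-dimensional range. -/
def BanachIdeal.PropertyI (B : BanachIdeal 𝕜) : Prop :=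
  ∀ (X Y : Type) [NormedAddCommGroup X] [NormedSpace 𝕜 X] [CompleteSpace X]
    [NormedAddCommGroup Y] [NormedSpace 𝕜 Y] [CompleteSpace Y] (T : X →L[𝕜] Y),
    FiniteDimensional 𝕜 (LinearMap.range (T : X →ₗ[𝕜] Y)) → B.compLinftyNrm T < ∞ →
    ∀ ε : ℝ, 0 < ε →
    ∃ (W : Type) (_ : NormedAddCommGroup W) (_ : NormedSpace 𝕜 W) (_ : CompleteSpace W)
      (R : X →L[𝕜] W) (A : W →L[𝕜] Y), linftyNrm R < ∞ ∧ B.nrm A < ∞ ∧ T = A ∘L R ∧
      FiniteDimensional 𝕜 (LinearMap.range (A : W →ₗ[𝕜] Y)) ∧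
      B.nrm A * linftyNrm R ≤ ENNReal.ofReal (1 + ε) * B.compLinftyNrm T

/-- The ideal `B` is right-accessible: every operator `T` from a finite-dimensional space
`E` to a Banach space `Y` is, for every `ε > 0`, of the form `T = J_N S` with a
finite-dimensional `N ⊆ Y`, `S : E → N` and `B(S) ≤ (1 + ε) B(T)`. -/
def BanachIdeal.IsRightAccessible (B : BanachIdeal 𝕜) : Prop :=
  ∀ (E Y : Type) [NormedAddCommGroup E] [NormedSpace 𝕜 E] [CompleteSpace E]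
    [FiniteDimensional 𝕜 E] [NormedAddCommGroup Y] [NormedSpace 𝕜 Y] [CompleteSpace Y]
    (T : E →L[𝕜] Y) (ε : ℝ), 0 < ε →
    ∃ (N : Submodule 𝕜 Y) (_ : FiniteDimensional 𝕜 N) (_ : CompleteSpace N) (S : E →L[𝕜] N),
      T = N.subtypeL ∘L S ∧ B.nrm S ≤ ENNReal.ofReal (1 + ε) * B.nrm T

/-- The `𝔅`-local reflexivity principle (`𝔅`-LRP). -/
def BanachIdeal.LRP (B : BanachIdeal 𝕜) : Prop :=
  ∀ (E Y : Type) [NormedAddCommGroup E] [NormedSpace 𝕜 E] [CompleteSpace E]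
    [FiniteDimensional 𝕜 E] [NormedAddCommGroup Y] [NormedSpace 𝕜 Y] [CompleteSpace Y]
    (F : Submodule 𝕜 (StrongDual 𝕜 Y)) [FiniteDimensional 𝕜 F]
    (T : E →L[𝕜] StrongDual 𝕜 (StrongDual 𝕜 Y)) (ε : ℝ), 0 < ε →
    ∃ S : E →L[𝕜] Y,
      B.nrm S ≤ ENNReal.ofReal (1 + ε) * B.nrm T ∧
      (∀ x : E, ∀ y' ∈ F, y' (S x) = T x y') ∧
      (∀ x : E, T x ∈ Set.range (inclusionInDoubleDual 𝕜 Y) →
        inclusionInDoubleDual 𝕜 Y (S x) = T x)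

/-- Rademacher cotype 2: there is a constant `C` with
`∑ ‖x_i‖² ≤ C² 𝔼 ‖∑ ε_i x_i‖²` for all finite families, the expectation being the average
over all choices of signs. -/
def HasCotypeTwo (X : Type) [NormedAddCommGroup X] : Prop :=
  ∃ C : ℝ, ∀ (n : ℕ) (x : Fin n → X),
    ∑ i, ‖x i‖ ^ 2 ≤ C ^ 2 * ((∑ s : Fin n → ℤˣ, ‖∑ i, (s i : ℤ) • x i‖ ^ 2) / 2 ^ n)

end Pool.Agent.H47.OpIdeal
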