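import Pool.Agent.H47.OpIdeal.Linf
import Pool.Agent.H47.OpIdeal.Access

/-!
# Integral-type factorisation through `ℓ_∞(K)`
-/

set_option autoImplicit false

open scoped ENNReal Topology
open Filter NormedSpace MeasureTheory

namespace Pool.Agent.H47.OpIdeal

variable {𝕜 : Type} [RCLike 𝕜]

/-- operators of the form `∑ ξ_i ⊗ y_i` -/
def FR (𝕜 : Type) [RCLike 𝕜] (X Y : Type) [NormedAddCommGroup X] [NormedSpace 𝕜 X]
    [NormedAddCommGroup Y] [NormedSpace 𝕜 Y] : Submodule 𝕜 (X →L[𝕜] Y) :=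
  Submodule.span 𝕜 {V | ∃ (ξ : StrongDual 𝕜 X) (y : Y), V = ξ.smulRight y}

section lpK

/-- bounded functions on `K` -/
def LI (𝕜 : Type) [RCLike 𝕜] (K : Type) : Type := lp (fun _ : K => 𝕜) ∞

noncomputable instance (K : Type) : NormedAddCommGroup (LI 𝕜 K) :=
  inferInstanceAs (NormedAddCommGroup (lp (fun _ : K => 𝕜) ∞))

noncomputable instance (K : Type) : NormedSpace 𝕜 (LI 𝕜 K) :=
  inferInstanceAs (NormedSpace 𝕜 (lp (fun _ : K => 𝕜) ∞))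

instance (K : Type) : CompleteSpace (LI 𝕜 K) :=
  inferInstanceAs (CompleteSpace (lp (fun _ : K => 𝕜) ∞))

variable {K : Type}

/-- values -/
def LI.val (f : LI 𝕜 K) (k : K) : 𝕜 := (show lp (fun _ : K => 𝕜) ∞ from f) k

/-- bounded functions as elements of `ℓ_∞(K)` -/
def LI.mk (φ : K → 𝕜) (C : ℝ) (h : ∀ k, ‖φ k‖ ≤ C) : LI 𝕜 K :=
  (⟨φ, memℓp_infty ⟨C, by rintro _ ⟨k, rfl⟩; exact h k⟩⟩ : lp (fun _ : K => 𝕜) ∞)

lemma LI.val_mk (φ : K → 𝕜) (C : ℝ) (h : ∀ k, ‖φ k‖ ≤ C) (k : K) :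
    (LI.mk φ C h).val k = φ k := rfl

lemma LI.ext {f g : LI 𝕜 K} (h : ∀ k, f.val k = g.val k) : f = g :=
  lp.ext (funext h)

lemma LI.norm_le {f : LI 𝕜 K} {C : ℝ} (hC : 0 ≤ C) (h : ∀ k, ‖f.val k‖ ≤ C) : ‖f‖ ≤ C :=
  lp.norm_le_of_forall_le (f := (show lp (fun _ : K => 𝕜) ∞ from f)) hC h

lemma LI.norm_mk_le (φ : K → 𝕜) (C : ℝ) (hC : 0 ≤ C) (h : ∀ k, ‖φ k‖ ≤ C) :
    ‖LI.mk φ C h‖ ≤ C := LI.norm_le hC h

lemma LI.norm_val_le (f : LI 𝕜 K) (k : K) : ‖f.val k‖ ≤ ‖f‖ :=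
  lp.norm_apply_le_norm ENNReal.top_ne_zero (show lp (fun _ : K => 𝕜) ∞ from f) k

lemma LI.val_add (f g : LI 𝕜 K) (k : K) : (f + g).val k = f.val k + g.val k := rfl

lemma LI.val_sub (f g : LI 𝕜 K) (k : K) : (f - g).val k = f.val k - g.val k := rfl

lemma LI.val_smul (c : 𝕜) (f : LI 𝕜 K) (k : K) : (c • f).val k = c * f.val k := rfl

lemma LI.val_zero (k : K) : (0 : LI 𝕜 K).val k = 0 := rfl

lemma LI.val_sum {ι : Type} (s : Finset ι) (f : ι → LI 𝕜 K) (k : K) :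
    (∑ i ∈ s, f i).val k = ∑ i ∈ s, (f i).val k := by
  classical
  induction s using Finset.induction_on with
  | empty => simp only [Finset.sum_empty]; exact LI.val_zero k
  | insert a s ha ih => rw [Finset.sum_insert ha, Finset.sum_insert ha, LI.val_add, ih]

/-- multiplication of bounded functions -/
noncomputable def LI.mul (f g : LI 𝕜 K) : LI 𝕜 K :=
  LI.mk (fun k => f.val k * g.val k) (‖f‖ * ‖g‖) fun k => by
    rw [norm_mul]
    exact mul_le_mul (f.norm_val_le k) (g.norm_val_le k) (norm_nonneg _) (norm_nonneg _)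

lemma LI.val_mul (f g : LI 𝕜 K) (k : K) : (f.mul g).val k = f.val k * g.val k := rfl

lemma LI.norm_mul_le (f g : LI 𝕜 K) : ‖f.mul g‖ ≤ ‖f‖ * ‖g‖ :=
  LI.norm_mk_le _ _ (by positivity) _

/-- evaluations -/
noncomputable def LI.ev (𝕜 : Type) [RCLike 𝕜] {K : Type} (k : K) : StrongDual 𝕜 (LI 𝕜 K) :=
  LinearMap.mkContinuous
    { toFun := fun f => f.val k
      map_add' := fun f g => LI.val_add f g k
      map_smul' := fun c f => LI.val_smul c f k } 1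
    (fun f => by rw [one_mul]; exact f.norm_val_le k)

lemma LI.norm_ev_le (k : K) : ‖LI.ev 𝕜 k‖ ≤ 1 := LinearMap.mkContinuous_norm_le _ zero_le_one _

lemma LI.ev_apply (k : K) (f : LI 𝕜 K) : LI.ev 𝕜 k f = f.val k := rfl

/-- the space `L_∞` of the counting measure -/
abbrev LCount (𝕜 : Type) [RCLike 𝕜] (K : Type) : Type := @Lp K 𝕜 ⊤ _ ∞ (@Measure.count K ⊤)

lemma memLp_count (f : LI 𝕜 K) :
    @MemLp K 𝕜 ⊤ _ _ (fun k => f.val k) ∞ (@Measure.count K ⊤) := by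
  let _ : MeasurableSpace K := ⊤
  exact memLp_top_of_bound (measurable_from_top.aestronglyMeasurable) ‖f‖
      (Eventually.of_forall fun k => f.norm_val_le k)

lemma count_apply_le (g : LCount 𝕜 K) (k : K) : ‖g k‖ ≤ ‖g‖ := by
  let _ : MeasurableSpace K := ⊤
  exact Measure.ae_count_iff.1 (ae_norm_le g) k

/-- `ℓ_∞(K)` into `L_∞` of the counting measure -/
noncomputable def toCount (𝕜 : Type) [RCLike 𝕜] (K : Type) : LI 𝕜 K →L[𝕜] LCount 𝕜 K :=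
  letI : MeasurableSpace K := ⊤
  LinearMap.mkContinuous
    { toFun := fun f => (memLp_count f).toLp
      map_add' := fun f g => MemLp.toLp_add (memLp_count f) (memLp_count g)
      map_smul' := fun c f => MemLp.toLp_const_smul c (memLp_count f) } 1
    (fun f => by
      rw [one_mul]
      refine norm_le_of_ae _ _ (norm_nonneg _) ?_
      filter_upwards [MemLp.coeFn_toLp (memLp_count f)] with k hk
      exact (le_of_eq (congrArg norm hk)).trans (f.norm_val_le k))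

lemma norm_toCount_le : ‖toCount 𝕜 K‖ ≤ 1 := LinearMap.mkContinuous_norm_le _ zero_le_one _

/-- back from `L_∞` of the counting measure to `ℓ_∞(K)` -/
noncomputable def ofCount (𝕜 : Type) [RCLike 𝕜] (K : Type) : LCount 𝕜 K →L[𝕜] LI 𝕜 K :=
  letI : MeasurableSpace K := ⊤
  LinearMap.mkContinuous
    { toFun := fun g => LI.mk (fun k => g k) ‖g‖ (count_apply_le g)
      map_add' := fun f g => LI.ext fun k => Measure.ae_count_iff.1 (Lp.coeFn_add f g) k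
      map_smul' := fun c f => LI.ext fun k => Measure.ae_count_iff.1 (Lp.coeFn_smul c f) k } 1
    (fun g => by
      rw [one_mul]
      exact LI.norm_mk_le (fun k => g k) ‖g‖ (norm_nonneg _) (count_apply_le g))

lemma norm_ofCount_le : ‖ofCount 𝕜 K‖ ≤ 1 := LinearMap.mkContinuous_norm_le _ zero_le_one _

lemma ofCount_toCount (f : LI 𝕜 K) : ofCount 𝕜 K (toCount 𝕜 K f) = f := by
  let _ : MeasurableSpace K := ⊤
  exact LI.ext fun k => Measure.ae_count_iff.1 (MemLp.coeFn_toLp (memLp_count f)) k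

set_option maxSynthPendingDepth 3 in
/-- operators into a space `1`-complemented in some `L_∞(μ)` are in `𝔏_∞` -/
lemma linftyNrm_le_of_factor {Y L : Type} [NormedAddCommGroup Y] [NormedSpace 𝕜 Y]
    [CompleteSpace Y] [NormedAddCommGroup L] [NormedSpace 𝕜 L] [CompleteSpace L] {Ω : Type}
    [MeasurableSpace Ω] {μ : Measure Ω} (p : L →L[𝕜] Lp 𝕜 ∞ μ) (q : Lp 𝕜 ∞ μ →L[𝕜] L)
    (hp : ‖p‖ ≤ 1) (hq : ‖q‖ ≤ 1) (hqp : ∀ f, q (p f) = f) (R : Y →L[𝕜] L) (hR : ‖R‖ ≤ 1) :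
    linftyNrm R ≤ 1 := by
  have h1 : ‖p ∘L R‖ ≤ 1 :=
    (ContinuousLinearMap.opNorm_comp_le _ _).trans
      (mul_le_one₀ hp (norm_nonneg _) hR)
  have h2 : ‖inclusionInDoubleDual 𝕜 L ∘L q‖ ≤ 1 :=
    (ContinuousLinearMap.opNorm_comp_le _ _).trans
      (mul_le_one₀ (inclusionInDoubleDual_norm_le 𝕜 _) (norm_nonneg _) hq)
  have h3 : inclusionInDoubleDual 𝕜 L ∘L R = (inclusionInDoubleDual 𝕜 L ∘L q) ∘L (p ∘L R) := by
    refine ContinuousLinearMap.ext fun y => ?_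
    show inclusionInDoubleDual 𝕜 L (R y) = inclusionInDoubleDual 𝕜 L (q (p (R y)))
    rw [hqp]
  unfold linftyNrm
  refine iInf_le_of_le Ω <| iInf_le_of_le inferInstance <| iInf_le_of_le μ <|
    iInf_le_of_le (p ∘L R) <| iInf_le_of_le (inclusionInDoubleDual 𝕜 L ∘L q) <|
      iInf_le_of_le h3 ?_
  calc _ ≤ (1 : ℝ≥0∞) * 1 := by
        gcongr
        · exact enorm_le_one_of_norm_le h2
        · exact enorm_le_one_of_norm_le h1
    _ = 1 := one_mul _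

/-- operators into `ℓ_∞(K)` are in `𝔏_∞` -/
lemma linftyNrm_lp_le {Y : Type} [NormedAddCommGroup Y] [NormedSpace 𝕜 Y] [CompleteSpace Y]
    (R : Y →L[𝕜] LI 𝕜 K) (hR : ‖R‖ ≤ 1) : linftyNrm R ≤ 1 :=
  letI : MeasurableSpace K := ⊤
  linftyNrm_le_of_factor (μ := Measure.count) (toCount 𝕜 K) (ofCount 𝕜 K) norm_toCount_le
    norm_ofCount_le ofCount_toCount R hR

end lpK

section abstract_net

set_option maxSynthPendingDepth 3 in
/-- a finite net for a bounded family of functionals on a finite-dimensional space -/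
lemma exists_net_family {K M : Type} [NormedAddCommGroup M] [NormedSpace 𝕜 M]
    [FiniteDimensional 𝕜 M] (e : K → StrongDual 𝕜 M) (he : ∀ p, ‖e p‖ ≤ 1) (η : ℝ)
    (hη : 0 < η) : ∃ (m : ℕ) (g : Fin m → StrongDual 𝕜 M) (i : K → Fin m),
      (∀ j, ‖g j‖ ≤ 1) ∧ ∀ p, ‖e p - g (i p)‖ ≤ η := by
  have hpr : ProperSpace (StrongDual 𝕜 M) := FiniteDimensional.proper_rclike 𝕜 _
  obtain ⟨t, hts, htf, htc⟩ := finite_cover_balls_of_compact
    (isCompact_closedBall (0 : StrongDual 𝕜 M) 1) hη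
  obtain ⟨m, g, hg⟩ := htf.fin_embedding
  have hrange : Set.range g = t := hg
  have hg1 : ∀ j, ‖g j‖ ≤ 1 := fun j => by
    have : g j ∈ t := hrange ▸ Set.mem_range_self j
    simpa using hts this
  have hj : ∀ p : K, ∃ j, ‖e p - g j‖ < η := by
    intro p
    have h1 : e p ∈ Metric.closedBall (0 : StrongDual 𝕜 M) 1 := by simpa using he p
    have h2 := htc h1
    simp only [Set.mem_iUnion, Metric.mem_ball] at h2
    obtain ⟨y, hy, hy2⟩ := h2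
    rw [← hrange] at hy
    obtain ⟨j, rfl⟩ := hy
    exact ⟨j, by rwa [dist_eq_norm] at hy2⟩
  choose i hi using hj
  exact ⟨m, g, i, hg1, fun p => (hi p).le⟩

set_option maxSynthPendingDepth 3 in
/-- an upper bound for the ideal norm of a restriction by approximation with nets -/
lemma nrm_restrict_le_of_net {L Z : Type} [NormedAddCommGroup L] [NormedSpace 𝕜 L]
    [CompleteSpace L] [NormedAddCommGroup Z] [NormedSpace 𝕜 Z] [CompleteSpace Z]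
    (B : BanachIdeal 𝕜) (A : L →L[𝕜] Z) (κ : ℝ) (M : Submodule 𝕜 L)
    [FiniteDimensional 𝕜 M] [CompleteSpace M]
    (h : ∀ η : ℝ, 0 < η → ∃ (m : ℕ) (g : Fin m → StrongDual 𝕜 M) (ind : Fin m → L),
      (∀ j, ‖g j‖ ≤ 1) ∧ (∀ f : M, ‖(f : L) - ∑ j, g j f • ind j‖ ≤ η * ‖f‖) ∧
      ∑ j, ‖A (ind j)‖ ≤ κ) : B.nrm (A ∘L M.subtypeL) ≤ ENNReal.ofReal κ := by
  classical
  obtain ⟨c, hc0, hc⟩ := BanachIdeal.exists_finDim_const (𝕜 := 𝕜) M
  refine ENNReal.le_of_forall_pos_le_add fun δ hδ _ => ?_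
  have hδ' : (0 : ℝ) < δ := hδ
  have hcA : 0 ≤ c * ‖A‖ := mul_nonneg hc0 (norm_nonneg A)
  set η : ℝ := δ / (c * ‖A‖ + 1) with hη
  have hη0 : 0 < η := by positivity
  obtain ⟨m, g, ind, hg1, hdiff0, hsum⟩ := h η hη0
  set u : M →L[𝕜] L := ∑ j, (g j).smulRight (ind j) with hu
  have hdiff : ‖M.subtypeL - u‖ ≤ η := by
    refine ContinuousLinearMap.opNorm_le_bound _ hη0.le fun f => ?_
    have h1 : (M.subtypeL - u) f = (f : L) - ∑ j, g j f • ind j := by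
      rw [_root_.sub_apply, hu, _root_.sum_apply]
      rfl
    rw [h1]
    exact hdiff0 f
  have hsplit : A ∘L M.subtypeL = ∑ j, (g j).smulRight (A (ind j)) +
      A ∘L (M.subtypeL - u) := by
    have h1 : A ∘L u = ∑ j, (g j).smulRight (A (ind j)) := by
      refine ContinuousLinearMap.ext fun f => ?_
      rw [ContinuousLinearMap.comp_apply, hu, _root_.sum_apply, _root_.sum_apply, map_sum]
      refine Finset.sum_congr rfl fun j _ => ?_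
      rw [ContinuousLinearMap.smulRight_apply, ContinuousLinearMap.smulRight_apply, map_smul]
    rw [← h1, ContinuousLinearMap.comp_sub]
    abel
  rw [hsplit]
  have hfirst : B.nrm (∑ j, (g j).smulRight (A (ind j))) ≤ ENNReal.ofReal κ := by
    refine (B.nrm_sum_le _ _).trans ?_
    calc ∑ j, B.nrm ((g j).smulRight (A (ind j)))
        ≤ ∑ j, ENNReal.ofReal ‖A (ind j)‖ := by
          refine Finset.sum_le_sum fun j _ => ?_
          refine (B.nrm_smulRight_le _ _).trans ?_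
          calc ‖g j‖ₑ * ‖A (ind j)‖ₑ ≤ 1 * ‖A (ind j)‖ₑ := by
                gcongr; exact enorm_le_one_of_norm_le (hg1 j)
            _ = ENNReal.ofReal ‖A (ind j)‖ := by rw [one_mul, ofReal_norm]
      _ = ENNReal.ofReal (∑ j, ‖A (ind j)‖) :=
          (ENNReal.ofReal_sum_of_nonneg fun j _ => norm_nonneg _).symm
      _ ≤ ENNReal.ofReal κ := ENNReal.ofReal_le_ofReal hsum
  have hsecond : B.nrm (A ∘L (M.subtypeL - u)) ≤ δ := by
    refine (hc B _ _).trans ?_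
    rw [← ENNReal.ofReal_coe_nnreal]
    refine ENNReal.ofReal_le_ofReal ?_
    calc c * ‖A ∘L (M.subtypeL - u)‖ ≤ c * (‖A‖ * η) := by
          refine mul_le_mul_of_nonneg_left ?_ hc0
          exact (ContinuousLinearMap.opNorm_comp_le _ _).trans
            (mul_le_mul_of_nonneg_left hdiff (norm_nonneg _))
      _ = (c * ‖A‖) * (δ / (c * ‖A‖ + 1)) := by rw [hη]; ring
      _ ≤ δ := mul_div_succ_le hcA hδ'.le
  exact (B.nrm_add_le _ _).trans (add_le_add hfirst hsecond)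

set_option maxSynthPendingDepth 3 in
/-- for a maximal ideal it is enough to bound restrictions to finite-dimensional subspaces -/
lemma nrm_le_of_restrict {L Z : Type} [NormedAddCommGroup L] [NormedSpace 𝕜 L]
    [CompleteSpace L] [NormedAddCommGroup Z] [NormedSpace 𝕜 Z] [CompleteSpace Z]
    (B : BanachIdeal 𝕜) (hB : B.IsMaximal) (A : L →L[𝕜] Z) (κ : ℝ)
    (h : ∀ (M : Submodule 𝕜 L) (_ : FiniteDimensional 𝕜 M) (_ : CompleteSpace M),
      B.nrm (A ∘L M.subtypeL) ≤ ENNReal.ofReal κ) : B.nrm A ≤ ENNReal.ofReal κ := by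
  rw [hB]
  refine iSup_le fun M => iSup_le fun hM => iSup_le fun hM2 => iSup_le fun N => iSup_le fun hL =>
    iSup_le fun hL2 => ?_
  have hq : ‖N.mkQL‖ₑ ≤ 1 := by
    refine enorm_le_one_of_norm_le (ContinuousLinearMap.opNorm_le_bound _ zero_le_one fun x => ?_)
    rw [one_mul]
    exact Submodule.Quotient.norm_mk_le N x
  calc B.nrm (N.mkQL ∘L A ∘L M.subtypeL) ≤ ‖N.mkQL‖ₑ * B.nrm (A ∘L M.subtypeL) :=
        B.nrm_comp_left_le _ _
    _ ≤ 1 * ENNReal.ofReal κ := by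
        gcongr
        exact h M hM hM2
    _ = ENNReal.ofReal κ := one_mul _

end abstract_net

section factor

variable {X Y : Type} [NormedAddCommGroup X] [NormedSpace 𝕜 X]
  [NormedAddCommGroup Y] [NormedSpace 𝕜 Y]

/-- the product of the unit balls of `X` and `Y'` -/
abbrev KK (𝕜 : Type) [RCLike 𝕜] (X Y : Type) [NormedAddCommGroup X] [NormedSpace 𝕜 X]
    [NormedAddCommGroup Y] [NormedSpace 𝕜 Y] : Type :=
  {p : X × StrongDual 𝕜 Y // ‖p.1‖ ≤ 1 ∧ ‖p.2‖ ≤ 1}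

lemma eOp_bound (x' : StrongDual 𝕜 X) (p : KK 𝕜 X Y) : ‖x' p.1.1‖ ≤ ‖x'‖ :=
  (x'.le_opNorm _).trans (by
    calc ‖x'‖ * ‖p.1.1‖ ≤ ‖x'‖ * 1 := by gcongr; exact p.2.1
      _ = ‖x'‖ := mul_one _)

/-- `x' ↦ ((x, y') ↦ x'(x))` -/
noncomputable def eOp (𝕜 : Type) [RCLike 𝕜] (X Y : Type) [NormedAddCommGroup X]
    [NormedSpace 𝕜 X] [NormedAddCommGroup Y] [NormedSpace 𝕜 Y] :
    StrongDual 𝕜 X →L[𝕜] LI 𝕜 (KK 𝕜 X Y) :=
  LinearMap.mkContinuous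
    { toFun := fun x' => LI.mk (fun p : KK 𝕜 X Y => x' p.1.1) ‖x'‖ (eOp_bound x')
      map_add' := fun _ _ => rfl
      map_smul' := fun _ _ => rfl } 1
    (fun x' => by
      rw [one_mul]
      exact LI.norm_mk_le (fun p : KK 𝕜 X Y => x' p.1.1) ‖x'‖ (norm_nonneg _) (eOp_bound x'))

lemma norm_eOp_le : ‖eOp 𝕜 X Y‖ ≤ 1 := LinearMap.mkContinuous_norm_le _ zero_le_one _

lemma eOp_val (x' : StrongDual 𝕜 X) (p : KK 𝕜 X Y) : (eOp 𝕜 X Y x').val p = x' p.1.1 := rfl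

lemma norm_eOp_apply_le (x' : StrongDual 𝕜 X) : ‖eOp 𝕜 X Y x'‖ ≤ ‖x'‖ :=
  LI.norm_mk_le (fun p : KK 𝕜 X Y => x' p.1.1) ‖x'‖ (norm_nonneg _) (eOp_bound x')

lemma rOp_bound (y : Y) (p : KK 𝕜 X Y) : ‖p.1.2 y‖ ≤ ‖y‖ :=
  (p.1.2.le_opNorm _).trans (by
    calc ‖p.1.2‖ * ‖y‖ ≤ 1 * ‖y‖ := by gcongr; exact p.2.2
      _ = ‖y‖ := one_mul _)

/-- `y ↦ ((x, y') ↦ y'(y))` -/
noncomputable def rOp (𝕜 : Type) [RCLike 𝕜] (X Y : Type) [NormedAddCommGroup X]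
    [NormedSpace 𝕜 X] [NormedAddCommGroup Y] [NormedSpace 𝕜 Y] :
    Y →L[𝕜] LI 𝕜 (KK 𝕜 X Y) :=
  LinearMap.mkContinuous
    { toFun := fun y => LI.mk (fun p : KK 𝕜 X Y => p.1.2 y) ‖y‖ (rOp_bound y)
      map_add' := fun y z => LI.ext fun p => map_add p.1.2 y z
      map_smul' := fun c y => LI.ext fun p => map_smul p.1.2 c y } 1
    (fun y => by
      rw [one_mul]
      exact LI.norm_mk_le (fun p : KK 𝕜 X Y => p.1.2 y) ‖y‖ (norm_nonneg _) (rOp_bound y))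

lemma norm_rOp_le : ‖rOp 𝕜 X Y‖ ≤ 1 := LinearMap.mkContinuous_norm_le _ zero_le_one _

lemma phiOp_bound (V : X →L[𝕜] Y) (p : KK 𝕜 X Y) : ‖p.1.2 (V p.1.1)‖ ≤ ‖V‖ :=
  (p.1.2.le_opNorm _).trans (by
    calc ‖p.1.2‖ * ‖V p.1.1‖ ≤ 1 * (‖V‖ * ‖p.1.1‖) := by
          gcongr
          · exact p.2.2
          · exact V.le_opNorm _
      _ ≤ 1 * (‖V‖ * 1) := by gcongr; exact p.2.1
      _ = ‖V‖ := by ring)

/-- `V ↦ ((x, y') ↦ y'(V x))` -/
noncomputable def phiOp (𝕜 : Type) [RCLike 𝕜] (X Y : Type) [NormedAddCommGroup X]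
    [NormedSpace 𝕜 X] [NormedAddCommGroup Y] [NormedSpace 𝕜 Y] :
    (X →L[𝕜] Y) →ₗ[𝕜] LI 𝕜 (KK 𝕜 X Y) where
  toFun := fun V => LI.mk (fun p => p.1.2 (V p.1.1)) ‖V‖ (phiOp_bound V)
  map_add' := fun V W => LI.ext fun p => map_add p.1.2 (V p.1.1) (W p.1.1)
  map_smul' := fun c V => LI.ext fun p => map_smul p.1.2 c (V p.1.1)

lemma phiOp_val (V : X →L[𝕜] Y) (p : KK 𝕜 X Y) : (phiOp 𝕜 X Y V).val p = p.1.2 (V p.1.1) := rfl

lemma norm_le_phiOp (V : X →L[𝕜] Y) : ‖V‖ ≤ ‖phiOp 𝕜 X Y V‖ := by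
  refine V.opNorm_le_bound (norm_nonneg _) fun x => ?_
  by_cases hx : x = 0
  · subst hx; simp
  have hxn : ‖x‖ ≠ 0 := norm_ne_zero_iff.2 hx
  obtain ⟨g, hg1, hg2⟩ := exists_dual_vector'' 𝕜 (V x)
  let p : KK 𝕜 X Y := ⟨((((‖x‖⁻¹ : ℝ) : 𝕜) • x), g), by
    rw [norm_smul, RCLike.norm_ofReal, abs_of_nonneg (by positivity), inv_mul_cancel₀ hxn], hg1⟩
  have h1 := (phiOp 𝕜 X Y V).norm_val_le p
  have h2 : (phiOp 𝕜 X Y V).val p = ((‖x‖⁻¹ : ℝ) : 𝕜) * (‖V x‖ : 𝕜) := by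
    show g (V (((‖x‖⁻¹ : ℝ) : 𝕜) • x)) = _
    rw [map_smul, map_smul, hg2, smul_eq_mul]
  rw [h2, norm_mul, RCLike.norm_ofReal, RCLike.norm_ofReal, abs_norm,
    abs_of_nonneg (by positivity), inv_mul_le_iff₀ (norm_pos_iff.2 hx)] at h1
  linarith

lemma aOp_bound (Ξ : StrongDual 𝕜 (LI 𝕜 (KK 𝕜 X Y))) (f : LI 𝕜 (KK 𝕜 X Y))
    (x' : StrongDual 𝕜 X) : ‖Ξ (f.mul (eOp 𝕜 X Y x'))‖ ≤ ‖Ξ‖ * ‖f‖ * ‖x'‖ := by
  calc ‖Ξ (f.mul (eOp 𝕜 X Y x'))‖ ≤ ‖Ξ‖ * ‖f.mul (eOp 𝕜 X Y x')‖ := Ξ.le_opNorm _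
    _ ≤ ‖Ξ‖ * (‖f‖ * ‖x'‖) := mul_le_mul_of_nonneg_left
        ((f.norm_mul_le _).trans (mul_le_mul_of_nonneg_left (norm_eOp_apply_le x')
          (norm_nonneg f))) (norm_nonneg Ξ)
    _ = ‖Ξ‖ * ‖f‖ * ‖x'‖ := by ring

/-- the operator `A_Ξ : ℓ_∞(K) → X''`, `⟨A f, x'⟩ = Ξ(f · e(x'))` -/
noncomputable def aOp (Ξ : StrongDual 𝕜 (LI 𝕜 (KK 𝕜 X Y))) :
    LI 𝕜 (KK 𝕜 X Y) →L[𝕜] StrongDual 𝕜 (StrongDual 𝕜 X) :=
  LinearMap.mkContinuous₂ (LinearMap.mk₂ 𝕜 (fun f x' => Ξ (f.mul (eOp 𝕜 X Y x')))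
    (fun f g x' => by
      rw [← Ξ.map_add]; congr 1
      exact LI.ext fun k => add_mul _ _ _)
    (fun c f x' => by
      rw [← Ξ.map_smul]; congr 1
      exact LI.ext fun k => mul_assoc _ _ _)
    (fun f x' y' => by
      rw [← Ξ.map_add]; congr 1
      exact LI.ext fun k => mul_add _ _ _)
    (fun c f x' => by
      rw [← Ξ.map_smul]; congr 1
      exact LI.ext fun k => mul_left_comm _ _ _)) ‖Ξ‖ (aOp_bound Ξ)

lemma aOp_apply (Ξ : StrongDual 𝕜 (LI 𝕜 (KK 𝕜 X Y))) (f : LI 𝕜 (KK 𝕜 X Y))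
    (x' : StrongDual 𝕜 X) : aOp Ξ f x' = Ξ (f.mul (eOp 𝕜 X Y x')) := rfl

/-- indicator functions -/
def LI.ind (𝕜 : Type) [RCLike 𝕜] {K : Type} {m : ℕ} (i : K → Fin m) (j : Fin m) : LI 𝕜 K :=
  LI.mk (fun p => if i p = j then (1 : 𝕜) else 0) 1 (fun p => by split_ifs <;> simp)

lemma LI.ind_val {K : Type} {m : ℕ} (i : K → Fin m) (j : Fin m) (p : K) :
    (LI.ind 𝕜 i j).val p = if i p = j then (1 : 𝕜) else 0 := rfl

/-- the variation estimate -/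
lemma sum_norm_aOp_le (Ξ : StrongDual 𝕜 (LI 𝕜 (KK 𝕜 X Y))) {m : ℕ}
    (i : KK 𝕜 X Y → Fin m) : ∑ j, ‖aOp Ξ (LI.ind 𝕜 i j)‖ ≤ ‖Ξ‖ := by
  classical
  refine le_of_forall_pos_le_add fun η hη => ?_
  choose x' hx1 t hx2 hx3 using fun j =>
    exists_norming (𝕜 := 𝕜) (aOp Ξ (LI.ind 𝕜 i j)) (η / (m + 1)) (by positivity)
  set F : LI 𝕜 (KK 𝕜 X Y) := ∑ j, (LI.ind 𝕜 i j).mul (eOp 𝕜 X Y (x' j)) with hF
  have hFn : ‖F‖ ≤ 1 := by
    refine LI.norm_le zero_le_one fun p => ?_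
    have h1 : F.val p = x' (i p) p.1.1 := by
      rw [hF, LI.val_sum]
      simp only [LI.val_mul, LI.ind_val, eOp_val, ite_mul, one_mul, zero_mul,
        Finset.sum_ite_eq, Finset.mem_univ, if_true]
    rw [h1]
    calc ‖x' (i p) p.1.1‖ ≤ ‖x' (i p)‖ * ‖p.1.1‖ := (x' (i p)).le_opNorm _
      _ ≤ 1 * 1 := mul_le_mul (hx1 _) p.2.1 (norm_nonneg _) zero_le_one
      _ = 1 := one_mul _
  have h2 : Ξ F = ((∑ j, t j : ℝ) : 𝕜) := by
    rw [hF, map_sum, RCLike.ofReal_sum]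
    exact Finset.sum_congr rfl fun j _ => hx2 j
  have h3 : ∑ j, t j ≤ ‖Ξ‖ := by
    calc ∑ j, t j ≤ |∑ j, t j| := le_abs_self _
      _ = ‖Ξ F‖ := by rw [h2, RCLike.norm_ofReal]
      _ ≤ ‖Ξ‖ * ‖F‖ := Ξ.le_opNorm _
      _ ≤ ‖Ξ‖ * 1 := mul_le_mul_of_nonneg_left hFn (norm_nonneg _)
      _ = ‖Ξ‖ := mul_one _
  calc ∑ j, ‖aOp Ξ (LI.ind 𝕜 i j)‖ ≤ ∑ j, (t j + η / (m + 1)) :=
        Finset.sum_le_sum fun j _ => by linarith [hx3 j]
    _ = ∑ j, t j + m * (η / (m + 1)) := by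
      rw [Finset.sum_add_distrib, Finset.sum_const, Finset.card_univ, Fintype.card_fin,
        nsmul_eq_mul]
    _ ≤ ‖Ξ‖ + η := add_le_add h3 (mul_div_succ_le (Nat.cast_nonneg m) hη.le)

set_option maxSynthPendingDepth 3 in
/-- finite nets for the evaluations -/
lemma exists_net_ind {K : Type} (M : Submodule 𝕜 (LI 𝕜 K))
    [FiniteDimensional 𝕜 M] (η : ℝ) (hη : 0 < η) :
    ∃ (m : ℕ) (g : Fin m → StrongDual 𝕜 M) (i : K → Fin m), (∀ j, ‖g j‖ ≤ 1) ∧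
      ∀ f : M, ‖(f : LI 𝕜 K) - ∑ j, g j f • LI.ind 𝕜 i j‖ ≤ η * ‖f‖ := by
  classical
  let e : K → StrongDual 𝕜 M := fun p => (LI.ev 𝕜 p) ∘L M.subtypeL
  have he1 : ∀ p, ‖e p‖ ≤ 1 := fun p => ContinuousLinearMap.opNorm_le_bound _ zero_le_one
    fun f => by rw [one_mul]; exact (f : LI 𝕜 K).norm_val_le p
  have he2 : ∀ (p : K) (f : M), e p f = (f : LI 𝕜 K).val p := fun p f => rfl
  obtain ⟨m, g, i, hg1, hi⟩ := exists_net_family e he1 η hη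
  refine ⟨m, g, i, hg1, fun f => ?_⟩
  refine LI.norm_le (by positivity) fun p => ?_
  have h1 : ((f : LI 𝕜 K) - ∑ j, g j f • LI.ind 𝕜 i j).val p = (e p - g (i p)) f := by
    rw [LI.val_sub, LI.val_sum, _root_.sub_apply, he2]
    simp only [LI.val_smul, LI.ind_val, mul_ite, mul_one, mul_zero,
        Finset.sum_ite_eq, Finset.mem_univ, if_true]
  rw [h1]
  exact ((e p - g (i p)).le_opNorm f).trans
    (mul_le_mul_of_nonneg_right (hi p) (norm_nonneg _))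

set_option maxSynthPendingDepth 3 in
/-- the ideal norm of `A_Ξ` for a maximal ideal -/
lemma nrm_aOp_le (B : BanachIdeal 𝕜) (hB : B.IsMaximal)
    (Ξ : StrongDual 𝕜 (LI 𝕜 (KK 𝕜 X Y))) : B.nrm (aOp Ξ) ≤ ENNReal.ofReal ‖Ξ‖ := by
  refine nrm_le_of_restrict B hB (aOp Ξ) ‖Ξ‖ fun M hM hM2 => ?_
  refine nrm_restrict_le_of_net B (aOp Ξ) ‖Ξ‖ M fun η hη => ?_
  obtain ⟨m, g, i, h1, h2⟩ := exists_net_ind M η hη
  exact ⟨m, g, LI.ind 𝕜 i, h1, h2, sum_norm_aOp_le Ξ i⟩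

set_option maxSynthPendingDepth 3 in
/-- integral bilinear forms give operators in `𝔅 ∘ 𝔏_∞` -/
theorem compLinftyNrm_le_of_integral [CompleteSpace X] [CompleteSpace Y] (B : BanachIdeal 𝕜)
    (hB : B.IsMaximal) {m : ℕ}
    (x : Fin m → X) (y' : Fin m → StrongDual 𝕜 Y) (κ : ℝ) (hκ : 0 ≤ κ)
    (h : ∀ V ∈ FR 𝕜 X Y, ‖∑ i, y' i (V (x i))‖ ≤ κ * ‖V‖) :
    B.compLinftyNrm (inclusionInDoubleDual 𝕜 X ∘L ∑ i, (y' i).smulRight (x i)) ≤
      ENNReal.ofReal κ := by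
  classical
  let f : FR 𝕜 X Y →ₗ[𝕜] 𝕜 :=
    { toFun := fun V => ∑ i, y' i ((V : X →L[𝕜] Y) (x i))
      map_add' := fun V W => by simp [Finset.sum_add_distrib]
      map_smul' := fun c V => by simp [Finset.mul_sum] }
  obtain ⟨Ξ, hΞ1, hΞ2⟩ := extend_through ((phiOp 𝕜 X Y) ∘ₗ (FR 𝕜 X Y).subtype) f κ hκ
    (fun V => (h V V.2).trans (mul_le_mul_of_nonneg_left (norm_le_phiOp _) hκ))
  have hfac : inclusionInDoubleDual 𝕜 X ∘L ∑ i, (y' i).smulRight (x i) =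
      aOp Ξ ∘L rOp 𝕜 X Y := by
    refine ContinuousLinearMap.ext fun y => ContinuousLinearMap.ext fun x' => ?_
    have h1 : (inclusionInDoubleDual 𝕜 X ∘L ∑ i, (y' i).smulRight (x i)) y x' =
        ∑ i, y' i y * x' (x i) := by
      show x' ((∑ i, (y' i).smulRight (x i)) y) = _
      rw [_root_.sum_apply, map_sum]
      refine Finset.sum_congr rfl fun i _ => ?_
      rw [ContinuousLinearMap.smulRight_apply, map_smul, smul_eq_mul]
    have hV : x'.smulRight y ∈ FR 𝕜 X Y := Submodule.subset_span ⟨x', y, rfl⟩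
    have h2 := hΞ2 ⟨x'.smulRight y, hV⟩
    have h3 : f ⟨x'.smulRight y, hV⟩ = ∑ i, y' i y * x' (x i) := by
      show ∑ i, y' i ((x'.smulRight y) (x i)) = _
      refine Finset.sum_congr rfl fun i _ => ?_
      rw [ContinuousLinearMap.smulRight_apply, map_smul, smul_eq_mul, mul_comm]
    rw [h1, ContinuousLinearMap.comp_apply, aOp_apply, ← h3, ← h2]
    congr 1
    refine LI.ext fun p => ?_
    show p.1.2 ((x'.smulRight y) p.1.1) = p.1.2 y * x' p.1.1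
    rw [ContinuousLinearMap.smulRight_apply, map_smul, smul_eq_mul, mul_comm]
  have hR : linftyNrm (rOp 𝕜 X Y) ≤ 1 := linftyNrm_lp_le _ norm_rOp_le
  have hA : B.nrm (aOp Ξ) ≤ ENNReal.ofReal κ :=
    (nrm_aOp_le B hB Ξ).trans (ENNReal.ofReal_le_ofReal hΞ1)
  unfold BanachIdeal.compLinftyNrm
  refine iInf_le_of_le (LI 𝕜 (KK 𝕜 X Y)) <| iInf_le_of_le inferInstance <|
    iInf_le_of_le inferInstance <| iInf_le_of_le inferInstance <| iInf_le_of_le (rOp 𝕜 X Y) <|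
    iInf_le_of_le (hR.trans_lt ENNReal.one_lt_top) <| iInf_le_of_le (aOp Ξ) <|
    iInf_le_of_le (hA.trans_lt ENNReal.ofReal_lt_top) <| iInf_le_of_le hfac ?_
  calc B.nrm (aOp Ξ) * linftyNrm (rOp 𝕜 X Y) ≤ ENNReal.ofReal κ * 1 := by gcongr
    _ = ENNReal.ofReal κ := mul_one _

end factor

end Pool.Agent.H47.OpIdeal
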