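import Pool.Agent.H47.OpIdeal.PLR

/-!
# The spaces `L_∞(μ)`: finite-dimensional approximation
-/

set_option autoImplicit false

open scoped ENNReal Topology
open Filter NormedSpace MeasureTheory

namespace Pool.Agent.H47.OpIdeal

variable {𝕜 : Type} [RCLike 𝕜]

/-- Helly's lemma, approximate form -/
theorem helly {U : Type} [NormedAddCommGroup U] [NormedSpace 𝕜 U] {r : ℕ}
    (g : Fin r → StrongDual 𝕜 U) (γ : Fin r → 𝕜) (M : ℝ) (hM : 0 ≤ M)
    (h : ∀ c : Fin r → 𝕜, ‖∑ k, c k * γ k‖ ≤ M * ‖∑ k, c k • g k‖) (δ : ℝ) (hδ : 0 < δ) :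
    ∃ u : U, ‖u‖ ≤ M ∧ ∀ k, ‖g k u - γ k‖ < δ := by
  classical
  set C : Set (Fin r → 𝕜) := {s | ∃ u : U, ‖u‖ ≤ M ∧ s = fun k => g k u} with hC
  have hCcvx : Cvx 𝕜 C := by
    rintro _ ⟨x, hx, rfl⟩ _ ⟨y, hy, rfl⟩ a b ha hb hab
    refine ⟨(a : 𝕜) • x + (b : 𝕜) • y, ?_, ?_⟩
    · calc ‖(a : 𝕜) • x + (b : 𝕜) • y‖ ≤ ‖(a : 𝕜) • x‖ + ‖(b : 𝕜) • y‖ := norm_add_le _ _
        _ = a * ‖x‖ + b * ‖y‖ := by
          rw [norm_smul, norm_smul, RCLike.norm_ofReal, RCLike.norm_ofReal, abs_of_nonneg ha,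
            abs_of_nonneg hb]
        _ ≤ a * M + b * M := by gcongr
        _ = M := by rw [← add_mul, hab, one_mul]
    · funext k
      simp only [Pi.add_apply, Pi.smul_apply, map_add, map_smul]
  have hv : ∀ (f : StrongDual 𝕜 (Fin r → 𝕜)) (u : ℝ),
      (∀ s ∈ C, RCLike.re (f s) ≤ u) → RCLike.re (f γ) ≤ u := by
    intro f u hfu
    let a : Fin r → 𝕜 := fun k => f (Pi.single k 1)
    have hf : ∀ s : Fin r → 𝕜, f s = ∑ k, a k * s k := by
      intro s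
      conv_lhs => rw [show s = ∑ k, Pi.single k (s k) from (Finset.univ_sum_single s).symm,
        map_sum]
      refine Finset.sum_congr rfl fun k _ => ?_
      have : (Pi.single k (s k) : Fin r → 𝕜) = s k • Pi.single k 1 := by
        rw [← Pi.single_smul, smul_eq_mul, mul_one]
      rw [this, map_smul, smul_eq_mul, mul_comm]
    set φ : StrongDual 𝕜 U := ∑ k, a k • g k with hφ
    have hφv : ∀ x, φ x = f (fun k => g k x) := by
      intro x
      rw [hf, hφ, _root_.sum_apply]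
      rfl
    refine le_of_forall_pos_le_add fun η hη => ?_
    obtain ⟨w, hw1, t, hw2, hw3⟩ := exists_norming φ (η / (M + 1)) (by positivity)
    have h1 := hfu (fun k => g k ((M : 𝕜) • w)) ⟨(M : 𝕜) • w, by
      rw [norm_smul, RCLike.norm_ofReal, abs_of_nonneg hM]
      calc M * ‖w‖ ≤ M * 1 := by gcongr
        _ = M := mul_one _, rfl⟩
    rw [← hφv, map_smul, hw2, smul_eq_mul, ← RCLike.ofReal_mul, RCLike.ofReal_re] at h1
    calc RCLike.re (f γ) ≤ ‖f γ‖ := RCLike.re_le_norm _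
      _ ≤ M * ‖φ‖ := by rw [hf]; exact h a
      _ ≤ M * (t + η / (M + 1)) := by gcongr; linarith
      _ = M * t + M * (η / (M + 1)) := by ring
      _ ≤ u + η := by
        gcongr
        rw [mul_div_assoc', div_le_iff₀ (by positivity)]
        nlinarith
  obtain ⟨s, ⟨u, hu, rfl⟩, hlt⟩ := exists_approx C hCcvx _ hv δ hδ
  refine ⟨u, hu, fun k => ?_⟩
  rw [norm_sub_rev]
  exact (norm_le_pi_norm (γ - fun k => g k u) k).trans_lt hlt

section Lp

variable {Ω : Type} [MeasurableSpace Ω] {μ : Measure Ω}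

lemma ae_norm_le (g : Lp 𝕜 ∞ μ) : ∀ᵐ ω ∂μ, ‖g ω‖ ≤ ‖g‖ := by
  filter_upwards [ae_le_eLpNormEssSup (f := (g : Ω → 𝕜)) (μ := μ)] with ω hω
  rw [← eLpNorm_exponent_top, ← Lp.enorm_def] at hω
  rw [enorm_eq_nnnorm, enorm_eq_nnnorm] at hω
  exact_mod_cast hω

lemma norm_le_of_ae (g : Lp 𝕜 ∞ μ) (C : ℝ) (hC : 0 ≤ C) (h : ∀ᵐ ω ∂μ, ‖g ω‖ ≤ C) :
    ‖g‖ ≤ C := by
  rw [Lp.norm_def, eLpNorm_exponent_top]
  exact ENNReal.toReal_le_of_le_ofReal hC (eLpNormEssSup_le_of_ae_bound h)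

lemma memLp_step (μ : Measure Ω) {n : ℕ} (J : Ω → Fin n) (hJ : Measurable J)
    (s : Fin n → 𝕜) : MemLp (fun ω => s (J ω)) ∞ μ :=
  memLp_top_of_bound (μ := μ) (f := fun ω => s (J ω))
    ((measurable_of_finite s).comp hJ).aestronglyMeasurable ‖s‖
    (Eventually.of_forall fun ω => norm_le_pi_norm s (J ω))

/-- the operator `s ↦ s ∘ J` from `ℓ_∞^n` to `L_∞(μ)` -/
noncomputable def stepOp (𝕜 : Type) [RCLike 𝕜] (μ : Measure Ω) {n : ℕ} (J : Ω → Fin n)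
    (hJ : Measurable J) : (Fin n → 𝕜) →L[𝕜] Lp 𝕜 ∞ μ :=
  LinearMap.mkContinuous
    { toFun := fun s => (memLp_step μ J hJ s).toLp
      map_add' := fun s t => MemLp.toLp_add (memLp_step μ J hJ s) (memLp_step μ J hJ t)
      map_smul' := fun k s => MemLp.toLp_const_smul k (memLp_step μ J hJ s) } 1
    (fun s => by
      rw [one_mul]
      refine norm_le_of_ae _ _ (norm_nonneg _) ?_
      filter_upwards [MemLp.coeFn_toLp (memLp_step μ J hJ s)] with ω hω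
      exact (le_of_eq (congrArg norm hω)).trans (norm_le_pi_norm s (J ω)))

lemma norm_stepOp_le {n : ℕ} (J : Ω → Fin n) (hJ : Measurable J) : ‖stepOp 𝕜 μ J hJ‖ ≤ 1 :=
  LinearMap.mkContinuous_norm_le _ zero_le_one _

lemma stepOp_ae {n : ℕ} (J : Ω → Fin n) (hJ : Measurable J) (s : Fin n → 𝕜) :
    (stepOp 𝕜 μ J hJ s : Ω → 𝕜) =ᵐ[μ] fun ω => s (J ω) :=
  MemLp.coeFn_toLp (memLp_step μ J hJ s)

/-- an operator from a finite-dimensional space to `L_∞(μ)` factors approximately through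
some `ℓ_∞^n` -/
theorem factor_linf {E : Type} [NormedAddCommGroup E] [NormedSpace 𝕜 E]
    [FiniteDimensional 𝕜 E] (v : E →L[𝕜] Lp 𝕜 ∞ μ) (δ : ℝ) (hδ : 0 < δ) :
    ∃ (n : ℕ) (c : (Fin n → 𝕜) →L[𝕜] Lp 𝕜 ∞ μ) (t : E →L[𝕜] (Fin n → 𝕜)),
      ‖c‖ ≤ 1 ∧ ‖t‖ ≤ ‖v‖ + δ ∧ ‖c ∘L t - v‖ ≤ δ := by
  classical
  set b := Module.finBasis 𝕜 E with hb
  set d := Module.finrank 𝕜 E with hd
  let ξ : Fin d → StrongDual 𝕜 E := fun i => LinearMap.toContinuousLinearMap (b.coord i)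
  have hexp : ∀ e : E, e = ∑ i, ξ i e • b i := by
    intro e
    conv_lhs => rw [← b.sum_repr e]
    rfl
  set K : ℝ := ∑ i, ‖ξ i‖ with hK
  have hK0 : 0 ≤ K := by positivity
  set η : ℝ := δ / (K + 1) with hη
  have hη0 : 0 < η := by positivity
  have hKη : K * η ≤ δ := mul_div_succ_le hK0 hδ.le
  -- the vector-valued function
  let F : Ω → (Fin d → 𝕜) := fun ω i => (v (b i) : Ω → 𝕜) ω
  have hFm : Measurable F := measurable_pi_lambda _ fun i =>
    (Lp.stronglyMeasurable (v (b i))).measurable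
  -- bound
  obtain ⟨R, hR0, hR⟩ : ∃ R : ℝ, 0 ≤ R ∧ ∀ i, ‖v (b i)‖ ≤ R :=
    ⟨∑ i, ‖v (b i)‖, by positivity, fun i => Finset.single_le_sum
      (f := fun i => ‖v (b i)‖) (fun _ _ => norm_nonneg _) (Finset.mem_univ i)⟩
  have hFb : ∀ᵐ ω ∂μ, F ω ∈ Metric.closedBall (0 : Fin d → 𝕜) R := by
    have : ∀ᵐ ω ∂μ, ∀ i, ‖(v (b i) : Ω → 𝕜) ω‖ ≤ ‖v (b i)‖ :=
      ae_all_iff.2 fun i => ae_norm_le (v (b i))
    filter_upwards [this] with ω hω
    rw [mem_closedBall_zero_iff, pi_norm_le_iff_of_nonneg hR0]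
    exact fun i => (hω i).trans (hR i)
  -- the net
  obtain ⟨T, -, hTf, hTc⟩ := finite_cover_balls_of_compact
    (isCompact_closedBall (0 : Fin d → 𝕜) R) hη0
  obtain ⟨N, q, hq⟩ := hTf.fin_embedding
  have hNpos : 0 < N := by
    rcases Nat.eq_zero_or_pos N with h | h
    · exfalso
      have h0 : (0 : Fin d → 𝕜) ∈ Metric.closedBall (0 : Fin d → 𝕜) R := by simpa using hR0
      obtain ⟨y, hy, -⟩ := Set.mem_iUnion₂.1 (hTc h0)
      have : y ∈ Set.range q := hq ▸ hy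
      obtain ⟨k, -⟩ := this
      exact (Nat.lt_irrefl 0) (h ▸ k.pos)
    · exact h
  let qq : ℕ → (Fin d → 𝕜) := fun k => if h : k < N then q ⟨k, h⟩ else 0
  let J : Ω → Fin (N - 1 + 1) := fun ω =>
    ⟨SimpleFunc.nearestPtInd qq (N - 1) (F ω), Nat.lt_succ_of_le
      (SimpleFunc.nearestPtInd_le qq (N - 1) (F ω))⟩
  have hJ : Measurable J := by
    have h1 : Measurable fun ω => SimpleFunc.nearestPtInd qq (N - 1) (F ω) :=
      (SimpleFunc.measurable _).comp hFm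
    refine measurable_to_countable' fun k => ?_
    have : J ⁻¹' {k} = (fun ω => SimpleFunc.nearestPtInd qq (N - 1) (F ω)) ⁻¹' {(k : ℕ)} := by
      ext ω
      simp [J, Fin.ext_iff]
    rw [this]
    exact h1 (measurableSet_singleton _)
  have hclose : ∀ᵐ ω ∂μ, ∀ i, ‖qq (J ω) i - F ω i‖ ≤ η := by
    filter_upwards [hFb] with ω hω
    obtain ⟨y, hy, hxy⟩ := Set.mem_iUnion₂.1 (hTc hω)
    have : y ∈ Set.range q := hq ▸ hy
    obtain ⟨k, rfl⟩ := this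
    have h1 : edist (SimpleFunc.nearestPt qq (N - 1) (F ω)) (F ω) ≤ edist (qq k) (F ω) :=
      SimpleFunc.edist_nearestPt_le qq (F ω) (Nat.le_sub_one_of_lt k.2)
    have h2 : SimpleFunc.nearestPt qq (N - 1) (F ω) = qq (J ω) := rfl
    have h3 : qq k = q k := by simp [qq]
    rw [h2, h3, edist_dist, edist_dist, ENNReal.ofReal_le_ofReal_iff dist_nonneg] at h1
    have h4 : dist (qq (J ω)) (F ω) ≤ η := by
      refine h1.trans ?_
      rw [dist_comm]; exact (Metric.mem_ball.1 hxy).le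
    rw [dist_eq_norm] at h4
    exact fun i => (norm_le_pi_norm (qq (J ω) - F ω) i).trans h4
  -- evaluation of `v e`
  have hve : ∀ e : E, ∀ᵐ ω ∂μ, (v e : Ω → 𝕜) ω = ∑ i, ξ i e * F ω i := by
    intro e
    have h1 : v e = ∑ i, ξ i e • v (b i) := by
      conv_lhs => rw [hexp e, map_sum]
      exact Finset.sum_congr rfl fun i _ => map_smul _ _ _
    have h2 := Lp.coeFn_finsetSum (p := ∞) (μ := μ) Finset.univ (fun i => ξ i e • v (b i))
    have h3 : ∀ᵐ ω ∂μ, ∀ i, ((ξ i e • v (b i) : Lp 𝕜 ∞ μ) : Ω → 𝕜) ω =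
        ξ i e * (v (b i) : Ω → 𝕜) ω :=
      ae_all_iff.2 fun i => by
        filter_upwards [Lp.coeFn_smul (ξ i e) (v (b i))] with ω hω
        rw [hω]; rfl
    rw [h1]
    filter_upwards [h2, h3] with ω h2 h3
    rw [h2, Finset.sum_apply]
    exact Finset.sum_congr rfl fun i _ => h3 i
  have hsum : ∀ (e : E) (x y : Fin d → 𝕜), (∀ i, ‖x i - y i‖ ≤ η) →
      ‖∑ i, ξ i e * x i - ∑ i, ξ i e * y i‖ ≤ δ * ‖e‖ := by
    intro e x y hxy
    rw [← Finset.sum_sub_distrib]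
    calc ‖∑ i, (ξ i e * x i - ξ i e * y i)‖ ≤ ∑ i, ‖ξ i e * x i - ξ i e * y i‖ :=
          norm_sum_le _ _
      _ ≤ ∑ i, ‖ξ i‖ * ‖e‖ * η := by
        refine Finset.sum_le_sum fun i _ => ?_
        rw [← mul_sub, norm_mul]
        gcongr
        · exact (ξ i).le_opNorm e
        · exact hxy i
      _ = K * η * ‖e‖ := by
          rw [hK, Finset.sum_mul, Finset.sum_mul]
          exact Finset.sum_congr rfl fun i _ => by ring
      _ ≤ δ * ‖e‖ := by gcongr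
  -- the operator `t`
  let tj : Fin (N - 1 + 1) → StrongDual 𝕜 E := fun j =>
    if μ (J ⁻¹' {j}) = 0 then 0 else ∑ i, qq j i • ξ i
  have htj : ∀ j, μ (J ⁻¹' {j}) ≠ 0 → ∀ e, tj j e = ∑ i, ξ i e * qq j i := by
    intro j hj e
    show (if μ (J ⁻¹' {j}) = 0 then (0 : StrongDual 𝕜 E) else ∑ i, qq j i • ξ i) e = _
    rw [if_neg hj, _root_.sum_apply]
    exact Finset.sum_congr rfl fun i _ => by rw [_root_.smul_apply, smul_eq_mul, mul_comm]
  let t : E →L[𝕜] (Fin (N - 1 + 1) → 𝕜) := ContinuousLinearMap.pi tj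
  refine ⟨N - 1 + 1, stepOp 𝕜 μ J hJ, t, norm_stepOp_le J hJ, ?_, ?_⟩
  · refine ContinuousLinearMap.opNorm_le_bound _ (by positivity) fun e => ?_
    rw [pi_norm_le_iff_of_nonneg (by positivity)]
    intro j
    show ‖tj j e‖ ≤ _
    by_cases hj : μ (J ⁻¹' {j}) = 0
    · have : tj j = 0 := if_pos hj
      rw [this]
      simp only [_root_.zero_apply, norm_zero]
      positivity
    · -- find a good point
      have hfreq : ∃ᵐ ω ∂μ, ω ∈ J ⁻¹' {j} := by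
        rw [frequently_ae_iff]
        exact hj
      obtain ⟨ω, hω1, hω2, hω3, hω4⟩ := (hfreq.and_eventually
        (hclose.and ((hve e).and (ae_norm_le (v e))))).exists
      have hω1' : J ω = j := hω1
      rw [htj j hj]
      have h1 := hsum e (qq (J ω)) (F ω) hω2
      rw [hω1', ← hω3] at h1
      calc ‖∑ i, ξ i e * qq j i‖ ≤ ‖(v e : Ω → 𝕜) ω‖ +
            ‖∑ i, ξ i e * qq j i - (v e : Ω → 𝕜) ω‖ := by
            have := norm_add_le ((v e : Ω → 𝕜) ω) (∑ i, ξ i e * qq j i - (v e : Ω → 𝕜) ω)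
            rwa [add_sub_cancel] at this
        _ ≤ ‖v e‖ + δ * ‖e‖ := by gcongr
        _ ≤ ‖v‖ * ‖e‖ + δ * ‖e‖ := by gcongr; exact v.le_opNorm e
        _ = (‖v‖ + δ) * ‖e‖ := by ring
  · refine ContinuousLinearMap.opNorm_le_bound _ hδ.le fun e => ?_
    refine norm_le_of_ae _ _ (by positivity) ?_
    have hnull : ∀ᵐ ω ∂μ, ∀ j, μ (J ⁻¹' {j}) = 0 → J ω ≠ j := by
      refine ae_all_iff.2 fun j => ?_
      by_cases hj : μ (J ⁻¹' {j}) = 0
      · have : ∀ᵐ ω ∂μ, ω ∉ J ⁻¹' {j} := measure_eq_zero_iff_ae_notMem.1 hj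
        filter_upwards [this] with ω hω _ h
        exact hω h
      · exact Eventually.of_forall fun ω h => absurd h hj
    have hsub := Lp.coeFn_sub (stepOp 𝕜 μ J hJ (t e)) (v e)
    filter_upwards [hsub, stepOp_ae (μ := μ) J hJ (t e), hnull, hclose, hve e]
      with ω h1 h2 h3 h4 h5
    have h6 : ((stepOp 𝕜 μ J hJ ∘L t - v) e : Lp 𝕜 ∞ μ) = stepOp 𝕜 μ J hJ (t e) - v e := rfl
    rw [h6, h1, Pi.sub_apply, h2, h5]
    have h7 : μ (J ⁻¹' {J ω}) ≠ 0 := fun h => h3 (J ω) h rfl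
    have h8 : t e (J ω) = ∑ i, ξ i e * qq (J ω) i := htj _ h7 e
    rw [h8]
    exact hsum e _ _ h4

end Lp

section abstract_approx

variable {L : Type} [NormedAddCommGroup L] [NormedSpace 𝕜 L]

set_option maxSynthPendingDepth 3 in
/-- the key approximation result for functionals on a space whose finite-dimensional
operators factor through `ℓ_∞^n` -/
theorem approx_of_factor (hfac : ∀ (E : Type) [NormedAddCommGroup E] [NormedSpace 𝕜 E]
      [FiniteDimensional 𝕜 E] (v : E →L[𝕜] L) (δ : ℝ), 0 < δ →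
      ∃ (n : ℕ) (c : (Fin n → 𝕜) →L[𝕜] L) (t : E →L[𝕜] (Fin n → 𝕜)),
        ‖c‖ ≤ 1 ∧ ‖t‖ ≤ ‖v‖ + δ ∧ ‖c ∘L t - v‖ ≤ δ)
    {r : ℕ} (ψ : Fin r → StrongDual 𝕜 L)
    (g : Fin r → StrongDual 𝕜 (StrongDual 𝕜 L)) (η : ℝ) (hη : 0 < η) :
    ∃ (n : ℕ) (c : (Fin n → 𝕜) →L[𝕜] L) (a : L →L[𝕜] (Fin n → 𝕜)),
      ‖c‖ ≤ 1 ∧ ‖a‖ ≤ 1 + η ∧
      ‖∑ k, g k (ψ k ∘L c ∘L a) - ∑ k, g k (ψ k)‖ ≤ η := by
  classical
  set K : ℝ := ∑ k, (‖ψ k‖ * ‖g k‖ + 1 + ‖ψ k‖) with hK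
  have hK0 : 0 ≤ K := by positivity
  set δ : ℝ := min (η / 2) (η / (2 * (K + 1))) with hδ
  have hδ0 : 0 < δ := lt_min (by positivity) (by positivity)
  have hδ1 : δ ≤ η / 2 := min_le_left _ _
  have hδ2 : δ ≤ η / (2 * (K + 1)) := min_le_right _ _
  let E := Submodule.span 𝕜 (Set.range g)
  have hEf : FiniteDimensional 𝕜 E := FiniteDimensional.span_of_finite 𝕜 (Set.finite_range g)
  let gE : Fin r → E := fun k => ⟨g k, Submodule.subset_span ⟨k, rfl⟩⟩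
  obtain ⟨σ, hσ1, hσ2⟩ := plr (E.subtypeL) ψ gE δ hδ0
  have hσn : ‖σ‖ ≤ 1 + δ := by
    refine hσ1.trans ?_
    have : ‖E.subtypeL‖ ≤ 1 := E.norm_subtypeL_le
    calc (1 + δ) * ‖E.subtypeL‖ ≤ (1 + δ) * 1 := by gcongr
      _ = 1 + δ := mul_one _
  obtain ⟨n, c, t, hc, ht, hct⟩ := hfac E σ δ hδ0
  have htn : ‖t‖ ≤ 1 + η := by linarith
  set δ' : ℝ := δ / (n + 1) with hδ'
  have hδ'0 : 0 < δ' := by positivity
  -- the functionals `a_j`
  have hh : ∀ j : Fin n, ∃ u : StrongDual 𝕜 (L), ‖u‖ ≤ 1 + η ∧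
      ∀ k, ‖g k u - t (gE k) j‖ < δ' := by
    intro j
    refine helly g (fun k => t (gE k) j) (1 + η) (by positivity) (fun s => ?_) δ' hδ'0
    have h1 : ∑ k, s k * t (gE k) j = t (∑ k, s k • gE k) j := by
      rw [map_sum, Finset.sum_apply]
      exact Finset.sum_congr rfl fun k _ => by rw [map_smul]; rfl
    have h2 : ‖(∑ k, s k • gE k : E)‖ = ‖∑ k, s k • g k‖ := by
      rw [show ‖(∑ k, s k • gE k : E)‖ =
        ‖((∑ k, s k • gE k : E) : StrongDual 𝕜 (StrongDual 𝕜 (L)))‖ from rfl]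
      congr 1
      rw [Submodule.coe_sum]
      rfl
    rw [h1]
    calc ‖t (∑ k, s k • gE k) j‖ ≤ ‖t (∑ k, s k • gE k)‖ := norm_le_pi_norm _ j
      _ ≤ ‖t‖ * ‖∑ k, s k • gE k‖ := t.le_opNorm _
      _ ≤ (1 + η) * ‖∑ k, s k • g k‖ := by rw [h2]; gcongr
  choose u hu1 hu2 using hh
  let a : L →L[𝕜] (Fin n → 𝕜) := ContinuousLinearMap.pi u
  refine ⟨n, c, a, hc, ?_, ?_⟩
  · refine ContinuousLinearMap.opNorm_le_bound _ (by positivity) fun f => ?_
    rw [pi_norm_le_iff_of_nonneg (by positivity)]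
    intro j
    calc ‖u j f‖ ≤ ‖u j‖ * ‖f‖ := (u j).le_opNorm f
      _ ≤ (1 + η) * ‖f‖ := by gcongr; exact hu1 j
  · -- the main computation
    have hexp : ∀ k, ψ k ∘L c ∘L a = ∑ j, ψ k (c (Pi.single j 1)) • u j := by
      intro k
      ext f
      rw [_root_.sum_apply]
      show ψ k (c (a f)) = _
      have h1 : a f = ∑ j, (a f j) • (Pi.single j (1 : 𝕜) : Fin n → 𝕜) := by
        funext i
        simp [Finset.sum_apply, Pi.single_apply]
      rw [h1, map_sum, map_sum]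
      refine Finset.sum_congr rfl fun j _ => ?_
      rw [map_smul, map_smul, smul_eq_mul, mul_comm]
      rfl
    have hexp2 : ∀ k, ψ k (c (t (gE k))) = ∑ j, ψ k (c (Pi.single j 1)) * t (gE k) j := by
      intro k
      have h1 : t (gE k) = ∑ j, (t (gE k) j) • (Pi.single j (1 : 𝕜) : Fin n → 𝕜) := by
        funext i
        simp [Finset.sum_apply, Pi.single_apply]
      conv_lhs => rw [h1, map_sum, map_sum]
      refine Finset.sum_congr rfl fun j _ => ?_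
      rw [map_smul, map_smul, smul_eq_mul, mul_comm]
    have hsingle : ∀ j : Fin n, ‖c (Pi.single j 1)‖ ≤ 1 := by
      intro j
      calc ‖c (Pi.single j 1)‖ ≤ ‖c‖ * ‖(Pi.single j 1 : Fin n → 𝕜)‖ := c.le_opNorm _
        _ ≤ 1 * 1 := by
          gcongr
          rw [pi_norm_le_iff_of_nonneg zero_le_one]
          intro i
          by_cases hi : i = j
          · subst hi; simp
          · simp [hi]
        _ = 1 := one_mul _
    have e1 : ∀ k, ‖g k (ψ k ∘L c ∘L a) - ψ k (c (t (gE k)))‖ ≤ ‖ψ k‖ * δ := by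
      intro k
      rw [hexp k, hexp2 k, map_sum, ← Finset.sum_sub_distrib]
      calc ‖∑ j, (g k (ψ k (c (Pi.single j 1)) • u j) -
            ψ k (c (Pi.single j 1)) * t (gE k) j)‖
          ≤ ∑ j : Fin n, ‖ψ k‖ * δ' := by
            refine norm_sum_le_of_le _ fun j _ => ?_
            rw [map_smul, smul_eq_mul, ← mul_sub, norm_mul]
            gcongr
            · calc ‖ψ k (c (Pi.single j 1))‖ ≤ ‖ψ k‖ * ‖c (Pi.single j 1)‖ := (ψ k).le_opNorm _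
                _ ≤ ‖ψ k‖ * 1 := by gcongr; exact hsingle j
                _ = ‖ψ k‖ := mul_one _
            · exact (hu2 j k).le
        _ = ‖ψ k‖ * (n * δ') := by
            rw [Finset.sum_const, Finset.card_univ, Fintype.card_fin, nsmul_eq_mul]; ring
        _ ≤ ‖ψ k‖ * δ := mul_le_mul_of_nonneg_left
            (mul_div_succ_le (Nat.cast_nonneg n) hδ0.le) (norm_nonneg _)
    have e2 : ∀ k, ‖ψ k (c (t (gE k))) - ψ k (σ (gE k))‖ ≤ ‖ψ k‖ * ‖g k‖ * δ := by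
      intro k
      rw [← map_sub]
      calc ‖ψ k (c (t (gE k)) - σ (gE k))‖ ≤ ‖ψ k‖ * ‖c (t (gE k)) - σ (gE k)‖ :=
            (ψ k).le_opNorm _
        _ ≤ ‖ψ k‖ * (‖c ∘L t - σ‖ * ‖gE k‖) := by
            gcongr
            exact (c ∘L t - σ).le_opNorm (gE k)
        _ ≤ ‖ψ k‖ * (δ * ‖g k‖) := by gcongr; exact le_rfl
        _ = _ := by ring
    have e3 : ∀ k, ‖ψ k (σ (gE k)) - g k (ψ k)‖ ≤ δ := fun k => (hσ2 k k).le
    rw [← Finset.sum_sub_distrib]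
    calc ‖∑ k, (g k (ψ k ∘L c ∘L a) - g k (ψ k))‖
        ≤ ∑ k, (‖ψ k‖ * ‖g k‖ + 1 + ‖ψ k‖) * δ := by
          refine norm_sum_le_of_le _ fun k _ => ?_
          have h1 := norm_add₃_le (a := g k (ψ k ∘L c ∘L a) - ψ k (c (t (gE k))))
            (b := ψ k (c (t (gE k))) - ψ k (σ (gE k))) (c := ψ k (σ (gE k)) - g k (ψ k))
          have h2 : g k (ψ k ∘L c ∘L a) - ψ k (c (t (gE k))) +
              (ψ k (c (t (gE k))) - ψ k (σ (gE k))) + (ψ k (σ (gE k)) - g k (ψ k)) =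
              g k (ψ k ∘L c ∘L a) - g k (ψ k) := by ring
          rw [h2] at h1
          linarith [e1 k, e2 k, e3 k]
      _ = K * δ := by rw [hK, Finset.sum_mul]
      _ ≤ K * (η / (2 * (K + 1))) := mul_le_mul_of_nonneg_left hδ2 hK0
      _ ≤ η := mul_div_two_succ_le hK0 hη.le

end abstract_approx

end Pool.Agent.H47.OpIdeal
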