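import Mathlib

/-!
# A rotation invariant mean on functions on `𝕜^N`
-/

set_option autoImplicit false
set_option maxSynthPendingDepth 3

open scoped Topology
open Filter MeasureTheory

namespace Pool.Agent.H47.OpIdeal

variable {𝕜 : Type} [RCLike 𝕜]

theorem exists_mean (𝕜 : Type) [RCLike 𝕜] (N : ℕ) (hN : 0 < N) :
    ∃ J : (EuclideanSpace 𝕜 (Fin N) → ℝ) → ℝ,
      (∀ f g, Continuous f → Continuous g → (∀ s, f s ≤ g s) → J f ≤ J g) ∧
      (∀ (ι : Type) (t : Finset ι) (f : ι → EuclideanSpace 𝕜 (Fin N) → ℝ),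
        (∀ i, Continuous (f i)) → J (fun s => ∑ i ∈ t, f i s) = ∑ i ∈ t, J (f i)) ∧
      (∀ (c : ℝ) f, J (fun s => c * f s) = c * J f) ∧
      (∀ (U : EuclideanSpace 𝕜 (Fin N) →ₗᵢ[𝕜] EuclideanSpace 𝕜 (Fin N)) f,
        J (fun s => f (U s)) = J f) ∧
      0 < J (fun s => ‖s‖ ^ 2) := by
  classical
  let E := EuclideanSpace 𝕜 (Fin N)
  let _ : MeasurableSpace E := borel E
  have : BorelSpace E := ⟨rfl⟩
  have hpr : ProperSpace E := FiniteDimensional.proper_rclike 𝕜 E
  let μ : Measure E := Measure.addHaar
  have hinvb : ∀ e : E ≃ₗᵢ[𝕜] E, Measure.map e μ = μ := by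
    intro e
    have hμ' : (Measure.map e μ).IsAddHaarMeasure :=
      ContinuousLinearEquiv.isAddHaarMeasure_map e.toContinuousLinearEquiv μ
    have h1 := Measure.isAddLeftInvariant_eq_smul (Measure.map e μ) μ
    have hB : MeasurableSet (Metric.closedBall (0 : E) 1) := Metric.isClosed_closedBall.measurableSet
    have h2 : Measure.map e μ (Metric.closedBall 0 1) = μ (Metric.closedBall 0 1) := by
      rw [Measure.map_apply e.continuous.measurable hB]
      congr 1
      ext s
      simp
    have h3 : μ (Metric.closedBall (0 : E) 1) ≠ 0 :=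
      (Metric.measure_closedBall_pos μ 0 one_pos).ne'
    have h4 : μ (Metric.closedBall (0 : E) 1) ≠ ⊤ := measure_closedBall_lt_top.ne
    have h5 : (Measure.addHaarScalarFactor (Measure.map e μ) μ : ENNReal) = 1 := by
      have h6 : (Measure.addHaarScalarFactor (Measure.map e μ) μ : ENNReal) *
          μ (Metric.closedBall (0 : E) 1) = 1 * μ (Metric.closedBall (0 : E) 1) := by
        rw [one_mul]
        conv_rhs => rw [← h2, h1]
        rfl
      exact (ENNReal.mul_left_inj h3 h4).1 h6
    have h7 : Measure.addHaarScalarFactor (Measure.map e μ) μ = 1 := by exact_mod_cast h5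
    rw [h1, h7, one_smul]
  have hint : ∀ f : E → ℝ, Continuous f → IntegrableOn f (Metric.closedBall (0 : E) 1) μ :=
    fun f hf => hf.continuousOn.integrableOn_compact (isCompact_closedBall 0 1)
  refine ⟨fun f => ∫ s in Metric.closedBall (0 : E) 1, f s ∂μ, ?_, ?_, ?_, ?_, ?_⟩
  · intro f g hf hg hfg
    exact setIntegral_mono (hint f hf) (hint g hg) hfg
  · intro ι t f hf
    exact integral_finsetSum t fun i _ => hint (f i) (hf i)
  · intro c f
    exact integral_const_mul c _
  · intro U f
    let e : E ≃ₗᵢ[𝕜] E := U.toLinearIsometryEquiv rfl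
    have he : ∀ s, e s = U s := fun s => rfl
    have hmp : MeasurePreserving e μ μ := ⟨e.continuous.measurable, hinvb e⟩
    have hemb : MeasurableEmbedding e := e.toHomeomorph.measurableEmbedding
    have h1 := hmp.setIntegral_preimage_emb hemb f (Metric.closedBall (0 : E) 1)
    have h2 : e ⁻¹' (Metric.closedBall (0 : E) 1) = Metric.closedBall (0 : E) 1 := by
      ext s; simp
    rw [h2] at h1
    exact h1
  · have hc : Continuous (fun s : E => ‖s‖ ^ 2) := by fun_prop
    refine (setIntegral_pos_iff_support_of_nonneg_ae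
      (Eventually.of_forall fun s => by positivity) (hint _ hc)).2 ?_
    let v : E := ((1 / 2 : ℝ) : 𝕜) • EuclideanSpace.single (⟨0, hN⟩ : Fin N) (1 : 𝕜)
    have hv : ‖v‖ = 1 / 2 := by
      rw [norm_smul, RCLike.norm_ofReal, PiLp.norm_single, norm_one, mul_one,
        abs_of_nonneg (by norm_num)]
    have hsub : Metric.ball v (1 / 4) ⊆
        Function.support (fun s : E => ‖s‖ ^ 2) ∩ Metric.closedBall (0 : E) 1 := by
      intro s hs
      rw [Metric.mem_ball, dist_eq_norm] at hs
      have h1 : ‖v‖ ≤ ‖s - v‖ + ‖s‖ := by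
        have := norm_sub_le s (s - v)
        rw [sub_sub_cancel] at this
        linarith
      have h2 : ‖s‖ ≤ ‖s - v‖ + ‖v‖ := by
        have := norm_add_le (s - v) v
        rwa [sub_add_cancel] at this
      refine ⟨?_, ?_⟩
      · rw [Function.mem_support]
        have : 0 < ‖s‖ := by linarith
        positivity
      · rw [mem_closedBall_zero_iff]
        linarith
    exact (Metric.measure_ball_pos μ v (by norm_num)).trans_le (measure_mono hsub)

end Pool.Agent.H47.OpIdeal
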