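import Pool.Agent.H47.OpIdeal.PLR
import Pool.Agent.H47.OpIdeal.Criterion
import Pool.Agent.H47.OpIdeal.Cube
import Pool.Agent.H47.OpIdeal.Mean

/-!
# Pisier's factorisation theorem for operators that are limits of finite-rank operators
-/

set_option autoImplicit false
set_option maxSynthPendingDepth 3

open scoped Topology ComplexConjugate
open Filter NormedSpace

namespace Pool.Agent.H47.OpIdeal

variable {𝕜 : Type} [RCLike 𝕜]

section star

variable {X Y H : Type} [NormedAddCommGroup X] [NormedSpace 𝕜 X]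
  [NormedAddCommGroup Y] [NormedSpace 𝕜 Y] [NormedAddCommGroup H] [InnerProductSpace 𝕜 H]

lemma map_kconv {n : ℕ} (a : X →L[𝕜] Y) (ρ : ℝ) (f : Cube n → X) (s : Cube n) :
    a (kconv 𝕜 ρ f s) = kconv 𝕜 ρ (fun t => a (f t)) s := by
  unfold kconv
  simp only [map_smul, map_sum]

lemma map_coef {n : ℕ} (a : X →L[𝕜] Y) (A : Finset (Fin n)) (f : Cube n → X) :
    a (coef 𝕜 A f) = coef 𝕜 A (fun t => a (f t)) := by
  unfold coef
  simp only [map_smul, map_sum]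

/-- the basic estimate -/
theorem star_bound {n : ℕ} (u : X →L[𝕜] Y) (a : X →L[𝕜] H) (b : H →L[𝕜] Y) (hu : u = b ∘L a) (ρ : ℝ)
    (hρ : 0 < ρ) (hρ1 : ρ ≤ 1) (f : Cube n → X) :
    nL2 (fun s : Cube n => ∑ i, ((sg (s i) : ℝ) : 𝕜) • u (coef 𝕜 {i} f)) ≤
      (‖u‖ * (2 / ρ) + ‖b‖ * (ρ * ‖a‖)) * nL2 f := by
  set G : Cube n → H := fun s => kconv 𝕜 ρ (fun t => a (f t)) s -
    ∑ i, ((sg (s i) : ℝ) : 𝕜) • coef 𝕜 {i} (fun t => a (f t)) with hG
  have h1 : (fun s : Cube n => ∑ i, ((sg (s i) : ℝ) : 𝕜) • u (coef 𝕜 {i} f)) =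
      (fun s => u (kconv 𝕜 ρ f s)) - fun s => b (G s) := by
    funext s
    rw [Pi.sub_apply, hG]
    simp only [map_sub, map_sum, map_smul, ← map_coef, ← map_kconv, hu,
      ContinuousLinearMap.comp_apply]
    abel
  rw [h1]
  refine (nL2_sub_le _ _).trans ?_
  have h2 : nL2 (fun s => u (kconv 𝕜 ρ f s)) ≤ ‖u‖ * nL2 (kconv 𝕜 ρ f) :=
    nL2_le_mul _ _ _ (norm_nonneg _) fun s => u.le_opNorm _
  have h3 : nL2 (fun s => b (G s)) ≤ ‖b‖ * nL2 G :=
    nL2_le_mul _ _ _ (norm_nonneg _) fun s => b.le_opNorm _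
  have h4 : nL2 G ≤ ρ * nL2 (fun t => a (f t)) := nL2_kconv_sub_le ρ hρ hρ1 _
  have h5 : nL2 (fun t => a (f t)) ≤ ‖a‖ * nL2 f :=
    nL2_le_mul _ _ _ (norm_nonneg _) fun s => a.le_opNorm _
  have h6 := nL2_kconv_le (𝕜 := 𝕜) ρ hρ hρ1 f
  calc nL2 (fun s => u (kconv 𝕜 ρ f s)) + nL2 (fun s => b (G s))
      ≤ ‖u‖ * ((2 / ρ) * nL2 f) + ‖b‖ * (ρ * (‖a‖ * nL2 f)) := by
        refine add_le_add (h2.trans ?_) (h3.trans ?_)
        · gcongr
        · gcongr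
          exact h4.trans (by gcongr)
    _ = (‖u‖ * (2 / ρ) + ‖b‖ * (ρ * ‖a‖)) * nL2 f := by ring

end star

/-- cotype 2 with constant `C` -/
def Cot (X : Type) [NormedAddCommGroup X] (C : ℝ) : Prop :=
  ∀ (n : ℕ) (x : Fin n → X),
    ∑ i, ‖x i‖ ^ 2 ≤ C ^ 2 * ((∑ s : Fin n → ℤˣ, ‖∑ i, (s i : ℤ) • x i‖ ^ 2) / 2 ^ n)

lemma HasCotypeTwo.cot {X : Type} [NormedAddCommGroup X] (h : HasCotypeTwo X) :
    ∃ C : ℝ, 1 ≤ C ∧ Cot X C := by
  obtain ⟨C, hC⟩ := h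
  refine ⟨|C| + 1, by linarith [abs_nonneg C], fun n x => (hC n x).trans ?_⟩
  have h1 : C ^ 2 ≤ (|C| + 1) ^ 2 := by
    rw [← sq_abs]
    gcongr
    linarith
  gcongr

section cot

variable {X Y : Type} [NormedAddCommGroup X] [NormedSpace 𝕜 X]
  [NormedAddCommGroup Y] [NormedSpace 𝕜 Y]

lemma sg_smul (e : ℤˣ) (x : X) : (e : ℤ) • x = ((sg e : ℝ) : 𝕜) • x := by
  unfold sg
  rw [RCLike.ofReal_intCast, Int.cast_smul_eq_zsmul]

lemma Cot.ineq (𝕜 : Type) [RCLike 𝕜] {X : Type} [NormedAddCommGroup X] [NormedSpace 𝕜 X] {C : ℝ}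
    (h : Cot X C) {n : ℕ} (x : Fin n → X) :
    2 ^ n * ∑ i, ‖x i‖ ^ 2 ≤
      C ^ 2 * nL2 (fun s : Cube n => ∑ i, ((sg (s i) : ℝ) : 𝕜) • x i) ^ 2 := by
  have h1 := h n x
  rw [← mul_div_assoc, le_div_iff₀ (by positivity), mul_comm] at h1
  rw [nL2_sq]
  simpa only [sg_smul (𝕜 := 𝕜)] using h1

/-- duality: vectors are approximately the Rademacher coefficients of a function with a
controlled `L_2` norm -/
theorem exists_coef {C : ℝ} (hC : 0 ≤ C) (hX : Cot (StrongDual 𝕜 X) C) {n : ℕ} (x : Fin n → X)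
    (δ : ℝ) (hδ : 0 < δ) :
    ∃ f : Cube n → X, nL2 f ≤ C * √(2 ^ n * ∑ i, ‖x i‖ ^ 2) ∧
      ∀ i, ‖x i - coef 𝕜 {i} f‖ < δ := by
  classical
  set M : ℝ := C * √(2 ^ n * ∑ i, ‖x i‖ ^ 2) with hM
  have hM0 : 0 ≤ M := by positivity
  set S : Set (Fin n → X) := {c | ∃ f : Cube n → X, nL2 f ≤ M ∧ c = fun i => coef 𝕜 {i} f} with hS
  have hScvx : Cvx 𝕜 S := by
    rintro _ ⟨f, hf, rfl⟩ _ ⟨g, hg, rfl⟩ a b ha hb hab
    refine ⟨(a : 𝕜) • f + (b : 𝕜) • g, ?_, ?_⟩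
    · have h1 : ∀ (c : ℝ) (f : Cube n → X), 0 ≤ c → nL2 ((c : 𝕜) • f) ≤ c * nL2 f := by
        intro c f hc
        refine nL2_le_mul _ _ _ hc fun s => ?_
        rw [Pi.smul_apply, norm_smul, RCLike.norm_ofReal, abs_of_nonneg hc]
      calc nL2 ((a : 𝕜) • f + (b : 𝕜) • g) ≤ nL2 ((a : 𝕜) • f) + nL2 ((b : 𝕜) • g) :=
            nL2_add_le _ _
        _ ≤ a * nL2 f + b * nL2 g := add_le_add (h1 a f ha) (h1 b g hb)
        _ ≤ a * M + b * M := by gcongr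
        _ = M := by rw [← add_mul, hab, one_mul]
    · funext i
      simp only [coef, Pi.add_apply, Pi.smul_apply, smul_add, Finset.sum_add_distrib,
        Finset.smul_sum, smul_smul]
      congr 1 <;>
      · refine Finset.sum_congr rfl fun s _ => ?_
        congr 1
        ring
  have hv : ∀ (g : StrongDual 𝕜 (Fin n → X)) (t : ℝ),
      (∀ c ∈ S, RCLike.re (g c) ≤ t) → RCLike.re (g x) ≤ t := by
    intro g t hgt
    obtain ⟨v, hv1, -⟩ := functional_pi g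
    set G : Cube n → StrongDual 𝕜 X := fun s => ∑ i, ((sg (s i) : ℝ) : 𝕜) • v i with hG
    have hgc : ∀ f : Cube n → X, g (fun i => coef 𝕜 {i} f) =
        ((((2 : ℝ) ^ n)⁻¹ : ℝ) : 𝕜) * ∑ ω, G ω (f ω) := by
      intro f
      rw [hv1, Finset.mul_sum]
      have h1 : ∀ i, v i (coef 𝕜 {i} f) = ∑ ω, ((((2 : ℝ) ^ n)⁻¹ : ℝ) : 𝕜) *
          (((sg (ω i) : ℝ) : 𝕜) * v i (f ω)) := by
        intro i
        unfold coef
        rw [map_smul, map_sum, smul_eq_mul, Finset.mul_sum]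
        refine Finset.sum_congr rfl fun ω _ => ?_
        rw [walsh_singleton, map_smul, smul_eq_mul]
      rw [Finset.sum_congr rfl fun i _ => h1 i, Finset.sum_comm]
      refine Finset.sum_congr rfl fun ω _ => ?_
      rw [← Finset.mul_sum, hG]
      congr 1
      show _ = (∑ i, ((sg (ω i) : ℝ) : 𝕜) • v i) (f ω)
      rw [_root_.sum_apply]
      rfl
    have ht0 : 0 ≤ t := by
      have h1 := hgt _ ⟨0, by
        have : nL2 (0 : Cube n → X) = 0 := by unfold nL2; simp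
        rw [this]; exact hM0, rfl⟩
      rw [hgc] at h1
      simpa using h1
    have hcot := hX.ineq 𝕜 v
    by_cases hN : nL2 G = 0
    · have h1 : ∑ i, ‖v i‖ ^ 2 ≤ 0 := by
        rw [show nL2 (fun s : Cube n => ∑ i, ((sg (s i) : ℝ) : 𝕜) • v i) = 0 from hN] at hcot
        have h2 : (0 : ℝ) < 2 ^ n := by positivity
        nlinarith
      have h2 : ∀ i, v i = 0 := by
        intro i
        have h3 := Finset.single_le_sum (f := fun i => ‖v i‖ ^ 2)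
          (fun i _ => by positivity) (Finset.mem_univ i)
        have h4 : ‖v i‖ ^ 2 ≤ 0 := h3.trans h1
        have h5 : ‖v i‖ = 0 := by
          have := sq_nonneg ‖v i‖
          exact pow_eq_zero_iff (two_ne_zero) |>.1 (le_antisymm h4 this)
        exact norm_eq_zero.1 h5
      rw [hv1]
      simp only [h2, _root_.zero_apply, Finset.sum_const_zero, map_zero]
      exact ht0
    have hN0 : 0 < nL2 G := lt_of_le_of_ne (nL2_nonneg _) (Ne.symm hN)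
    -- the norming function
    have key : ∀ η : ℝ, 0 < η → (2 ^ n)⁻¹ * (M * nL2 G) ≤
        t + η * ((2 ^ n)⁻¹ * (M / nL2 G) * ∑ s, ‖G s‖) := by
      intro η hη
      choose w hw1 τ hw2 hw3 using fun s => exists_norming (𝕜 := 𝕜) (G s) η hη
      have h1 := hgt _ ⟨fun s => ((M / nL2 G * ‖G s‖ : ℝ) : 𝕜) • w s, by
        calc nL2 (fun s => ((M / nL2 G * ‖G s‖ : ℝ) : 𝕜) • w s) ≤ (M / nL2 G) * nL2 G := by
              refine nL2_le_mul _ _ _ (by positivity) fun s => ?_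
              rw [norm_smul, RCLike.norm_ofReal, abs_of_nonneg (by positivity)]
              calc M / nL2 G * ‖G s‖ * ‖w s‖ ≤ M / nL2 G * ‖G s‖ * 1 := by
                    gcongr; exact hw1 s
                _ = _ := mul_one _
          _ = M := by field_simp, rfl⟩
      rw [hgc] at h1
      have h2 : ∑ ω, G ω (((M / nL2 G * ‖G ω‖ : ℝ) : 𝕜) • w ω) =
          ((∑ ω, M / nL2 G * ‖G ω‖ * τ ω : ℝ) : 𝕜) := by
        rw [RCLike.ofReal_sum]
        refine Finset.sum_congr rfl fun ω _ => ?_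
        rw [map_smul, hw2, smul_eq_mul, RCLike.ofReal_mul (_ * _)]
      rw [h2, ← RCLike.ofReal_mul, RCLike.ofReal_re] at h1
      have h3 : ∑ ω, M / nL2 G * ‖G ω‖ * (‖G ω‖ - η) ≤ ∑ ω, M / nL2 G * ‖G ω‖ * τ ω := by
        refine Finset.sum_le_sum fun ω _ => ?_
        gcongr
        exact hw3 ω
      have h4 : ∑ ω, M / nL2 G * ‖G ω‖ * (‖G ω‖ - η) =
          M * nL2 G - η * ((M / nL2 G) * ∑ s, ‖G s‖) := by
        have h5 : ∀ ω, M / nL2 G * ‖G ω‖ * (‖G ω‖ - η) =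
            M / nL2 G * ‖G ω‖ ^ 2 - η * (M / nL2 G) * ‖G ω‖ := fun ω => by ring
        rw [Finset.sum_congr rfl fun ω _ => h5 ω, Finset.sum_sub_distrib, ← Finset.mul_sum,
          ← Finset.mul_sum, ← nL2_sq]
        field_simp
      have h6 : (0 : ℝ) < (2 ^ n)⁻¹ := by positivity
      have h7 : (2 ^ n)⁻¹ * (M * nL2 G - η * ((M / nL2 G) * ∑ s, ‖G s‖)) ≤ t := by
        refine le_trans ?_ h1
        gcongr
        rw [← h4]
        exact h3
      linarith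
    have hlim : (2 ^ n)⁻¹ * (M * nL2 G) ≤ t := by
      set K : ℝ := (2 ^ n)⁻¹ * (M / nL2 G) * ∑ s, ‖G s‖ with hK
      have hK0 : 0 ≤ K := by positivity
      refine le_of_forall_pos_le_add fun ε hε => ?_
      refine (key (ε / (K + 1)) (by positivity)).trans ?_
      gcongr
      rw [div_mul_eq_mul_div, div_le_iff₀ (by positivity)]
      nlinarith
    refine le_trans ?_ hlim
    rw [hv1]
    refine (RCLike.re_le_norm _).trans ?_
    calc ‖∑ k, v k (x k)‖ ≤ ∑ k, ‖v k‖ * ‖x k‖ :=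
          (norm_sum_le _ _).trans (Finset.sum_le_sum fun k _ => (v k).le_opNorm _)
      _ ≤ √(∑ k, ‖v k‖ ^ 2) * √(∑ k, ‖x k‖ ^ 2) := Real.sum_mul_le_sqrt_mul_sqrt _ _ _
      _ ≤ ((√(2 ^ n))⁻¹ * (C * nL2 G)) * √(∑ k, ‖x k‖ ^ 2) := by
        gcongr
        refine Real.sqrt_le_iff.2 ⟨by positivity, ?_⟩
        rw [mul_pow, inv_pow, Real.sq_sqrt (by positivity), mul_pow,
          le_inv_mul_iff₀ (by positivity)]
        exact hcot
      _ = (2 ^ n)⁻¹ * (M * nL2 G) := by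
        rw [hM, Real.sqrt_mul (by positivity)]
        have h1 : (√(2 ^ n) : ℝ) ≠ 0 := (Real.sqrt_pos.2 (by positivity)).ne'
        have h2 : (2 : ℝ) ^ n = √(2 ^ n) * √(2 ^ n) := (Real.mul_self_sqrt (by positivity)).symm
        conv_rhs => rw [h2]
        rw [Real.sqrt_mul_self (Real.sqrt_nonneg _)]
        field_simp
  obtain ⟨c, ⟨f, hf, rfl⟩, hlt⟩ := exists_approx S hScvx x hv δ hδ
  refine ⟨f, hf, fun i => ?_⟩
  exact (norm_le_pi_norm (x - fun i => coef 𝕜 {i} f) i).trans_lt hlt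

/-- the Rademacher average of `u x_i` -/
theorem rad_bound {H : Type} [NormedAddCommGroup H] [InnerProductSpace 𝕜 H] {C : ℝ} (hC : 0 ≤ C)
    (hX : Cot (StrongDual 𝕜 X) C) (u : X →L[𝕜] Y) (a : X →L[𝕜] H) (b : H →L[𝕜] Y)
    (hu : u = b ∘L a) (ρ : ℝ) (hρ : 0 < ρ) (hρ1 : ρ ≤ 1) {n : ℕ} (x : Fin n → X) :
    nL2 (fun s : Cube n => ∑ i, ((sg (s i) : ℝ) : 𝕜) • u (x i)) ≤
      (‖u‖ * (2 / ρ) + ‖b‖ * (ρ * ‖a‖)) * (C * √(2 ^ n * ∑ i, ‖x i‖ ^ 2)) := by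
  refine le_of_forall_pos_le_add fun ε hε => ?_
  set L : ℝ := nL2 (fun _ : Cube n => (1 : ℝ)) with hL
  have hL0 : 0 ≤ L := nL2_nonneg _
  set δ : ℝ := ε / (n * ‖u‖ * L + 1) with hδ
  have hδ0 : 0 < δ := by positivity
  obtain ⟨f, hf1, hf2⟩ := exists_coef (𝕜 := 𝕜) hC hX x δ hδ0
  have h1 : (fun s : Cube n => ∑ i, ((sg (s i) : ℝ) : 𝕜) • u (x i)) =
      (fun s : Cube n => ∑ i, ((sg (s i) : ℝ) : 𝕜) • u (coef 𝕜 {i} f)) +
      fun s : Cube n => ∑ i, ((sg (s i) : ℝ) : 𝕜) • u (x i - coef 𝕜 {i} f) := by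
    funext s
    rw [Pi.add_apply, ← Finset.sum_add_distrib]
    refine Finset.sum_congr rfl fun i _ => ?_
    rw [← smul_add, ← map_add, add_sub_cancel]
  have h2 := star_bound u a b hu ρ hρ hρ1 f
  have h3 : nL2 (fun s : Cube n => ∑ i, ((sg (s i) : ℝ) : 𝕜) • u (x i - coef 𝕜 {i} f)) ≤
      (n * (‖u‖ * δ)) * L := by
    refine nL2_le_mul _ _ _ (by positivity) fun s => ?_
    rw [norm_one, mul_one]
    calc ‖∑ i, ((sg (s i) : ℝ) : 𝕜) • u (x i - coef 𝕜 {i} f)‖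
        ≤ ∑ i, ‖((sg (s i) : ℝ) : 𝕜) • u (x i - coef 𝕜 {i} f)‖ := norm_sum_le _ _
      _ ≤ ∑ _i : Fin n, ‖u‖ * δ := by
          refine Finset.sum_le_sum fun i _ => ?_
          rw [norm_smul, RCLike.norm_ofReal, abs_sg, one_mul]
          exact (u.le_opNorm _).trans (by gcongr; exact (hf2 i).le)
      _ = n * (‖u‖ * δ) := by
          rw [Finset.sum_const, Finset.card_univ, Fintype.card_fin, nsmul_eq_mul]
  rw [h1]
  refine (nL2_add_le _ _).trans (add_le_add (h2.trans (by gcongr)) (h3.trans ?_))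
  calc n * (‖u‖ * δ) * L = (n * ‖u‖ * L) * (ε / (n * ‖u‖ * L + 1)) := by rw [hδ]; ring
    _ ≤ ε := by
      rw [mul_div_assoc', div_le_iff₀ (by positivity)]
      nlinarith [mul_nonneg (mul_nonneg (Nat.cast_nonneg (α := ℝ) n) (norm_nonneg u)) hL0]

end cot

section rotation

variable {X Y : Type} [NormedAddCommGroup X] [NormedSpace 𝕜 X]
  [NormedAddCommGroup Y] [NormedSpace 𝕜 Y]

/-- `s ↦ ∑ conj(s_i) x_i` -/
noncomputable def Phi {N : ℕ} (x : Fin N → X) (s : EuclideanSpace 𝕜 (Fin N)) : X :=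
  ∑ i, conj (s i) • x i

/-- sign flips -/
noncomputable def flip (𝕜 : Type) [RCLike 𝕜] {N : ℕ} (ε : Cube N) :
    EuclideanSpace 𝕜 (Fin N) →ₗᵢ[𝕜] EuclideanSpace 𝕜 (Fin N) where
  toFun := fun s => WithLp.toLp 2 (fun i => ((sg (ε i) : ℝ) : 𝕜) * s i)
  map_add' := fun s t => by ext i; simp [mul_add]
  map_smul' := fun c s => by ext i; simp; ring
  norm_map' := fun s => by
    show ‖WithLp.toLp 2 (fun i => ((sg (ε i) : ℝ) : 𝕜) * s i)‖ = ‖s‖
    rw [EuclideanSpace.norm_eq, EuclideanSpace.norm_eq]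
    congr 1
    refine Finset.sum_congr rfl fun i _ => ?_
    rw [norm_mul, RCLike.norm_ofReal, abs_sg, one_mul]

lemma Phi_flip {N : ℕ} (x : Fin N → X) (ε : Cube N) (s : EuclideanSpace 𝕜 (Fin N)) :
    Phi x (flip 𝕜 ε s) = ∑ i, ((sg (ε i) : ℝ) : 𝕜) • (conj (s i) • x i) := by
  unfold Phi
  refine Finset.sum_congr rfl fun i _ => ?_
  show conj (((sg (ε i) : ℝ) : 𝕜) * s i) • x i = _
  rw [map_mul, RCLike.conj_ofReal, mul_smul]

lemma continuous_coord {N : ℕ} (i : Fin N) :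
    Continuous fun s : EuclideanSpace 𝕜 (Fin N) => s i := by fun_prop

lemma continuous_Phi {N : ℕ} (x : Fin N → X) :
    Continuous fun s : EuclideanSpace 𝕜 (Fin N) => Phi x s := by
  unfold Phi
  refine continuous_finsetSum _ fun i _ => ?_
  exact (RCLike.continuous_conj.comp (continuous_coord i)).smul continuous_const

/-- two systems with the same quadratic form differ by a rotation -/
theorem exists_rotation {N : ℕ} (x z : Fin N → X)
    (h : ∀ ξ : StrongDual 𝕜 X, ∑ i, ‖ξ (x i)‖ ^ 2 = ∑ i, ‖ξ (z i)‖ ^ 2) :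
    ∃ U : EuclideanSpace 𝕜 (Fin N) →ₗᵢ[𝕜] EuclideanSpace 𝕜 (Fin N),
      ∀ s, Phi z (U s) = Phi x s := by
  let A : StrongDual 𝕜 X →ₗ[𝕜] EuclideanSpace 𝕜 (Fin N) :=
    { toFun := fun ξ => WithLp.toLp 2 (fun i => ξ (x i))
      map_add' := fun ξ η => by ext i; simp
      map_smul' := fun c ξ => by ext i; simp }
  let B : StrongDual 𝕜 X →ₗ[𝕜] EuclideanSpace 𝕜 (Fin N) :=
    { toFun := fun ξ => WithLp.toLp 2 (fun i => ξ (z i))
      map_add' := fun ξ η => by ext i; simp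
      map_smul' := fun c ξ => by ext i; simp }
  have hAB : ∀ ξ, ‖B ξ‖ = ‖A ξ‖ := by
    intro ξ
    rw [EuclideanSpace.norm_eq, EuclideanSpace.norm_eq]
    congr 1
    exact (h ξ).symm
  have hker : LinearMap.ker A ≤ LinearMap.ker B := by
    intro ξ hξ
    rw [LinearMap.mem_ker] at hξ ⊢
    rw [← norm_eq_zero, hAB, hξ, norm_zero]
  let L : LinearMap.range A →ₗ[𝕜] EuclideanSpace 𝕜 (Fin N) :=
    ((LinearMap.ker A).liftQ B hker) ∘ₗ (A.quotKerEquivRange.symm : LinearMap.range A →ₗ[𝕜] _)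
  have hL : ∀ ξ, L ⟨A ξ, LinearMap.mem_range_self A ξ⟩ = B ξ := by
    intro ξ
    show ((LinearMap.ker A).liftQ B hker) (A.quotKerEquivRange.symm ⟨A ξ, _⟩) = B ξ
    have : A.quotKerEquivRange.symm ⟨A ξ, LinearMap.mem_range_self A ξ⟩ =
        Submodule.Quotient.mk ξ := by
      rw [LinearEquiv.symm_apply_eq]
      rfl
    rw [this]
    rfl
  have hLn : ∀ y, ‖L y‖ = ‖y‖ := by
    rintro ⟨_, ξ, rfl⟩
    rw [hL, hAB]
    rfl
  let L' : LinearMap.range A →ₗᵢ[𝕜] EuclideanSpace 𝕜 (Fin N) := ⟨L, hLn⟩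
  refine ⟨L'.extend, fun s => ?_⟩
  have hU : ∀ ξ, L'.extend (A ξ) = B ξ := by
    intro ξ
    have := L'.extend_apply ⟨A ξ, LinearMap.mem_range_self A ξ⟩
    rw [← hL ξ]
    exact this
  rw [SeparatingDual.eq_iff_forall_dual_eq (R := 𝕜)]
  intro ξ
  have hA : ∀ s, ξ (Phi x s) = inner 𝕜 s (A ξ) := by
    intro s
    unfold Phi
    rw [map_sum, PiLp.inner_apply]
    refine Finset.sum_congr rfl fun i _ => ?_
    rw [map_smul, smul_eq_mul, RCLike.inner_apply, mul_comm]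
    rfl
  have hB : ∀ s, ξ (Phi z s) = inner 𝕜 s (B ξ) := by
    intro s
    unfold Phi
    rw [map_sum, PiLp.inner_apply]
    refine Finset.sum_congr rfl fun i _ => ?_
    rw [map_smul, smul_eq_mul, RCLike.inner_apply, mul_comm]
    rfl
  rw [hB, hA, ← hU ξ, LinearIsometry.inner_map_map]

/-- the criterion from Rademacher averages -/
theorem crit_aux {K C : ℝ} (hY : Cot Y C) (u : X →L[𝕜] Y)
    (hu : ∀ (n : ℕ) (x : Fin n → X),
      nL2 (fun s : Cube n => ∑ i, ((sg (s i) : ℝ) : 𝕜) • u (x i)) ≤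
        K * √(2 ^ n * ∑ i, ‖x i‖ ^ 2)) {N : ℕ} (x z : Fin N → X)
    (h : ∀ ξ : StrongDual 𝕜 X, ∑ i, ‖ξ (x i)‖ ^ 2 = ∑ i, ‖ξ (z i)‖ ^ 2) :
    ∑ i, ‖u (z i)‖ ^ 2 ≤ (C * K) ^ 2 * ∑ i, ‖x i‖ ^ 2 := by
  rcases Nat.eq_zero_or_pos N with hN | hN
  · subst hN; simp
  obtain ⟨J, hJmono, hJsum, hJsmul, hJinv, hJpos⟩ := exists_mean 𝕜 N hN
  obtain ⟨U, hU⟩ := exists_rotation x z h
  -- the coordinates
  have hcoord : ∀ i : Fin N, Continuous fun s : EuclideanSpace 𝕜 (Fin N) => ‖s i‖ ^ 2 :=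
    fun i => (continuous_coord i).norm.pow 2
  set m : ℝ := J (fun s => ‖s ⟨0, hN⟩‖ ^ 2) with hm
  have hmi : ∀ i : Fin N, J (fun s => ‖s i‖ ^ 2) = m := by
    intro i
    let V := (LinearIsometryEquiv.piLpCongrLeft 2 𝕜 𝕜
      (Equiv.swap (⟨0, hN⟩ : Fin N) i)).toLinearIsometry
    have h1 := hJinv V (fun s => ‖s i‖ ^ 2)
    rw [← h1, hm]
    congr 1
    funext s
    show ‖(LinearIsometryEquiv.piLpCongrLeft 2 𝕜 𝕜
      (Equiv.swap (⟨0, hN⟩ : Fin N) i)) s i‖ ^ 2 = _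
    simp [LinearIsometryEquiv.piLpCongrLeft_apply, Equiv.piCongrLeft']
  have hmpos : 0 < m := by
    have h1 : J (fun s => ‖s‖ ^ 2) = N * m := by
      have h2 : (fun s : EuclideanSpace 𝕜 (Fin N) => ‖s‖ ^ 2) =
          fun s => ∑ i, ‖s i‖ ^ 2 := by
        funext s
        rw [EuclideanSpace.norm_eq, Real.sq_sqrt (by positivity)]
      rw [h2, hJsum (Fin N) Finset.univ (fun i s => ‖s i‖ ^ 2) hcoord,
        Finset.sum_congr rfl fun i _ => hmi i]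
      simp
    rw [h1] at hJpos
    have hN' : (0 : ℝ) < N := by exact_mod_cast hN
    exact (mul_pos_iff_of_pos_left hN').1 hJpos
  -- the quadratic functions
  set g : (Fin N → X) → EuclideanSpace 𝕜 (Fin N) → ℝ := fun w s => ‖u (Phi w s)‖ ^ 2 with hg
  have hgc : ∀ w, Continuous (g w) := fun w => (u.continuous.comp (continuous_Phi w)).norm.pow 2
  have hgU : J (g z) = J (g x) := by
    rw [← hJinv U (g z)]
    congr 1
    funext s
    show ‖u (Phi z (U s))‖ ^ 2 = ‖u (Phi x s)‖ ^ 2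
    rw [hU]
  have hsign : ∀ w, 2 ^ N * J (g w) = J (fun s => ∑ ε : Cube N, g w (flip 𝕜 ε s)) := by
    intro w
    rw [hJsum (Cube N) Finset.univ (fun ε s => g w (flip 𝕜 ε s))
      (fun ε => (hgc w).comp (flip 𝕜 ε).continuous)]
    rw [Finset.sum_congr rfl fun ε _ => hJinv (flip 𝕜 ε) (g w)]
    rw [Finset.sum_const, Finset.card_univ, nsmul_eq_mul]
    congr 1
    simp [Cube]
  have hsq : ∀ w s, ∑ ε : Cube N, g w (flip 𝕜 ε s) =
      nL2 (fun ε : Cube N => ∑ i, ((sg (ε i) : ℝ) : 𝕜) • u (conj (s i) • w i)) ^ 2 := by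
    intro w s
    rw [nL2_sq]
    refine Finset.sum_congr rfl fun ε _ => ?_
    show ‖u (Phi w (flip 𝕜 ε s))‖ ^ 2 = _
    rw [Phi_flip, map_sum]
    simp only [map_smul]
  have hnc : ∀ (V : Type) [NormedAddCommGroup V] [NormedSpace 𝕜 V] (c : 𝕜) (v : V),
      ‖conj c • v‖ ^ 2 = ‖v‖ ^ 2 * ‖c‖ ^ 2 := by
    intro V _ _ c v
    rw [norm_smul, RCLike.norm_conj, mul_pow, mul_comm]
  have hJw : ∀ (c : ℝ) (w : Fin N → ℝ),
      J (fun s => c * ∑ i, w i * ‖s i‖ ^ 2) = c * ((∑ i, w i) * m) := by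
    intro c w
    rw [hJsmul, hJsum (Fin N) Finset.univ (fun i s => w i * ‖s i‖ ^ 2)
      (fun i => continuous_const.mul (hcoord i)), Finset.sum_mul]
    congr 1
    refine Finset.sum_congr rfl fun i _ => ?_
    rw [hJsmul, hmi]
  have hcw : ∀ (c : ℝ) (w : Fin N → ℝ), Continuous
      (fun s : EuclideanSpace 𝕜 (Fin N) => c * ∑ i, w i * ‖s i‖ ^ 2) := fun c w =>
    continuous_const.mul (continuous_finsetSum _ fun i _ => continuous_const.mul (hcoord i))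
  have hcs : ∀ w, Continuous (fun s => ∑ ε : Cube N, g w (flip 𝕜 ε s)) := fun w =>
    continuous_finsetSum _ fun ε _ => (hgc w).comp (flip 𝕜 ε).continuous
  -- upper bound
  have hup : 2 ^ N * J (g x) ≤ (K ^ 2 * 2 ^ N) * ((∑ i, ‖x i‖ ^ 2) * m) := by
    rw [hsign x, ← hJw]
    refine hJmono _ _ (hcs x) (hcw _ _) fun s => ?_
    rw [hsq]
    calc nL2 (fun ε : Cube N => ∑ i, ((sg (ε i) : ℝ) : 𝕜) • u (conj (s i) • x i)) ^ 2
        ≤ (K * √(2 ^ N * ∑ i, ‖conj (s i) • x i‖ ^ 2)) ^ 2 := by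
          gcongr
          · exact nL2_nonneg _
          · exact hu N _
      _ = (K ^ 2 * 2 ^ N) * ∑ i, ‖x i‖ ^ 2 * ‖s i‖ ^ 2 := by
          rw [mul_pow, Real.sq_sqrt (by positivity)]
          simp only [hnc]
          ring
  -- lower bound
  have hlow : 2 ^ N * ((∑ i, ‖u (z i)‖ ^ 2) * m) ≤ C ^ 2 * (2 ^ N * J (g z)) := by
    rw [hsign z, ← hJw, ← hJsmul]
    refine hJmono _ _ (hcw _ _) (continuous_const.mul (hcs z)) fun s => ?_
    rw [hsq]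
    have h1 := hY.ineq 𝕜 (fun i => u (conj (s i) • z i))
    have h2 : ∑ i, ‖u (conj (s i) • z i)‖ ^ 2 = ∑ i, ‖u (z i)‖ ^ 2 * ‖s i‖ ^ 2 := by
      refine Finset.sum_congr rfl fun i _ => ?_
      rw [map_smul, hnc]
    rw [h2] at h1
    exact h1
  rw [hgU] at hlow
  have h2N : (0 : ℝ) < 2 ^ N := by positivity
  have h3 : 2 ^ N * ((∑ i, ‖u (z i)‖ ^ 2) * m) ≤
      C ^ 2 * ((K ^ 2 * 2 ^ N) * ((∑ i, ‖x i‖ ^ 2) * m)) :=
    hlow.trans (by gcongr)
  have h4 : (2 ^ N * m) * ∑ i, ‖u (z i)‖ ^ 2 ≤ (2 ^ N * m) * ((C * K) ^ 2 * ∑ i, ‖x i‖ ^ 2) := by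
    calc (2 ^ N * m) * ∑ i, ‖u (z i)‖ ^ 2 = 2 ^ N * ((∑ i, ‖u (z i)‖ ^ 2) * m) := by ring
      _ ≤ _ := h3
      _ = _ := by ring
  exact le_of_mul_le_mul_left h4 (by positivity)

theorem crit_of_rad {K C : ℝ} (hY : Cot Y C) (u : X →L[𝕜] Y)
    (hu : ∀ (n : ℕ) (x : Fin n → X),
      nL2 (fun s : Cube n => ∑ i, ((sg (s i) : ℝ) : 𝕜) • u (x i)) ≤
        K * √(2 ^ n * ∑ i, ‖x i‖ ^ 2)) : Crit u (C * K) := by
  intro p q x z hxz
  have key := crit_aux hY u hu (N := p + q) (Fin.append x (fun _ => 0))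
    (Fin.append (fun _ => 0) z) (fun ξ => by
      rw [Fin.sum_univ_add, Fin.sum_univ_add]
      simp only [Fin.append_left, Fin.append_right, map_zero, norm_zero]
      simpa using hxz ξ)
  rw [Fin.sum_univ_add, Fin.sum_univ_add] at key
  simp only [Fin.append_left, Fin.append_right, map_zero, norm_zero] at key
  simpa using key

end rotation

end Pool.Agent.H47.OpIdeal
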