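import Pool.Agent.H47.OpIdeal.TraceBound
import Pool.Agent.H47.OpIdeal.Pisier

/-!
# The answer to Q1 of MP_df739d_an
-/

set_option autoImplicit false
set_option maxSynthPendingDepth 3

open scoped ENNReal Topology
open Filter NormedSpace

namespace Pool.Agent.H47.OpIdeal

variable {𝕜 : Type} [RCLike 𝕜]

section

variable {X Y : Type} [NormedAddCommGroup X] [NormedSpace 𝕜 X]
  [NormedAddCommGroup Y] [NormedSpace 𝕜 Y]

/-- factorisation through a Hilbert space with constant `D` -/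
def Gam (u : X →L[𝕜] Y) (D : ℝ) : Prop :=
  ∃ (H : Type) (_ : NormedAddCommGroup H) (_ : InnerProductSpace 𝕜 H)
    (a : X →L[𝕜] H) (b : H →L[𝕜] Y), ‖b‖ * ‖a‖ ≤ D ∧ u = b ∘L a

lemma Gam.mono {u : X →L[𝕜] Y} {D D' : ℝ} (h : Gam u D) (hD : D ≤ D') : Gam u D' := by
  obtain ⟨H, i1, i2, a, b, h1, h2⟩ := h
  exact ⟨H, i1, i2, a, b, h1.trans hD, h2⟩

lemma Gam.of_crit [CompleteSpace Y] {u : X →L[𝕜] Y} {D : ℝ} (hD : 0 ≤ D) (h : Crit u D) :
    Gam u D := by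
  obtain ⟨H, i1, i2, _, a, b, h1, h2, h3⟩ := h.factor u D hD
  refine ⟨H, i1, i2, a, b, ?_, h3⟩
  calc ‖b‖ * ‖a‖ ≤ 1 * D := by gcongr
    _ = D := one_mul D

lemma Crit.mono {u : X →L[𝕜] Y} {C C' : ℝ} (h : Crit u C) (h0 : 0 ≤ C) (hC : C ≤ C') :
    Crit u C' := fun p q x z hxz => (h p q x z hxz).trans (by gcongr)

lemma Gam.of_FR {u : X →L[𝕜] Y} (hu : u ∈ FR 𝕜 X Y) : ∃ D, 0 ≤ D ∧ Gam u D := by
  have h1 : ∃ N : Submodule 𝕜 Y, FiniteDimensional 𝕜 N ∧ ∀ x, u x ∈ N := by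
    induction hu using Submodule.span_induction with
    | mem u h =>
      obtain ⟨ξ, y, rfl⟩ := h
      refine ⟨Submodule.span 𝕜 {y}, inferInstance, fun x => ?_⟩
      rw [ContinuousLinearMap.smulRight_apply]
      exact Submodule.smul_mem _ _ (Submodule.mem_span_singleton_self y)
    | zero => exact ⟨⊥, inferInstance, fun x => by simp⟩
    | add u v _ _ hu hv =>
      obtain ⟨N, hN, h1⟩ := hu
      obtain ⟨M, hM, h2⟩ := hv
      refine ⟨N ⊔ M, Submodule.finiteDimensional_sup _ _, fun x => ?_⟩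
      exact Submodule.add_mem_sup (h1 x) (h2 x)
    | smul c u _ hu =>
      obtain ⟨N, hN, h1⟩ := hu
      exact ⟨N, hN, fun x => N.smul_mem c (h1 x)⟩
  obtain ⟨N, hN, hmem⟩ := h1
  let e : N ≃L[𝕜] EuclideanSpace 𝕜 (Fin (Module.finrank 𝕜 N)) :=
    ContinuousLinearEquiv.ofFinrankEq (by simp)
  let a : X →L[𝕜] EuclideanSpace 𝕜 (Fin (Module.finrank 𝕜 N)) :=
    (e : N →L[𝕜] EuclideanSpace 𝕜 (Fin (Module.finrank 𝕜 N))) ∘L u.codRestrict N hmem
  let b : EuclideanSpace 𝕜 (Fin (Module.finrank 𝕜 N)) →L[𝕜] Y :=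
    N.subtypeL ∘L (e.symm : EuclideanSpace 𝕜 (Fin (Module.finrank 𝕜 N)) →L[𝕜] N)
  refine ⟨‖b‖ * ‖a‖, by positivity, EuclideanSpace 𝕜 (Fin (Module.finrank 𝕜 N)), inferInstance,
    inferInstance, a, b, le_rfl, ?_⟩
  ext x
  show u x = ((e.symm (e (u.codRestrict N hmem x)) : N) : Y)
  rw [e.symm_apply_apply]
  rfl

/-- one step of the iteration -/
lemma Gam.step {Cx Cy : ℝ} (hCx : 1 ≤ Cx) (hX : Cot (StrongDual 𝕜 X) Cx) (hCy : 1 ≤ Cy)
    (hY : Cot Y Cy) {u : X →L[𝕜] Y} {D : ℝ} (h : Gam u D) :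
    Crit u (4 * (Cx * Cy) ^ 2 * ‖u‖ + D / 2) := by
  obtain ⟨H, i1, i2, a, b, hab, hu⟩ := h
  have hK1 : 1 ≤ Cx * Cy := one_le_mul_of_one_le_of_one_le hCx hCy
  set K := Cx * Cy with hK
  have hK0 : 0 < K := by linarith
  have hCx0 : 0 < Cx := by linarith
  have hCy0 : 0 < Cy := by linarith
  set ρ : ℝ := 1 / (2 * K) with hρ
  have hρ0 : 0 < ρ := by positivity
  have hρ1 : ρ ≤ 1 := by
    rw [hρ, div_le_one (by positivity)]
    linarith
  have h1 : Crit u (Cy * ((‖u‖ * (2 / ρ) + ‖b‖ * (ρ * ‖a‖)) * Cx)) := by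
    refine crit_of_rad hY u fun n x => ?_
    have h2 := rad_bound (𝕜 := 𝕜) hCx0.le hX u a b hu ρ hρ0 hρ1 x
    rw [mul_assoc]
    exact h2
  refine h1.mono (by positivity) ?_
  calc Cy * ((‖u‖ * (2 / ρ) + ‖b‖ * (ρ * ‖a‖)) * Cx)
      = K * (‖u‖ * (2 / ρ)) + K * ρ * (‖b‖ * ‖a‖) := by rw [hK]; ring
    _ ≤ K * (‖u‖ * (2 / ρ)) + K * ρ * D := by gcongr
    _ = 4 * K ^ 2 * ‖u‖ + D / 2 := by
      rw [hρ]
      field_simp
      ring

/-- Pisier's estimate for operators of finite rank -/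
theorem crit_of_FR [CompleteSpace Y] {Cx Cy : ℝ} (hCx : 1 ≤ Cx) (hX : Cot (StrongDual 𝕜 X) Cx)
    (hCy : 1 ≤ Cy) (hY : Cot Y Cy) {u : X →L[𝕜] Y} (hu : u ∈ FR 𝕜 X Y) :
    Crit u (8 * (Cx * Cy) ^ 2 * ‖u‖) := by
  obtain ⟨D, hD, hG⟩ := Gam.of_FR hu
  set c : ℝ := 8 * (Cx * Cy) ^ 2 * ‖u‖ with hc
  have hc0 : 0 ≤ c := by positivity
  have hind : ∀ k : ℕ, Gam u (c + D * (1 / 2) ^ k) := by
    intro k
    induction k with
    | zero => exact hG.mono (by simpa using hc0)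
    | succ k ih =>
      have h1 := Gam.step hCx hX hCy hY ih
      refine Gam.of_crit (by positivity) ?_
      have h2 : c + D * (1 / 2) ^ (k + 1) =
          4 * (Cx * Cy) ^ 2 * ‖u‖ + (c + D * (1 / 2) ^ k) / 2 := by
        rw [hc, pow_succ]; ring
      rw [h2]
      exact h1
  intro p q x z hxz
  have hk : ∀ k : ℕ, ∑ j, ‖u (z j)‖ ^ 2 ≤ (c + D * (1 / 2) ^ (k + 1)) ^ 2 * ∑ i, ‖x i‖ ^ 2 := by
    intro k
    have h1 := Gam.step hCx hX hCy hY (hind k) p q x z hxz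
    have h2 : c + D * (1 / 2) ^ (k + 1) =
        4 * (Cx * Cy) ^ 2 * ‖u‖ + (c + D * (1 / 2) ^ k) / 2 := by
      rw [hc, pow_succ]; ring
    rw [h2]
    exact h1
  have hlim : Tendsto (fun k : ℕ => (c + D * (1 / 2 : ℝ) ^ (k + 1)) ^ 2 * ∑ i, ‖x i‖ ^ 2) atTop
      (𝓝 ((c + D * 0) ^ 2 * ∑ i, ‖x i‖ ^ 2)) := by
    have h1 : Tendsto (fun k : ℕ => (1 / 2 : ℝ) ^ (k + 1)) atTop (𝓝 0) :=
      (tendsto_pow_atTop_nhds_zero_of_lt_one (by norm_num) (by norm_num)).comp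
        (tendsto_add_atTop_nat 1)
    exact (((h1.const_mul D).const_add c).pow 2).mul_const _
  have h3 := ge_of_tendsto' hlim hk
  simpa using h3

/-- Pisier's theorem for limits of operators of finite rank -/
theorem factors_of_approx [CompleteSpace X] [CompleteSpace Y]
    (hX : HasCotypeTwo (StrongDual 𝕜 X)) (hY : HasCotypeTwo Y) (T₀ : X →L[𝕜] Y) (b : ℝ)
    (hb : 0 ≤ b) (happ : ∀ (r d : ℕ) (y' : Fin r → StrongDual 𝕜 Y) (x : Fin d → X) (δ : ℝ),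
      0 < δ → ∃ V ∈ FR 𝕜 X Y, ‖V‖ ≤ b ∧ ∀ i j, ‖y' i (V (x j)) - y' i (T₀ (x j))‖ < δ) :
    FactorsThroughHilbert T₀ := by
  obtain ⟨Cx, hCx, hX'⟩ := hX.cot
  obtain ⟨Cy, hCy, hY'⟩ := hY.cot
  set c : ℝ := 8 * (Cx * Cy) ^ 2 * b with hc
  have hc0 : 0 ≤ c := by positivity
  have hcrit : Crit T₀ c := by
    intro p q x z hxz
    choose g hg1 hg2 using fun j : Fin q => exists_dual_vector'' 𝕜 (T₀ (z j))
    set S : ℝ := √(∑ i, ‖x i‖ ^ 2) with hS
    set L : ℝ := nL2 (fun _ : Fin q => (1 : ℝ)) with hL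
    have hL0 : 0 ≤ L := nL2_nonneg _
    have hmain : nL2 (fun j => T₀ (z j)) ≤ c * S := by
      refine le_of_forall_pos_le_add fun ε hε => ?_
      set δ : ℝ := ε / (L + 1) with hδ
      have hδ0 : 0 < δ := by positivity
      obtain ⟨V, hVF, hVn, hV⟩ := happ q q g z δ hδ0
      have h1 := crit_of_FR hCx hX' hCy hY' hVF p q x z hxz
      have h2 : nL2 (fun j => V (z j)) ≤ c * S := by
        refine Real.sqrt_le_iff.2 ⟨by positivity, ?_⟩
        rw [mul_pow, hS, Real.sq_sqrt (by positivity)]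
        refine h1.trans ?_
        rw [hc]
        gcongr
      have h3 : ∀ j, ‖T₀ (z j)‖ ≤ ‖V (z j)‖ + δ := by
        intro j
        have h4 : ‖T₀ (z j)‖ = ‖g j (T₀ (z j))‖ := by
          rw [hg2, RCLike.norm_ofReal, abs_norm]
        rw [h4]
        have h5 : ‖g j (V (z j))‖ ≤ ‖V (z j)‖ := by
          calc ‖g j (V (z j))‖ ≤ ‖g j‖ * ‖V (z j)‖ := (g j).le_opNorm _
            _ ≤ 1 * ‖V (z j)‖ := by gcongr; exact hg1 j
            _ = _ := one_mul _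
        have h6 := hV j j
        have h7 : ‖g j (T₀ (z j))‖ ≤ ‖g j (V (z j))‖ + ‖g j (V (z j)) - g j (T₀ (z j))‖ := by
          have := norm_sub_le (g j (V (z j))) (g j (V (z j)) - g j (T₀ (z j)))
          rwa [sub_sub_cancel] at this
        linarith
      have h8 : nL2 (fun j => T₀ (z j)) ≤
          nL2 ((fun j => ‖V (z j)‖) + fun _ : Fin q => δ) := by
        have := nL2_le_mul (fun j => T₀ (z j)) ((fun j => ‖V (z j)‖) + fun _ : Fin q => δ) 1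
          zero_le_one fun j => by
            rw [one_mul, Pi.add_apply, Real.norm_of_nonneg (by positivity)]
            exact h3 j
        rwa [one_mul] at this
      have h9 : nL2 (fun j => ‖V (z j)‖) = nL2 (fun j => V (z j)) := by
        unfold nL2; simp
      have h10 : nL2 (fun _ : Fin q => δ) ≤ δ * L := nL2_le_mul _ _ _ hδ0.le fun j => by
        rw [norm_one, mul_one, Real.norm_of_nonneg hδ0.le]
      calc nL2 (fun j => T₀ (z j)) ≤ nL2 (fun j => ‖V (z j)‖) + nL2 (fun _ : Fin q => δ) :=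
            h8.trans (nL2_add_le _ _)
        _ ≤ c * S + δ * L := by rw [h9]; exact add_le_add h2 h10
        _ ≤ c * S + ε := by
            gcongr
            rw [hδ, div_mul_eq_mul_div, div_le_iff₀ (by positivity)]
            nlinarith
    calc ∑ j, ‖T₀ (z j)‖ ^ 2 = nL2 (fun j => T₀ (z j)) ^ 2 := (nL2_sq _).symm
      _ ≤ (c * S) ^ 2 := pow_le_pow_left₀ (nL2_nonneg _) hmain 2
      _ = c ^ 2 * ∑ i, ‖x i‖ ^ 2 := by rw [mul_pow, hS, Real.sq_sqrt (by positivity)]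
  obtain ⟨H, i1, i2, i3, a, b', -, -, h⟩ := hcrit.factor T₀ c hc0
  exact ⟨H, i1, i2, i3, a, b', h⟩

end

/-- the main theorem -/
theorem adj_factors (B : BanachIdeal 𝕜) (hmax : B.IsMaximal) (hI : B.PropertyI) (hLRP : B.LRP)
    {X Y : Type} [NormedAddCommGroup X] [NormedSpace 𝕜 X] [CompleteSpace X]
    [NormedAddCommGroup Y] [NormedSpace 𝕜 Y] [CompleteSpace Y]
    (hX : HasCotypeTwo (StrongDual 𝕜 X)) (hY : HasCotypeTwo Y) (T₀ : X →L[𝕜] Y)
    (hT₀ : B.adjNrm T₀ < ∞) : FactorsThroughHilbert T₀ := by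
  set b : ℝ := (B.adjNrm T₀).toReal + 1 with hb
  have hb0 : 0 < b := by positivity
  have hle : B.adjNrm T₀ ≤ ENNReal.ofReal b := by
    rw [← ENNReal.ofReal_toReal hT₀.ne]
    exact ENNReal.ofReal_le_ofReal (by linarith)
  exact factors_of_approx hX hY T₀ b hb0.le fun r d y' x δ hδ =>
    approx_FR B hmax hI hLRP T₀ b hb0 hle y' x δ hδ

end Pool.Agent.H47.OpIdeal
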