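import Pool.Agent.H47.OpIdeal.Sep

/-!
# Hahn-Banach extension through a linear map, and the (approximate) principle of local
reflexivity
-/

set_option autoImplicit false
set_option maxSynthPendingDepth 3

open scoped ENNReal Topology
open Filter NormedSpace

namespace Pool.Agent.H47.OpIdeal

variable {𝕜 : Type} [RCLike 𝕜]

/-- Hahn-Banach theorem for a functional dominated by `K ‖ι v‖`. -/
theorem extend_through {V V₁ : Type} [AddCommGroup V] [Module 𝕜 V]
    [NormedAddCommGroup V₁] [NormedSpace 𝕜 V₁] (ι : V →ₗ[𝕜] V₁) (f : V →ₗ[𝕜] 𝕜) (K : ℝ)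
    (hK : 0 ≤ K) (hf : ∀ v, ‖f v‖ ≤ K * ‖ι v‖) :
    ∃ g : StrongDual 𝕜 V₁, ‖g‖ ≤ K ∧ ∀ v, g (ι v) = f v := by
  have hker : LinearMap.ker ι ≤ LinearMap.ker f := by
    intro v hv
    rw [LinearMap.mem_ker] at hv ⊢
    have := hf v
    rw [hv, norm_zero, mul_zero] at this
    exact norm_le_zero_iff.1 this
  let h : LinearMap.range ι →ₗ[𝕜] 𝕜 :=
    ((LinearMap.ker ι).liftQ f hker) ∘ₗ (ι.quotKerEquivRange.symm : LinearMap.range ι →ₗ[𝕜] _)
  have hh : ∀ v, h ⟨ι v, LinearMap.mem_range_self ι v⟩ = f v := by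
    intro v
    show ((LinearMap.ker ι).liftQ f hker) (ι.quotKerEquivRange.symm ⟨ι v, _⟩) = f v
    rw [LinearMap.quotKerEquivRange_symm_apply_image]
    simp
  have hb : ∀ y : LinearMap.range ι, ‖h y‖ ≤ K * ‖y‖ := by
    rintro ⟨_, v, rfl⟩
    rw [hh v]
    exact hf v
  obtain ⟨g, hg1, hg2⟩ := exists_extension_norm_eq (LinearMap.range ι) (h.mkContinuous K hb)
  refine ⟨g, ?_, fun v => ?_⟩
  · rw [hg2]; exact LinearMap.mkContinuous_norm_le _ hK _
  · have := hg1 ⟨ι v, LinearMap.mem_range_self ι v⟩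
    rw [this]
    exact hh v

/-- almost norming vectors -/
theorem exists_norming {W : Type} [NormedAddCommGroup W] [NormedSpace 𝕜 W]
    (φ : StrongDual 𝕜 W) (η : ℝ) (hη : 0 < η) :
    ∃ w : W, ‖w‖ ≤ 1 ∧ ∃ t : ℝ, φ w = (t : 𝕜) ∧ ‖φ‖ - η ≤ t := by
  obtain ⟨x, hx1, hx2⟩ := φ.exists_lt_apply_of_lt_opNorm (show ‖φ‖ - η < ‖φ‖ by linarith)
  by_cases h0 : φ x = 0
  · refine ⟨x, hx1.le, 0, by simpa using h0, ?_⟩
    rw [h0, norm_zero] at hx2
    exact hx2.le
  · refine ⟨((‖φ x‖ : 𝕜) / φ x) • x, ?_, ‖φ x‖, ?_, hx2.le⟩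
    · rw [norm_smul, norm_div, RCLike.norm_ofReal, abs_norm, div_self (norm_ne_zero_iff.2 h0),
        one_mul]
      exact hx1.le
    · rw [map_smul, smul_eq_mul, div_mul_cancel₀ _ h0]

/-- a functional on a finite product with the sup norm -/
theorem functional_pi {W : Type} [NormedAddCommGroup W] [NormedSpace 𝕜 W] {m : ℕ}
    (g : StrongDual 𝕜 (Fin m → W)) :
    ∃ v : Fin m → StrongDual 𝕜 W, (∀ w, g w = ∑ k, v k (w k)) ∧ ∑ k, ‖v k‖ ≤ ‖g‖ := by
  classical
  let v : Fin m → StrongDual 𝕜 W := fun k => g ∘L (ContinuousLinearMap.single 𝕜 (fun _ => W) k)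
  have hv : ∀ w, g w = ∑ k, v k (w k) := by
    intro w
    conv_lhs => rw [show w = ∑ k, Pi.single k (w k) from (Finset.univ_sum_single w).symm, map_sum]
    rfl
  refine ⟨v, hv, ?_⟩
  refine le_of_forall_pos_le_add fun η hη => ?_
  choose w hw1 t hw2 hw3 using fun k => exists_norming (v k) (η / (m + 1)) (by positivity)
  have h1 : g w = ((∑ k, t k : ℝ) : 𝕜) := by
    rw [hv w, RCLike.ofReal_sum]
    exact Finset.sum_congr rfl fun k _ => hw2 k
  have h2 : ‖g w‖ ≤ ‖g‖ := by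
    refine (g.le_opNorm w).trans ?_
    have : ‖w‖ ≤ 1 := (pi_norm_le_iff_of_nonneg zero_le_one).2 hw1
    calc ‖g‖ * ‖w‖ ≤ ‖g‖ * 1 := by gcongr
      _ = ‖g‖ := mul_one _
  have h3 : ∑ k, t k ≤ ‖g‖ := by
    refine le_trans ?_ h2
    rw [h1, RCLike.norm_ofReal]
    exact le_abs_self _
  have h4 : ∑ k, ‖v k‖ ≤ ∑ k, (t k + η / (m + 1)) :=
    Finset.sum_le_sum fun k _ => by linarith [hw3 k]
  have h5 : (m : ℝ) * (η / (m + 1)) ≤ η := by
    rw [mul_div_assoc', div_le_iff₀ (by positivity)]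
    nlinarith
  calc ∑ k, ‖v k‖ ≤ ∑ k, (t k + η / (m + 1)) := h4
    _ = ∑ k, t k + m * (η / (m + 1)) := by
      rw [Finset.sum_add_distrib, Finset.sum_const, Finset.card_univ, Fintype.card_fin,
        nsmul_eq_mul]
    _ ≤ ‖g‖ + η := by linarith

/-- an almost norming finite subset of the unit ball of a finite-dimensional space -/
theorem exists_net (E : Type) [NormedAddCommGroup E] [NormedSpace 𝕜 E]
    [FiniteDimensional 𝕜 E] (δ : ℝ) (hδ : 0 < δ) :
    ∃ (m : ℕ) (c : Fin m → E), (∀ k, ‖c k‖ ≤ 1) ∧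
      ∀ (W : Type) [NormedAddCommGroup W] [NormedSpace 𝕜 W] (S : E →L[𝕜] W) (M : ℝ), 0 ≤ M →
        (∀ k, ‖S (c k)‖ ≤ M) → ‖S‖ ≤ (1 + δ) * M := by
  have hpr : ProperSpace E := FiniteDimensional.proper_rclike 𝕜 E
  have hη : 0 < δ / (1 + δ) := by positivity
  obtain ⟨t, hts, htf, htc⟩ := finite_cover_balls_of_compact
    (isCompact_closedBall (0 : E) 1) hη
  obtain ⟨m, c, hc⟩ := htf.fin_embedding
  have hrange : Set.range c = t := hc
  refine ⟨m, c, fun k => ?_, ?_⟩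
  · have : c k ∈ t := hrange ▸ Set.mem_range_self k
    simpa using hts this
  · intro W _ _ S M hM hS
    have key : ∀ x : E, ‖x‖ = 1 → ‖S x‖ ≤ M + δ / (1 + δ) * ‖S‖ := by
      intro x hx
      have hx1 : x ∈ Metric.closedBall (0 : E) 1 := by simp [hx]
      obtain ⟨y, hy, hxy⟩ := Set.mem_iUnion₂.1 (htc hx1)
      rw [← hrange] at hy
      obtain ⟨k, rfl⟩ := hy
      rw [Metric.mem_ball, dist_eq_norm] at hxy
      calc ‖S x‖ = ‖S (c k) + S (x - c k)‖ := by rw [← map_add]; congr 2; abel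
        _ ≤ ‖S (c k)‖ + ‖S (x - c k)‖ := norm_add_le _ _
        _ ≤ M + ‖S‖ * ‖x - c k‖ := add_le_add (hS k) (S.le_opNorm _)
        _ ≤ M + ‖S‖ * (δ / (1 + δ)) := by gcongr
        _ = _ := by ring
    have h1 : ‖S‖ ≤ M + δ / (1 + δ) * ‖S‖ := by
      refine S.opNorm_le_bound (by positivity) fun x => ?_
      by_cases hx : x = 0
      · subst hx; simp
      have h2 := key (((‖x‖⁻¹ : ℝ) : 𝕜) • x) (by
        rw [norm_smul, RCLike.norm_ofReal, abs_of_nonneg (by positivity),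
          inv_mul_cancel₀ (norm_ne_zero_iff.2 hx)])
      rw [map_smul, norm_smul, RCLike.norm_ofReal, abs_of_nonneg (by positivity),
        inv_mul_le_iff₀ (norm_pos_iff.2 hx)] at h2
      linarith [h2]
    have h3 : ‖S‖ * (1 / (1 + δ)) ≤ M := by
      have : 1 - δ / (1 + δ) = 1 / (1 + δ) := by field_simp; ring
      rw [← this]; linarith
    rw [mul_one_div, div_le_iff₀ (by positivity)] at h3
    linarith

/-- transfer of a tensor identity from operators into `W` to operators into `W''` -/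
theorem tensor_transfer {E W : Type} [NormedAddCommGroup E] [NormedSpace 𝕜 E]
    [FiniteDimensional 𝕜 E] [NormedAddCommGroup W] [NormedSpace 𝕜 W] {ι : Type} (s : Finset ι)
    (x : ι → E) (φ : ι → StrongDual 𝕜 W) (h : ∀ S : E →L[𝕜] W, ∑ p ∈ s, φ p (S (x p)) = 0)
    (T : E →L[𝕜] StrongDual 𝕜 (StrongDual 𝕜 W)) : ∑ p ∈ s, T (x p) (φ p) = 0 := by
  set b := Module.finBasis 𝕜 E
  let ξ : Fin (Module.finrank 𝕜 E) → StrongDual 𝕜 E :=
    fun i => LinearMap.toContinuousLinearMap (b.coord i)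
  have h1 : ∀ j, ∑ p ∈ s, ξ j (x p) • φ p = 0 := by
    intro j
    ext w
    have := h ((ξ j).smulRight w)
    rw [_root_.sum_apply]
    simpa [mul_comm] using this
  have h2 : ∀ p, T (x p) (φ p) = ∑ j, ξ j (x p) * T (b j) (φ p) := by
    intro p
    conv_lhs => rw [finDim_sum T]
    rw [_root_.sum_apply, _root_.sum_apply]
    rfl
  calc ∑ p ∈ s, T (x p) (φ p) = ∑ p ∈ s, ∑ j, ξ j (x p) * T (b j) (φ p) :=
        Finset.sum_congr rfl fun p _ => h2 p
    _ = ∑ j, ∑ p ∈ s, ξ j (x p) * T (b j) (φ p) := Finset.sum_comm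
    _ = ∑ j, T (b j) (∑ p ∈ s, ξ j (x p) • φ p) := by
        refine Finset.sum_congr rfl fun j _ => ?_
        rw [map_sum]
        exact Finset.sum_congr rfl fun p _ => by rw [map_smul, smul_eq_mul]
    _ = 0 := by simp [h1]

/-- **Approximate principle of local reflexivity.** -/
theorem plr {E W : Type} [NormedAddCommGroup E] [NormedSpace 𝕜 E]
    [FiniteDimensional 𝕜 E] [NormedAddCommGroup W] [NormedSpace 𝕜 W]
    (T : E →L[𝕜] StrongDual 𝕜 (StrongDual 𝕜 W)) {r d : ℕ} (w' : Fin r → StrongDual 𝕜 W)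
    (e : Fin d → E) (δ : ℝ) (hδ : 0 < δ) :
    ∃ S : E →L[𝕜] W, ‖S‖ ≤ (1 + δ) * ‖T‖ ∧ ∀ i j, ‖w' i (S (e j)) - T (e j) (w' i)‖ < δ := by
  classical
  obtain ⟨m, c, hc1, hc2⟩ := exists_net (𝕜 := 𝕜) E δ hδ
  -- the convex set
  set C : Set (Fin r → Fin d → 𝕜) := {s | ∃ S : E →L[𝕜] W, ‖S‖ ≤ (1 + δ) * ‖T‖ ∧
    s = fun i j => w' i (S (e j))} with hC
  have hCcvx : Cvx 𝕜 C := by
    rintro _ ⟨S, hS, rfl⟩ _ ⟨R, hR, rfl⟩ a b ha hb hab
    refine ⟨(a : 𝕜) • S + (b : 𝕜) • R, ?_, ?_⟩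
    · calc ‖(a : 𝕜) • S + (b : 𝕜) • R‖ ≤ ‖(a : 𝕜) • S‖ + ‖(b : 𝕜) • R‖ := norm_add_le _ _
        _ = a * ‖S‖ + b * ‖R‖ := by
          rw [norm_smul, norm_smul, RCLike.norm_ofReal, RCLike.norm_ofReal, abs_of_nonneg ha,
            abs_of_nonneg hb]
        _ ≤ a * ((1 + δ) * ‖T‖) + b * ((1 + δ) * ‖T‖) := by gcongr
        _ = (1 + δ) * ‖T‖ := by rw [← add_mul, hab, one_mul]
    · funext i j
      simp only [Pi.add_apply, Pi.smul_apply, _root_.add_apply, _root_.smul_apply, map_add,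
        map_smul]
  have hv : ∀ (f : StrongDual 𝕜 (Fin r → Fin d → 𝕜)) (u : ℝ),
      (∀ s ∈ C, RCLike.re (f s) ≤ u) → RCLike.re (f (fun i j => T (e j) (w' i))) ≤ u := by
    intro f u hfu
    let a : Fin r × Fin d → 𝕜 := fun p => f (Pi.single p.1 (Pi.single p.2 1))
    have hf : ∀ s : Fin r → Fin d → 𝕜, f s = ∑ p : Fin r × Fin d, a p * s p.1 p.2 := by
      intro s
      have h1 : s = ∑ p : Fin r × Fin d, s p.1 p.2 • (Pi.single p.1 (Pi.single p.2 (1 : 𝕜)) :
          Fin r → Fin d → 𝕜) := by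
        funext i j
        rw [Finset.sum_apply, Finset.sum_apply, Finset.sum_eq_single (i, j)]
        · simp
        · rintro ⟨i', j'⟩ - hne
          by_cases hi : i = i'
          · subst hi
            have hj : j ≠ j' := fun h => hne (by rw [h])
            simp [hj]
          · simp [hi]
        · intro h; exact absurd (Finset.mem_univ _) h
      conv_lhs => rw [h1, map_sum]
      exact Finset.sum_congr rfl fun p _ => by rw [map_smul, smul_eq_mul, mul_comm]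
    -- the functional on operators
    let Λ : (E →L[𝕜] W) →ₗ[𝕜] 𝕜 :=
      { toFun := fun S => f (fun i j => w' i (S (e j)))
        map_add' := fun S R => by
          rw [← map_add]; congr 1; funext i j; simp
        map_smul' := fun k S => by
          rw [RingHom.id_apply, ← map_smul]; congr 1; funext i j; simp }
    have hΛ : ∀ S, Λ S = ∑ p : Fin r × Fin d, a p * w' p.1 (S (e p.2)) := fun S => hf _
    have hu0 : 0 ≤ u := by
      have := hfu 0 ⟨0, by rw [norm_zero]; positivity, by funext i j; simp⟩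
      simpa using this
    -- bound on the functional
    have hbd : ∀ S : E →L[𝕜] W, ‖S‖ ≤ (1 + δ) * ‖T‖ → ‖Λ S‖ ≤ u := by
      intro S hS
      by_cases h0 : Λ S = 0
      · rw [h0, norm_zero]; exact hu0
      have h1 := hfu (fun i j => w' i ((((‖Λ S‖ : 𝕜) / Λ S) • S) (e j)))
        ⟨((‖Λ S‖ : 𝕜) / Λ S) • S, by
          rw [norm_smul, norm_div, RCLike.norm_ofReal, abs_norm,
            div_self (norm_ne_zero_iff.2 h0), one_mul]; exact hS, rfl⟩
      have h2 : f (fun i j => w' i ((((‖Λ S‖ : 𝕜) / Λ S) • S) (e j))) = ((‖Λ S‖ : ℝ) : 𝕜) := by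
        show Λ (((‖Λ S‖ : 𝕜) / Λ S) • S) = _
        rw [map_smul, smul_eq_mul, div_mul_cancel₀ _ h0]
      rw [h2, RCLike.ofReal_re] at h1
      exact h1
    by_cases hT0 : ‖T‖ = 0
    · rw [norm_eq_zero] at hT0
      subst hT0
      rw [hf]
      simpa using hu0
    have hTpos : 0 < ‖T‖ := lt_of_le_of_ne (norm_nonneg _) (Ne.symm hT0)
    let ι : (E →L[𝕜] W) →ₗ[𝕜] (Fin m → W) :=
      { toFun := fun S k => S (c k)
        map_add' := fun _ _ => rfl
        map_smul' := fun _ _ => rfl }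
    have hdom : ∀ S, ‖Λ S‖ ≤ (u / ‖T‖) * ‖ι S‖ := by
      intro S
      by_cases hS0 : ‖ι S‖ = 0
      · have h1 : ‖S‖ ≤ (1 + δ) * 0 := hc2 W S 0 le_rfl fun k => by
          rw [← hS0]; exact norm_le_pi_norm (ι S) k
        have h2 : S = 0 := by simpa using h1
        rw [h2, map_zero, norm_zero, map_zero, norm_zero, mul_zero]
      · have hSpos : 0 < ‖ι S‖ := lt_of_le_of_ne (norm_nonneg _) (Ne.symm hS0)
        have h1 : ‖S‖ ≤ (1 + δ) * ‖ι S‖ := hc2 W S _ (norm_nonneg _) fun k =>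
          norm_le_pi_norm (ι S) k
        have h2 := hbd (((‖T‖ / ‖ι S‖ : ℝ) : 𝕜) • S) (by
          rw [norm_smul, RCLike.norm_ofReal, abs_of_nonneg (by positivity)]
          calc ‖T‖ / ‖ι S‖ * ‖S‖ ≤ ‖T‖ / ‖ι S‖ * ((1 + δ) * ‖ι S‖) := by gcongr
            _ = (1 + δ) * ‖T‖ := by field_simp)
        rw [map_smul, norm_smul, RCLike.norm_ofReal, abs_of_nonneg (by positivity)] at h2
        rw [div_mul_eq_mul_div, div_le_iff₀ hSpos] at h2
        rw [div_mul_eq_mul_div, le_div_iff₀ hTpos]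
        linarith
    obtain ⟨g, hg1, hg2⟩ := extend_through ι Λ (u / ‖T‖) (by positivity) hdom
    obtain ⟨v, hv1, hv2⟩ := functional_pi g
    -- transfer
    have htr := tensor_transfer (𝕜 := 𝕜) (E := E) (W := W)
      (Finset.univ : Finset ((Fin r × Fin d) ⊕ Fin m))
      (Sum.elim (fun p => e p.2) c) (Sum.elim (fun p => a p • w' p.1) (fun k => -v k))
      (by
        intro S
        rw [Fintype.sum_sum_type]
        simp only [Sum.elim_inl, Sum.elim_inr, _root_.smul_apply,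
          _root_.neg_apply, smul_eq_mul, Finset.sum_neg_distrib]
        rw [← hΛ S, ← hg2 S, hv1]
        simp [ι]) T
    rw [Fintype.sum_sum_type] at htr
    simp only [Sum.elim_inl, Sum.elim_inr, map_smul, map_neg, smul_eq_mul,
      Finset.sum_neg_distrib] at htr
    rw [hf]
    have h3 : ∑ p : Fin r × Fin d, a p * T (e p.2) (w' p.1) = ∑ k, T (c k) (v k) := by
      linear_combination htr
    rw [h3]
    refine (RCLike.re_le_norm _).trans ?_
    calc ‖∑ k, T (c k) (v k)‖ ≤ ∑ k, ‖T (c k) (v k)‖ := norm_sum_le _ _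
      _ ≤ ∑ k, ‖T‖ * ‖v k‖ := by
        refine Finset.sum_le_sum fun k _ => ?_
        refine ((T (c k)).le_opNorm (v k)).trans ?_
        gcongr
        calc ‖T (c k)‖ ≤ ‖T‖ * ‖c k‖ := T.le_opNorm _
          _ ≤ ‖T‖ * 1 := by gcongr; exact hc1 k
          _ = ‖T‖ := mul_one _
      _ = ‖T‖ * ∑ k, ‖v k‖ := by rw [Finset.mul_sum]
      _ ≤ ‖T‖ * (u / ‖T‖) := by gcongr; exact hv2.trans hg1
      _ = u := by field_simp
  obtain ⟨s, ⟨S, hS, rfl⟩, hlt⟩ := exists_approx C hCcvx _ hv δ hδ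
  refine ⟨S, hS, fun i j => ?_⟩
  rw [norm_sub_rev]
  calc ‖T (e j) (w' i) - w' i (S (e j))‖
      ≤ ‖(fun j => T (e j) (w' i)) - fun j => w' i (S (e j))‖ := norm_le_pi_norm
        ((fun j => T (e j) (w' i)) - fun j => w' i (S (e j))) j
    _ ≤ ‖(fun i j => T (e j) (w' i)) - fun i j => w' i (S (e j))‖ := norm_le_pi_norm
        ((fun i j => T (e j) (w' i)) - fun i j => w' i (S (e j))) i
    _ < δ := hlt

end Pool.Agent.H47.OpIdeal
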