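import Pool.Agent.H47.OpIdeal.Basic

/-!
# Separation lemmas
-/

set_option autoImplicit false
set_option maxSynthPendingDepth 3

open scoped ENNReal Topology
open Filter NormedSpace

namespace Pool.Agent.H47.OpIdeal

variable {𝕜 : Type} [RCLike 𝕜]

lemma mul_div_succ_le {K δ : ℝ} (hK : 0 ≤ K) (hδ : 0 ≤ δ) : K * (δ / (K + 1)) ≤ δ := by
  rw [mul_div_assoc', div_le_iff₀ (by positivity)]
  nlinarith

lemma mul_div_two_succ_le {K δ : ℝ} (hK : 0 ≤ K) (hδ : 0 ≤ δ) : K * (δ / (2 * (K + 1))) ≤ δ := by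
  rw [mul_div_assoc', div_le_iff₀ (by positivity)]
  nlinarith

/-- Convexity of a subset of a `𝕜`-vector space, spelled out with scalars in `𝕜`. -/
def Cvx (𝕜 : Type) [RCLike 𝕜] {V : Type} [AddCommGroup V] [Module 𝕜 V] (C : Set V) : Prop :=
  ∀ x ∈ C, ∀ y ∈ C, ∀ a b : ℝ, 0 ≤ a → 0 ≤ b → a + b = 1 → (a : 𝕜) • x + (b : 𝕜) • y ∈ C

/-- If every half space containing `C` contains `v`, then `v` is a limit of points of `C`. -/
theorem exists_approx {V : Type} [SeminormedAddCommGroup V] [NormedSpace 𝕜 V] (C : Set V)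
    (hC : Cvx 𝕜 C) (v : V)
    (h : ∀ (f : StrongDual 𝕜 V) (u : ℝ), (∀ c ∈ C, RCLike.re (f c) ≤ u) → RCLike.re (f v) ≤ u)
    (δ : ℝ) (hδ : 0 < δ) : ∃ c ∈ C, ‖v - c‖ < δ := by
  let _ : NormedSpace ℝ V := NormedSpace.restrictScalars ℝ 𝕜 V
  have : IsScalarTower ℝ 𝕜 V := RestrictScalars.isScalarTower ℝ 𝕜 V
  have hsm : ∀ (a : ℝ) (x : V), a • x = (a : 𝕜) • x := by
    intro a x
    rw [RCLike.ofReal_alg, smul_assoc, one_smul]
  have hconv : Convex ℝ C := by
    intro x hx y hy a b ha hb hab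
    rw [hsm, hsm]
    exact hC x hx y hy a b ha hb hab
  by_contra hcon
  push Not at hcon
  have hv : v ∉ closure C := by
    intro hv
    obtain ⟨c, hc, hd⟩ := Metric.mem_closure_iff.1 hv δ hδ
    rw [dist_eq_norm] at hd
    exact absurd hd (not_lt.2 (hcon c hc))
  obtain ⟨f, u, hf, hu⟩ := RCLike.geometric_hahn_banach_closed_point (𝕜 := 𝕜) hconv.closure
    isClosed_closure hv
  have := h f u fun c hc => (hf c (subset_closure hc)).le
  linarith

/-- an operator with finite-dimensional domain as a sum of rank-one operators -/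
theorem finDim_sum {E Y : Type} [NormedAddCommGroup E] [NormedSpace 𝕜 E]
    [FiniteDimensional 𝕜 E] [NormedAddCommGroup Y] [NormedSpace 𝕜 Y] (S : E →L[𝕜] Y) :
    S = ∑ i, (LinearMap.toContinuousLinearMap ((Module.finBasis 𝕜 E).coord i)).smulRight
      (S (Module.finBasis 𝕜 E i)) := by
  ext x
  rw [_root_.sum_apply]
  conv_lhs => rw [← (Module.finBasis 𝕜 E).sum_repr x, map_sum]
  refine Finset.sum_congr rfl fun i _ => ?_
  simp

/-- functionals on a space of operators with finite-dimensional domain -/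
theorem functional_repr {E Y : Type} [NormedAddCommGroup E] [NormedSpace 𝕜 E]
    [FiniteDimensional 𝕜 E] [NormedAddCommGroup Y] [NormedSpace 𝕜 Y]
    (f : StrongDual 𝕜 (E →L[𝕜] Y)) :
    ∃ y' : Fin (Module.finrank 𝕜 E) → StrongDual 𝕜 Y, ∀ S : E →L[𝕜] Y,
      f S = ∑ i, y' i (S (Module.finBasis 𝕜 E i)) := by
  refine ⟨fun i => f ∘L (ContinuousLinearMap.smulRightL 𝕜 E Y
    (LinearMap.toContinuousLinearMap ((Module.finBasis 𝕜 E).coord i))), fun S => ?_⟩
  conv_lhs => rw [finDim_sum S, map_sum]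
  rfl

end Pool.Agent.H47.OpIdeal
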