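import Mathlib

/-!
# Operator ideals in the sense of Pietsch: the notions of problem MP_df739d_an
-/

set_option autoImplicit false
set_option maxSynthPendingDepth 3

open scoped ENNReal Topology
open Filter NormedSpace

namespace Pool.Agent.H47.OpIdeal.Stmt

/-! ## Banach spaces and bounded operators -/

/-- Banach spaces over `𝕜`, bundled -/
structure Ban (𝕜 : Type) [RCLike 𝕜] where
  /-- the underlying type -/
  carrier : Type
  [grp : NormedAddCommGroup carrier]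
  [spc : NormedSpace 𝕜 carrier]
  [cpl : CompleteSpace carrier]

attribute [instance] Ban.grp Ban.spc Ban.cpl

/-- bounded operators between Banach spaces -/
abbrev Op {𝕜 : Type} [RCLike 𝕜] (X Y : Ban 𝕜) : Type := X.carrier →L[𝕜] Y.carrier

/-- the scalar field as a Banach space -/
noncomputable def Ban.scalars (𝕜 : Type) [RCLike 𝕜] : Ban 𝕜 := ⟨𝕜⟩

/-- the dual space `X'` -/
noncomputable def Ban.dual {𝕜 : Type} [RCLike 𝕜] (X : Ban 𝕜) : Ban 𝕜 :=
  ⟨StrongDual 𝕜 X.carrier⟩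

variable {𝕜 : Type} [RCLike 𝕜]

/-- the value `T x` -/
def app {X Y : Ban 𝕜} (T : Op X Y) (x : X.carrier) : Y.carrier := T x

/-- composition of operators -/
def comp {X Y Z : Ban 𝕜} (T : Op Y Z) (S : Op X Y) : Op X Z := T ∘L S

/-- sum of operators -/
def add {X Y : Ban 𝕜} (S T : Op X Y) : Op X Y := S + T

/-- difference of operators -/
def sub {X Y : Ban 𝕜} (S T : Op X Y) : Op X Y := S - T

/-- the operator norm, as an extended nonnegative real number -/
noncomputable def opNrm {X Y : Ban 𝕜} (T : Op X Y) : ℝ≥0∞ := ‖T‖ₑ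

/-- the identity operator -/
def idOp (X : Ban 𝕜) : Op X X := ContinuousLinearMap.id 𝕜 X.carrier

/-- the duality `⟨x, x'⟩` -/
noncomputable def pair {X : Ban 𝕜} (x : X.carrier) (x' : X.dual.carrier) : 𝕜 :=
  (show StrongDual 𝕜 X.carrier from x') x

/-- the canonical embedding `j_X : X → X''` -/
noncomputable def embed (X : Ban 𝕜) : Op X X.dual.dual := inclusionInDoubleDual 𝕜 X.carrier

/-- `X` has finite dimension -/
def Ban.FinDim (X : Ban 𝕜) : Prop := FiniteDimensional 𝕜 X.carrier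

/-- the operator `T` has finite-dimensional range -/
def FinRank {X Y : Ban 𝕜} (T : Op X Y) : Prop :=
  FiniteDimensional 𝕜 (LinearMap.range (T : X.carrier →ₗ[𝕜] Y.carrier))

/-- finite-dimensional subspaces `M` of `X` -/
def FinSub (X : Ban 𝕜) : Type := {M : Submodule 𝕜 X.carrier // FiniteDimensional 𝕜 M}

/-- the vector `x` belongs to `M` -/
def FinSub.Mem {X : Ban 𝕜} (M : FinSub X) (x : X.carrier) : Prop := x ∈ M.1

instance FinSub.instComplete {X : Ban 𝕜} (M : FinSub X) : CompleteSpace M.1 :=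
  have := M.2
  FiniteDimensional.complete 𝕜 M.1

/-- `M` as a Banach space -/
noncomputable def FinSub.space {X : Ban 𝕜} (M : FinSub X) : Ban 𝕜 := ⟨M.1⟩

/-- the inclusion `J_M` -/
noncomputable def FinSub.incl {X : Ban 𝕜} (M : FinSub X) : Op M.space X := M.1.subtypeL

/-- closed finite-codimensional subspaces `L` of `Y` -/
def CofinSub (Y : Ban 𝕜) : Type :=
  {L : Submodule 𝕜 Y.carrier //
    IsClosed (L : Set Y.carrier) ∧ FiniteDimensional 𝕜 (Y.carrier ⧸ L)}

instance CofinSub.instClosed {Y : Ban 𝕜} (L : CofinSub Y) : IsClosed (L.1 : Set Y.carrier) :=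
  L.2.1

/-- the quotient `Y/L` -/
noncomputable def CofinSub.quot {Y : Ban 𝕜} (L : CofinSub Y) : Ban 𝕜 := ⟨Y.carrier ⧸ L.1⟩

/-- the quotient map `Q_L` -/
noncomputable def CofinSub.proj {Y : Ban 𝕜} (L : CofinSub Y) : Op Y L.quot := L.1.mkQL

/-- the trace of an operator on a finite-dimensional space -/
noncomputable def tr {X : Ban 𝕜} (S : Op X X) : 𝕜 :=
  LinearMap.trace 𝕜 X.carrier (S : X.carrier →ₗ[𝕜] X.carrier)

/-! ## Operator ideals -/

/-- A Banach operator ideal in the sense of Pietsch. The ideal is encoded by its norm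
`nrm`, with values in `[0, ∞]`: an operator belongs to the ideal iff its norm is finite. -/
structure BanachIdeal (𝕜 : Type) [RCLike 𝕜] where
  /-- the ideal norm; `∞` outside of the ideal -/
  nrm : ∀ {X Y : Ban 𝕜}, Op X Y → ℝ≥0∞
  /-- the identity of the scalar field has norm one -/
  nrm_id : nrm (idOp (Ban.scalars 𝕜)) = 1
  /-- triangle inequality (in particular the sum of two members is a member) -/
  nrm_add_le : ∀ {X Y : Ban 𝕜} (S T : Op X Y), nrm (add S T) ≤ nrm S + nrm T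
  /-- the ideal property -/
  nrm_comp_le : ∀ {W X Y Z : Ban 𝕜} (R : Op W X) (S : Op X Y) (T : Op Y Z),
    nrm (comp T (comp S R)) ≤ opNrm T * nrm S * opNrm R
  /-- completeness of every component of the ideal -/
  complete : ∀ {X Y : Ban 𝕜} (T : ℕ → Op X Y),
    (∀ n, nrm (T n) < ∞) →
    (∀ ε > 0, ∃ N : ℕ, ∀ m ≥ N, ∀ n ≥ N, nrm (sub (T m) (T n)) ≤ ε) →
    ∃ S : Op X Y, nrm S < ∞ ∧ Tendsto (fun n => nrm (sub (T n) S)) atTop (𝓝 0)

/-- The ideal `B` is maximal: `B(T)` is the supremum of `B(Q_L T J_M)` over all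
finite-dimensional subspaces `M` of `X` and all closed finite-codimensional subspaces `L`
of `Y`. -/
def BanachIdeal.IsMaximal (B : BanachIdeal 𝕜) : Prop :=
  ∀ (X Y : Ban 𝕜) (T : Op X Y),
    B.nrm T = ⨆ (M : FinSub X) (L : CofinSub Y), B.nrm (comp L.proj (comp T M.incl))

/-- The norm `B^*(T)` of the adjoint ideal: the supremum of `|tr(Q_L T J_M S)|` over all
finite-dimensional `M ⊆ X`, closed finite-codimensional `L ⊆ Y` and `S : Y/L → M` with
`B(S) ≤ 1`. -/
noncomputable def BanachIdeal.adjNrm (B : BanachIdeal 𝕜) {X Y : Ban 𝕜} (T : Op X Y) : ℝ≥0∞ :=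
  ⨆ (M : FinSub X) (L : CofinSub Y) (S : Op L.quot M.space) (_ : B.nrm S ≤ 1),
    ‖tr (comp L.proj (comp T (comp M.incl S)))‖ₑ

/-- `T` belongs to `𝔏_2`: it factors through a Hilbert space. -/
def FactorsThroughHilbert {X Y : Ban 𝕜} (T : Op X Y) : Prop :=
  ∃ (H : Type) (_ : NormedAddCommGroup H) (_ : InnerProductSpace 𝕜 H) (_ : CompleteSpace H)
    (R : X.carrier →L[𝕜] H) (A : H →L[𝕜] Y.carrier), T = A ∘L R

/-- the space `L_∞(μ)` -/
noncomputable def Linf (𝕜 : Type) [RCLike 𝕜] {Ω : Type} [MeasurableSpace Ω]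
    (μ : MeasureTheory.Measure Ω) : Ban 𝕜 := ⟨MeasureTheory.Lp 𝕜 ∞ μ⟩

/-- The norm of the ideal `𝔏_∞`: the infimum of `‖A‖ ‖R‖` over all factorisations
`j_Y T = A R` through some space `L_∞(μ)`; it is `∞` if there is none. -/
noncomputable def linftyNrm {X Y : Ban 𝕜} (T : Op X Y) : ℝ≥0∞ :=
  ⨅ (Ω : Type) (_ : MeasurableSpace Ω) (μ : MeasureTheory.Measure Ω)
    (R : Op X (Linf 𝕜 μ)) (A : Op (Linf 𝕜 μ) Y.dual.dual)
    (_ : comp (embed Y) T = comp A R), opNrm A * opNrm R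

/-- The quasi-norm of `𝔅 ∘ 𝔏_∞`: the infimum of `B(A) L_∞(R)` over all factorisations
`T = A R` with `R ∈ 𝔏_∞(X, W)`, `A ∈ 𝔅(W, Y)`; it is `∞` if there is none. -/
noncomputable def BanachIdeal.compLinftyNrm (B : BanachIdeal 𝕜) {X Y : Ban 𝕜} (T : Op X Y) :
    ℝ≥0∞ :=
  ⨅ (W : Ban 𝕜) (R : Op X W) (_ : linftyNrm R < ∞) (A : Op W Y) (_ : B.nrm A < ∞)
    (_ : T = comp A R), B.nrm A * linftyNrm R

/-- Property (I) of `𝔅 ∘ 𝔏_∞`: every finite-rank `T` in it has, for every `ε > 0`, a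
factorisation `T = A R` with `B(A) L_∞(R) ≤ (1 + ε) B∘L_∞(T)` and `A` of
finite-dimensional range. -/
def BanachIdeal.PropertyI (B : BanachIdeal 𝕜) : Prop :=
  ∀ (X Y : Ban 𝕜) (T : Op X Y), FinRank T → B.compLinftyNrm T < ∞ → ∀ ε : ℝ, 0 < ε →
    ∃ (W : Ban 𝕜) (R : Op X W) (A : Op W Y),
      linftyNrm R < ∞ ∧ B.nrm A < ∞ ∧ T = comp A R ∧ FinRank A ∧
      B.nrm A * linftyNrm R ≤ ENNReal.ofReal (1 + ε) * B.compLinftyNrm T

/-- The ideal `B` is right-accessible: every operator `T` from a finite-dimensional space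
`E` to a Banach space `Y` is, for every `ε > 0`, of the form `T = J_N S` with a
finite-dimensional `N ⊆ Y`, `S : E → N` and `B(S) ≤ (1 + ε) B(T)`. -/
def BanachIdeal.IsRightAccessible (B : BanachIdeal 𝕜) : Prop :=
  ∀ (E Y : Ban 𝕜), E.FinDim → ∀ (T : Op E Y) (ε : ℝ), 0 < ε →
    ∃ (N : FinSub Y) (S : Op E N.space),
      T = comp N.incl S ∧ B.nrm S ≤ ENNReal.ofReal (1 + ε) * B.nrm T

/-- The `𝔅`-local reflexivity principle (`𝔅`-LRP). -/
def BanachIdeal.LRP (B : BanachIdeal 𝕜) : Prop :=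
  ∀ (E Y : Ban 𝕜), E.FinDim → ∀ (F : FinSub Y.dual) (T : Op E Y.dual.dual) (ε : ℝ), 0 < ε →
    ∃ S : Op E Y,
      B.nrm S ≤ ENNReal.ofReal (1 + ε) * B.nrm T ∧
      (∀ (x : E.carrier) (y' : Y.dual.carrier), F.Mem y' →
        pair (app S x) y' = pair y' (app T x)) ∧
      (∀ x : E.carrier, (∃ y : Y.carrier, app (embed Y) y = app T x) →
        app (embed Y) (app S x) = app T x)

/-- Rademacher cotype 2: there is a constant `C` with
`∑ ‖x_i‖² ≤ C² 𝔼 ‖∑ ε_i x_i‖²` for all finite families, the expectation being the average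
over all choices of signs. -/
def HasCotypeTwo (X : Ban 𝕜) : Prop :=
  ∃ C : ℝ, ∀ (n : ℕ) (x : Fin n → X.carrier),
    ∑ i, ‖x i‖ ^ 2 ≤ C ^ 2 * ((∑ s : Fin n → ℤˣ, ‖∑ i, (s i : ℤ) • x i‖ ^ 2) / 2 ^ n)

end Pool.Agent.H47.OpIdeal.Stmt
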