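import Pool.Agent.H47.OpIdeal.Integral

/-!
# The trace bound
-/

set_option autoImplicit false
set_option maxSynthPendingDepth 3

open scoped ENNReal Topology
open Filter NormedSpace MeasureTheory

namespace Pool.Agent.H47.OpIdeal

variable {𝕜 : Type} [RCLike 𝕜]

/-- the arithmetic of the central estimate -/
lemma enn_arith {b ε κ : ℝ} {t n₁ a β α θ : ℝ≥0∞} (hb : 0 ≤ b) (hε : 0 ≤ ε)
    (ht : t ≤ ENNReal.ofReal b) (hn : n₁ ≤ a * β) (hθ : θ ≤ ENNReal.ofReal (1 + ε) * α)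
    (hκ : a * (β * α) ≤ ENNReal.ofReal κ) :
    t * (ENNReal.ofReal (1 + ε) * (ENNReal.ofReal (1 + ε) * n₁) * θ) ≤
      ENNReal.ofReal (b * ((1 + ε) ^ 3 * κ)) := by
  calc t * (ENNReal.ofReal (1 + ε) * (ENNReal.ofReal (1 + ε) * n₁) * θ)
      ≤ ENNReal.ofReal b * (ENNReal.ofReal (1 + ε) *
        (ENNReal.ofReal (1 + ε) * (a * β)) * (ENNReal.ofReal (1 + ε) * α)) := by gcongr
    _ = ENNReal.ofReal b * (ENNReal.ofReal (1 + ε) ^ 3 * (a * (β * α))) := by ring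
    _ ≤ ENNReal.ofReal b * (ENNReal.ofReal (1 + ε) ^ 3 * ENNReal.ofReal κ) := by gcongr
    _ = _ := by
      rw [ENNReal.ofReal_mul hb, ENNReal.ofReal_mul (by positivity),
        ENNReal.ofReal_pow (by positivity)]

/-- a well-definedness statement for tensors -/
theorem tensor_zero {V Y : Type} [AddCommGroup V] [Module 𝕜 V] [NormedAddCommGroup Y]
    [NormedSpace 𝕜 Y] {ι : Type} [Finite ι] (s : Finset ι) (φ : ι → StrongDual 𝕜 Y) (v : ι → V)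
    (h : ∀ y, ∑ p ∈ s, φ p y • v p = 0) (Θ : V →ₗ[𝕜] StrongDual 𝕜 Y →ₗ[𝕜] 𝕜) :
    ∑ p ∈ s, Θ (v p) (φ p) = 0 := by
  classical
  let E := Submodule.span 𝕜 (Set.range v)
  have hE : FiniteDimensional 𝕜 E := FiniteDimensional.span_of_finite 𝕜 (Set.finite_range v)
  let b := Module.finBasis 𝕜 E
  let w : ι → E := fun p => ⟨v p, Submodule.subset_span ⟨p, rfl⟩⟩
  have h1 : ∀ j, ∑ p ∈ s, b.coord j (w p) • φ p = 0 := by
    intro j
    ext y
    have h2 : ∑ p ∈ s, φ p y • w p = 0 := by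
      apply Subtype.ext
      simpa [w] using h y
    have h3 := congrArg (b.coord j) h2
    rw [map_sum, map_zero] at h3
    rw [_root_.sum_apply, _root_.zero_apply, ← h3]
    refine Finset.sum_congr rfl fun p _ => ?_
    rw [map_smul, _root_.smul_apply, smul_eq_mul, smul_eq_mul, mul_comm]
  have h4 : ∀ p, v p = ∑ j, b.coord j (w p) • (b j : V) := by
    intro p
    have h5 := congrArg (Subtype.val) (b.sum_repr (w p)).symm
    rw [AddSubmonoidClass.coe_finsetSum] at h5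
    simpa using h5
  calc ∑ p ∈ s, Θ (v p) (φ p) = ∑ p ∈ s, ∑ j, b.coord j (w p) * Θ (b j : V) (φ p) := by
        refine Finset.sum_congr rfl fun p _ => ?_
        conv_lhs => rw [h4 p, map_sum]
        rw [LinearMap.sum_apply]
        refine Finset.sum_congr rfl fun j _ => ?_
        rw [map_smul, LinearMap.smul_apply, smul_eq_mul]
    _ = ∑ j, Θ (b j : V) (∑ p ∈ s, b.coord j (w p) • φ p) := by
        rw [Finset.sum_comm]
        refine Finset.sum_congr rfl fun j _ => ?_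
        rw [map_sum]
        refine Finset.sum_congr rfl fun p _ => ?_
        rw [map_smul, smul_eq_mul]
    _ = 0 := by
        refine Finset.sum_eq_zero fun j _ => ?_
        rw [h1 j, map_zero]

section

variable {X Y W : Type} [NormedAddCommGroup X] [NormedSpace 𝕜 X] [CompleteSpace X]
  [NormedAddCommGroup Y] [NormedSpace 𝕜 Y] [CompleteSpace Y]
  [NormedAddCommGroup W] [NormedSpace 𝕜 W] [CompleteSpace W]

/-- the trace of `θ T₀ S` on `𝕜^n` -/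
lemma trace_pi {n : ℕ} (D : (Fin n → 𝕜) →ₗ[𝕜] (Fin n → 𝕜)) :
    LinearMap.trace 𝕜 (Fin n → 𝕜) D = ∑ m, D (Pi.single m 1) m := by
  rw [LinearMap.trace_eq_matrix_trace 𝕜 (Pi.basisFun 𝕜 (Fin n)), Matrix.trace]
  refine Finset.sum_congr rfl fun m _ => ?_
  rw [Matrix.diag_apply, LinearMap.toMatrix_apply]
  simp

/-- the trace inequality with a finite-rank operator `θ` -/
theorem trace_bound (B : BanachIdeal 𝕜) (hRA : B.IsRightAccessible) (T₀ : X →L[𝕜] Y) {n : ℕ}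
    (S : (Fin n → 𝕜) →L[𝕜] X) (θ : Y →L[𝕜] (Fin n → 𝕜)) (ε : ℝ) (hε : 0 < ε) :
    ‖∑ m, θ (T₀ (S (Pi.single m 1))) m‖ₑ ≤
      B.adjNrm T₀ * (ENNReal.ofReal (1 + ε) * B.nrm S * ‖θ‖ₑ) := by
  obtain ⟨N, hN1, hN2, S₀, hS₀, hS₀n⟩ := hRA (Fin n → 𝕜) X S ε hε
  let L : Submodule 𝕜 Y := LinearMap.ker (θ : Y →ₗ[𝕜] (Fin n → 𝕜))
  have hL : IsClosed (L : Set Y) := θ.isClosed_ker
  let q : (Y ⧸ L) →ₗ[𝕜] (Fin n → 𝕜) := L.liftQ (θ : Y →ₗ[𝕜] (Fin n → 𝕜)) le_rfl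
  have hq : ∀ y, q (L.mkQ y) = θ y := fun y => L.liftQ_apply _ _
  have hqinj : Function.Injective q := by
    rw [← LinearMap.ker_eq_bot]
    exact Submodule.ker_liftQ_eq_bot _ _ _ le_rfl
  have hfd : FiniteDimensional 𝕜 (Y ⧸ L) := FiniteDimensional.of_injective q hqinj
  have hqn : ∀ z, ‖q z‖ ≤ ‖θ‖ * ‖z‖ := by
    intro z
    refine le_of_forall_pos_le_add fun δ hδ => ?_
    obtain ⟨y, hy1, hy2⟩ := Submodule.Quotient.norm_mk_lt z (show 0 < δ / (‖θ‖ + 1) by positivity)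
    subst hy1
    have h1 : q (Submodule.Quotient.mk y) = θ y := hq y
    rw [h1]
    calc ‖θ y‖ ≤ ‖θ‖ * ‖y‖ := θ.le_opNorm y
      _ ≤ ‖θ‖ * (‖(Submodule.Quotient.mk y : Y ⧸ L)‖ + δ / (‖θ‖ + 1)) := by gcongr
      _ = ‖θ‖ * ‖(Submodule.Quotient.mk y : Y ⧸ L)‖ + ‖θ‖ * (δ / (‖θ‖ + 1)) := by ring
      _ ≤ ‖θ‖ * ‖(Submodule.Quotient.mk y : Y ⧸ L)‖ + δ := by
        gcongr
        rw [mul_div_assoc', div_le_iff₀ (by positivity)]
        nlinarith [norm_nonneg θ]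
  let qc : (Y ⧸ L) →L[𝕜] (Fin n → 𝕜) := q.mkContinuous ‖θ‖ hqn
  have hqc : ‖qc‖ₑ ≤ ‖θ‖ₑ := by
    have h1 : ‖qc‖ ≤ ‖θ‖ := LinearMap.mkContinuous_norm_le _ (norm_nonneg _) _
    rw [enorm_eq_nnnorm, enorm_eq_nnnorm]; exact_mod_cast h1
  have hclosed : IsClosed (L : Set Y) := hL
  have key := B.trace_le_adjNrm T₀ N L (S₀ ∘L qc)
  have htr : LinearMap.trace 𝕜 (Y ⧸ L)
      (L.mkQL ∘L T₀ ∘L N.subtypeL ∘L (S₀ ∘L qc) : (Y ⧸ L) →L[𝕜] (Y ⧸ L)) =
      ∑ m, θ (T₀ (S (Pi.single m 1))) m := by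
    have e1 : ((L.mkQL ∘L T₀ ∘L N.subtypeL ∘L (S₀ ∘L qc) : (Y ⧸ L) →L[𝕜] (Y ⧸ L)) :
        (Y ⧸ L) →ₗ[𝕜] (Y ⧸ L)) =
        (L.mkQ ∘ₗ (T₀ : X →ₗ[𝕜] Y) ∘ₗ (S : (Fin n → 𝕜) →ₗ[𝕜] X)) ∘ₗ q := by
      rw [hS₀]
      rfl
    rw [e1, LinearMap.trace_comp_comm', trace_pi]
    refine Finset.sum_congr rfl fun m _ => ?_
    show q (L.mkQ (T₀ (S (Pi.single m 1)))) m = _
    rw [hq]
  rw [htr] at key
  refine key.trans ?_
  gcongr
  calc B.nrm (S₀ ∘L qc) ≤ B.nrm S₀ * ‖qc‖ₑ := B.nrm_comp_right_le _ _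
    _ ≤ (ENNReal.ofReal (1 + ε) * B.nrm S) * ‖θ‖ₑ := by gcongr

/-- the trace inequality for operators with values in the bidual -/
theorem trace_bound_bidual (B : BanachIdeal 𝕜) (hLRP : B.LRP) (T₀ : X →L[𝕜] Y) {n : ℕ}
    (T₁ : (Fin n → 𝕜) →L[𝕜] StrongDual 𝕜 (StrongDual 𝕜 X)) (θ : Y →L[𝕜] (Fin n → 𝕜))
    (ε : ℝ) (hε : 0 < ε) :
    ‖∑ m, T₁ (Pi.single m 1) ((ContinuousLinearMap.proj m : (Fin n → 𝕜) →L[𝕜] 𝕜) ∘L θ ∘L T₀)‖ₑ ≤
      B.adjNrm T₀ *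
        (ENNReal.ofReal (1 + ε) * (ENNReal.ofReal (1 + ε) * B.nrm T₁) * ‖θ‖ₑ) := by
  classical
  let f : Fin n → StrongDual 𝕜 X := fun m =>
    (ContinuousLinearMap.proj m : (Fin n → 𝕜) →L[𝕜] 𝕜) ∘L θ ∘L T₀
  let F : Submodule 𝕜 (StrongDual 𝕜 X) := Submodule.span 𝕜 (Set.range f)
  have hF : FiniteDimensional 𝕜 F := FiniteDimensional.span_of_finite 𝕜 (Set.finite_range f)
  obtain ⟨S, hS1, hS2, -⟩ := hLRP (Fin n → 𝕜) X F T₁ ε hε
  have hRA := hLRP.isRightAccessible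
  have h1 := trace_bound B hRA T₀ S θ ε hε
  have h2 : ∑ m, T₁ (Pi.single m 1)
      ((ContinuousLinearMap.proj m : (Fin n → 𝕜) →L[𝕜] 𝕜) ∘L θ ∘L T₀) =
      ∑ m, θ (T₀ (S (Pi.single m 1))) m := by
    refine Finset.sum_congr rfl fun m _ => ?_
    rw [← hS2 (Pi.single m 1) (f m) (Submodule.subset_span ⟨m, rfl⟩)]
    rfl
  rw [h2]
  refine h1.trans ?_
  gcongr

/-- extension of `A` to the bidual, composed with an operator from `𝕜^n` -/
theorem nrm_bidual_le (B : BanachIdeal 𝕜) {r n : ℕ} (w' : Fin r → StrongDual 𝕜 W)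
    (z : Fin r → X) (γ : (Fin n → 𝕜) →L[𝕜] StrongDual 𝕜 (StrongDual 𝕜 W))
    (T₁ : (Fin n → 𝕜) →L[𝕜] X) (hT₁ : ∀ e, T₁ e = ∑ k, γ e (w' k) • z k)
    (hA : B.nrm (∑ k, (w' k).smulRight (z k)) < ∞) :
    B.nrm T₁ ≤ B.nrm (∑ k, (w' k).smulRight (z k)) * ‖γ‖ₑ := by
  classical
  set A : W →L[𝕜] X := ∑ k, (w' k).smulRight (z k) with hAdef
  have hA' : B.nrm A ≠ ∞ := hA.ne
  set β : ℝ := (B.nrm A).toReal with hβ
  have hβA : B.nrm A = ENNReal.ofReal β := (ENNReal.ofReal_toReal hA').symm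
  have hβ0 : 0 ≤ β := ENNReal.toReal_nonneg
  set K : ℝ := ∑ k, ‖z k‖ with hK
  have hK0 : 0 ≤ K := by positivity
  refine ENNReal.le_of_forall_pos_le_add fun δ hδ _ => ?_
  have hδ' : (0 : ℝ) < δ := hδ
  set δ₁ : ℝ := δ / (β * ‖γ‖ + n * K + 1) with hδ₁
  have hδ₁0 : 0 < δ₁ := by positivity
  obtain ⟨σ, hσ1, hσ2⟩ := plr (𝕜 := 𝕜) γ w' (fun m : Fin n => (Pi.single m 1 : Fin n → 𝕜)) δ₁ hδ₁0
  set D : (Fin n → 𝕜) →L[𝕜] X := T₁ - A ∘L σ with hD
  have hDm : ∀ m, ‖D (Pi.single m 1)‖ ≤ δ₁ * K := by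
    intro m
    have h1 : D (Pi.single m 1) =
        ∑ k, (γ (Pi.single m 1) (w' k) - w' k (σ (Pi.single m 1))) • z k := by
      rw [hD, _root_.sub_apply, hT₁, ContinuousLinearMap.comp_apply, hAdef, _root_.sum_apply,
        ← Finset.sum_sub_distrib]
      refine Finset.sum_congr rfl fun k _ => ?_
      rw [ContinuousLinearMap.smulRight_apply, sub_smul]
    rw [h1, hK, Finset.mul_sum]
    refine (norm_sum_le _ _).trans (Finset.sum_le_sum fun k _ => ?_)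
    rw [norm_smul]
    gcongr
    rw [norm_sub_rev]
    exact (hσ2 k m).le
  have hDsum : D = ∑ m, (ContinuousLinearMap.proj m : (Fin n → 𝕜) →L[𝕜] 𝕜).smulRight
      (D (Pi.single m 1)) := by
    refine ContinuousLinearMap.ext fun s => ?_
    rw [_root_.sum_apply]
    conv_lhs => rw [show s = ∑ m, s m • (Pi.single m 1 : Fin n → 𝕜) by
      ext i; simp [Pi.single_apply], map_sum]
    refine Finset.sum_congr rfl fun m _ => ?_
    rw [map_smul]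
    rfl
  have hDn : B.nrm D ≤ ENNReal.ofReal (n * (δ₁ * K)) := by
    rw [hDsum]
    refine (B.nrm_sum_le _ _).trans ?_
    calc ∑ m, B.nrm ((ContinuousLinearMap.proj m : (Fin n → 𝕜) →L[𝕜] 𝕜).smulRight
          (D (Pi.single m 1))) ≤ ∑ _m : Fin n, ENNReal.ofReal (δ₁ * K) := by
          refine Finset.sum_le_sum fun m _ => ?_
          refine (B.nrm_smulRight_le _ _).trans ?_
          have hp : ‖(ContinuousLinearMap.proj m : (Fin n → 𝕜) →L[𝕜] 𝕜)‖ ≤ 1 :=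
            ContinuousLinearMap.opNorm_le_bound _ zero_le_one fun s => by
              rw [one_mul]; exact norm_le_pi_norm s m
          calc ‖(ContinuousLinearMap.proj m : (Fin n → 𝕜) →L[𝕜] 𝕜)‖ₑ * ‖D (Pi.single m 1)‖ₑ
              ≤ 1 * ENNReal.ofReal (δ₁ * K) := by
                gcongr
                · exact enorm_le_one_of_norm_le hp
                · rw [← ofReal_norm]
                  exact ENNReal.ofReal_le_ofReal (hDm m)
            _ = ENNReal.ofReal (δ₁ * K) := one_mul _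
      _ = ENNReal.ofReal (n * (δ₁ * K)) := by
          rw [Finset.sum_const, Finset.card_univ, Fintype.card_fin, nsmul_eq_mul,
            ENNReal.ofReal_mul (Nat.cast_nonneg n), ENNReal.ofReal_natCast]
  have hTsplit : T₁ = A ∘L σ + D := by rw [hD]; abel
  have hAσ : B.nrm (A ∘L σ) ≤ ENNReal.ofReal (β * ((1 + δ₁) * ‖γ‖)) := by
    refine (B.nrm_comp_right_le _ _).trans ?_
    rw [hβA, ENNReal.ofReal_mul hβ0]
    gcongr
    rw [← ofReal_norm]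
    exact ENNReal.ofReal_le_ofReal hσ1
  calc B.nrm T₁ = B.nrm (A ∘L σ + D) := by rw [← hTsplit]
    _ ≤ ENNReal.ofReal (β * ((1 + δ₁) * ‖γ‖)) + ENNReal.ofReal (n * (δ₁ * K)) :=
        (B.nrm_add_le _ _).trans (add_le_add hAσ hDn)
    _ = ENNReal.ofReal (β * ((1 + δ₁) * ‖γ‖) + n * (δ₁ * K)) := by
        rw [ENNReal.ofReal_add (by positivity) (by positivity)]
    _ ≤ ENNReal.ofReal (β * ‖γ‖ + δ) := by
        refine ENNReal.ofReal_le_ofReal ?_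
        have h5 : (β * ‖γ‖ + n * K) * δ₁ ≤ δ := by
          rw [hδ₁, mul_div_assoc', div_le_iff₀ (by positivity)]
          nlinarith [mul_nonneg hβ0 (norm_nonneg γ), mul_nonneg (Nat.cast_nonneg (α := ℝ) n) hK0]
        nlinarith
    _ = ENNReal.ofReal β * ‖γ‖ₑ + δ := by
        rw [ENNReal.ofReal_add (by positivity) (by positivity), ENNReal.ofReal_mul hβ0,
          ofReal_norm, ENNReal.ofReal_coe_nnreal]
    _ = B.nrm A * ‖γ‖ₑ + δ := by rw [← hβA]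

omit [CompleteSpace X] [CompleteSpace Y] in
/-- the two expressions of the same tensor -/
lemma tensor_eq (T₀ : X →L[𝕜] Y) {m r : ℕ} (x : Fin m → X) (y' : Fin m → StrongDual 𝕜 Y)
    (φ : Fin r → StrongDual 𝕜 Y) (z : Fin r → StrongDual 𝕜 (StrongDual 𝕜 X))
    (h : ∀ y, ∑ i, y' i y • inclusionInDoubleDual 𝕜 X (x i) = ∑ k, φ k y • z k) :
    ∑ k, z k (φ k ∘L T₀) = ∑ i, y' i (T₀ (x i)) := by
  let Θ : StrongDual 𝕜 (StrongDual 𝕜 X) →ₗ[𝕜] StrongDual 𝕜 Y →ₗ[𝕜] 𝕜 :=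
    LinearMap.mk₂ 𝕜 (fun v φ => v (φ ∘L T₀))
      (fun v w φ => rfl) (fun c v φ => rfl)
      (fun v φ ψ => by rw [ContinuousLinearMap.add_comp, map_add])
      (fun c v φ => by rw [ContinuousLinearMap.smul_comp, map_smul])
  have key := tensor_zero (𝕜 := 𝕜) (Finset.univ : Finset (Fin m ⊕ Fin r))
    (Sum.elim y' φ) (Sum.elim (fun i => inclusionInDoubleDual 𝕜 X (x i)) (fun k => - z k))
    (fun y => by
      rw [Fintype.sum_sum_type]
      simp only [Sum.elim_inl, Sum.elim_inr, smul_neg, Finset.sum_neg_distrib]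
      rw [h y, add_neg_cancel]) Θ
  rw [Fintype.sum_sum_type] at key
  simp only [Sum.elim_inl, Sum.elim_inr, map_neg, LinearMap.neg_apply,
    Finset.sum_neg_distrib] at key
  have e1 : ∀ i, Θ (inclusionInDoubleDual 𝕜 X (x i)) (y' i) = y' i (T₀ (x i)) := fun i => rfl
  have e2 : ∀ k, Θ (z k) (φ k) = z k (φ k ∘L T₀) := fun k => rfl
  rw [Finset.sum_congr rfl fun i _ => e1 i, Finset.sum_congr rfl fun k _ => e2 k] at key
  exact (add_neg_eq_zero.1 key).symm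

/-- the central estimate, for a factorisation through a space `L` whose finite-dimensional
operators factor through `ℓ_∞^n` -/
theorem adj_core (B : BanachIdeal 𝕜) (hLRP : B.LRP)
    (T₀ : X →L[𝕜] Y) (b : ℝ) (hb : 0 ≤ b) (hT₀ : B.adjNrm T₀ ≤ ENNReal.ofReal b) {m : ℕ}
    (x : Fin m → X) (y' : Fin m → StrongDual 𝕜 Y) (ε κ : ℝ) (hε : 0 < ε) (hκ : 0 ≤ κ)
    (R : Y →L[𝕜] W) (A : W →L[𝕜] StrongDual 𝕜 (StrongDual 𝕜 X)) (hA : B.nrm A < ∞)
    (hfac : inclusionInDoubleDual 𝕜 X ∘L ∑ i, (y' i).smulRight (x i) = A ∘L R)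
    (hAfd : FiniteDimensional 𝕜
      (LinearMap.range (A : W →ₗ[𝕜] StrongDual 𝕜 (StrongDual 𝕜 X))))
    {L : Type} [NormedAddCommGroup L] [NormedSpace 𝕜 L]
    (hL : ∀ (E : Type) [NormedAddCommGroup E] [NormedSpace 𝕜 E]
      [FiniteDimensional 𝕜 E] (v : E →L[𝕜] L) (δ : ℝ), 0 < δ →
      ∃ (n : ℕ) (c : (Fin n → 𝕜) →L[𝕜] L) (t : E →L[𝕜] (Fin n → 𝕜)),
        ‖c‖ ≤ 1 ∧ ‖t‖ ≤ ‖v‖ + δ ∧ ‖c ∘L t - v‖ ≤ δ)
    (α : Y →L[𝕜] L) (β : L →L[𝕜] StrongDual 𝕜 (StrongDual 𝕜 W))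
    (hαβ : inclusionInDoubleDual 𝕜 W ∘L R = β ∘L α)
    (hABα : B.nrm A * (‖β‖ₑ * ‖α‖ₑ) ≤ ENNReal.ofReal κ) :
    ‖∑ i, y' i (T₀ (x i))‖ ≤ b * ((1 + ε) ^ 3 * κ) + ε := by
  classical
  -- write `A` with coordinates
  let bb := Module.finBasis 𝕜 (LinearMap.range (A : W →ₗ[𝕜] StrongDual 𝕜 (StrongDual 𝕜 X)))
  set r := Module.finrank 𝕜
    (LinearMap.range (A : W →ₗ[𝕜] StrongDual 𝕜 (StrongDual 𝕜 X))) with hr
  let A₀ : W →L[𝕜] LinearMap.range (A : W →ₗ[𝕜] StrongDual 𝕜 (StrongDual 𝕜 X)) :=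
    A.codRestrict _ (fun w => ⟨w, rfl⟩)
  let z : Fin r → StrongDual 𝕜 (StrongDual 𝕜 X) := fun k => (bb k : _)
  let w' : Fin r → StrongDual 𝕜 W := fun k =>
    (LinearMap.toContinuousLinearMap (bb.coord k)) ∘L A₀
  have hAw : ∀ w, A w = ∑ k, w' k w • z k := by
    intro w
    have h5 := congrArg (Subtype.val) (bb.sum_repr (A₀ w)).symm
    rw [AddSubmonoidClass.coe_finsetSum] at h5
    exact h5
  have hAsum : A = ∑ k, (w' k).smulRight (z k) := by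
    refine ContinuousLinearMap.ext fun w => ?_
    rw [hAw, _root_.sum_apply]
    rfl
  -- the functionals
  let ψ : Fin r → StrongDual 𝕜 L := fun k =>
    (inclusionInDoubleDual 𝕜 (StrongDual 𝕜 W) (w' k)) ∘L β
  let g : Fin r → StrongDual 𝕜 (StrongDual 𝕜 L) := fun k =>
    z k ∘L ((ContinuousLinearMap.compL 𝕜 X L 𝕜).flip (α ∘L T₀))
  have hg : ∀ k φ, g k φ = z k (φ ∘L α ∘L T₀) := fun k φ => rfl
  obtain ⟨n, c, a, hc, ha, happ⟩ := approx_of_factor hL ψ g ε hε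
  let T₁ : (Fin n → 𝕜) →L[𝕜] StrongDual 𝕜 (StrongDual 𝕜 X) :=
    ∑ k, (ψ k ∘L c).smulRight (z k)
  have hT₁ : ∀ e, T₁ e = ∑ k, (β ∘L c) e (w' k) • z k := by
    intro e
    show (∑ k, (ψ k ∘L c).smulRight (z k)) e = _
    rw [_root_.sum_apply]
    rfl
  have hT₁n : B.nrm T₁ ≤ B.nrm A * ‖β‖ₑ := by
    have h1 := nrm_bidual_le B w' z (β ∘L c) T₁ hT₁ (by rw [← hAsum]; exact hA)
    rw [← hAsum] at h1
    refine h1.trans ?_
    have h2 : ‖β ∘L c‖ ≤ ‖β‖ :=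
      (ContinuousLinearMap.opNorm_comp_le _ _).trans
        ((mul_le_mul_of_nonneg_left hc (norm_nonneg _)).trans (mul_one _).le)
    have h3 : ‖β ∘L c‖ₑ ≤ ‖β‖ₑ := by
      rw [enorm_eq_nnnorm, enorm_eq_nnnorm]; exact_mod_cast h2
    exact mul_le_mul_right h3 _
  let θ : Y →L[𝕜] (Fin n → 𝕜) := a ∘L α
  have hθ : ‖θ‖ₑ ≤ ENNReal.ofReal (1 + ε) * ‖α‖ₑ := by
    rw [← ofReal_norm, ← ofReal_norm, ← ENNReal.ofReal_mul (by positivity)]
    refine ENNReal.ofReal_le_ofReal ?_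
    exact (ContinuousLinearMap.opNorm_comp_le _ _).trans
      (mul_le_mul_of_nonneg_right ha (norm_nonneg _))
  have htb := trace_bound_bidual B hLRP T₀ T₁ θ ε hε
  have hid1 : ∑ m, T₁ (Pi.single m 1)
      ((ContinuousLinearMap.proj m : (Fin n → 𝕜) →L[𝕜] 𝕜) ∘L θ ∘L T₀) =
      ∑ k, g k (ψ k ∘L c ∘L a) := by
    have h1 : ∀ k, ψ k ∘L c ∘L a = ∑ m, ψ k (c (Pi.single m 1)) •
        ((ContinuousLinearMap.proj m : (Fin n → 𝕜) →L[𝕜] 𝕜) ∘L a) := by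
      intro k
      refine ContinuousLinearMap.ext fun f => ?_
      rw [_root_.sum_apply]
      have h2 : a f = ∑ m, a f m • (Pi.single m 1 : Fin n → 𝕜) := by
        ext i; simp [Pi.single_apply]
      show ψ k (c (a f)) = _
      conv_lhs => rw [h2, map_sum, map_sum]
      refine Finset.sum_congr rfl fun m _ => ?_
      rw [map_smul, map_smul, _root_.smul_apply, smul_eq_mul, smul_eq_mul, mul_comm]
      rfl
    have h3 : ∀ m, T₁ (Pi.single m 1)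
        ((ContinuousLinearMap.proj m : (Fin n → 𝕜) →L[𝕜] 𝕜) ∘L θ ∘L T₀) =
        ∑ k, ψ k (c (Pi.single m 1)) *
          z k ((ContinuousLinearMap.proj m : (Fin n → 𝕜) →L[𝕜] 𝕜) ∘L θ ∘L T₀) := by
      intro m
      rw [hT₁, _root_.sum_apply]
      rfl
    rw [Finset.sum_congr rfl fun m _ => h3 m, Finset.sum_comm]
    refine Finset.sum_congr rfl fun k _ => ?_
    rw [h1 k, map_sum]
    refine Finset.sum_congr rfl fun m _ => ?_
    rw [map_smul, hg, smul_eq_mul]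
    rfl
  have hid2 : ∑ k, g k (ψ k) = ∑ i, y' i (T₀ (x i)) := by
    refine tensor_eq T₀ x y' (fun k => ψ k ∘L α) z fun y => ?_
    have h1 : ∑ i, y' i y • inclusionInDoubleDual 𝕜 X (x i) =
        (inclusionInDoubleDual 𝕜 X ∘L ∑ i, (y' i).smulRight (x i)) y := by
      rw [ContinuousLinearMap.comp_apply, _root_.sum_apply, map_sum]
      refine Finset.sum_congr rfl fun i _ => ?_
      rw [ContinuousLinearMap.smulRight_apply, map_smul]
    rw [h1, hfac, ContinuousLinearMap.comp_apply, hAw]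
    refine Finset.sum_congr rfl fun k _ => ?_
    congr 1
    have h2 : (inclusionInDoubleDual 𝕜 W ∘L R) y (w' k) = (β ∘L α) y (w' k) := by rw [hαβ]
    exact h2
  have hfin : ‖∑ k, g k (ψ k ∘L c ∘L a)‖ ≤ b * ((1 + ε) ^ 3 * κ) := by
    rw [← hid1]
    have h1 : ‖∑ m, T₁ (Pi.single m 1)
        ((ContinuousLinearMap.proj m : (Fin n → 𝕜) →L[𝕜] 𝕜) ∘L θ ∘L T₀)‖ₑ ≤
        ENNReal.ofReal (b * ((1 + ε) ^ 3 * κ)) :=
      htb.trans (enn_arith hb hε.le hT₀ hT₁n hθ hABα)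
    rw [← ofReal_norm] at h1
    exact (ENNReal.ofReal_le_ofReal_iff (by positivity)).1 h1
  calc ‖∑ i, y' i (T₀ (x i))‖ = ‖∑ k, g k (ψ k ∘L c ∘L a) -
        (∑ k, g k (ψ k ∘L c ∘L a) - ∑ k, g k (ψ k))‖ := by
        rw [← hid2, sub_sub_cancel]
    _ ≤ ‖∑ k, g k (ψ k ∘L c ∘L a)‖ + ‖∑ k, g k (ψ k ∘L c ∘L a) - ∑ k, g k (ψ k)‖ :=
        norm_sub_le _ _
    _ ≤ b * ((1 + ε) ^ 3 * κ) + ε := add_le_add hfin happ

/-- a factorisation with almost optimal constants -/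
lemma exists_linfty_factor (R : Y →L[𝕜] W) (hR : linftyNrm R < ∞) (ε : ℝ≥0∞) (hε : ε ≠ 0) :
    ∃ (Ω : Type) (_ : MeasurableSpace Ω) (μ : Measure Ω)
        (α : Y →L[𝕜] Lp 𝕜 ∞ μ) (β : Lp 𝕜 ∞ μ →L[𝕜] StrongDual 𝕜 (StrongDual 𝕜 W)),
        inclusionInDoubleDual 𝕜 W ∘L R = β ∘L α ∧
        ‖β‖ₑ * ‖α‖ₑ < linftyNrm R + ε := by
  have hlt : linftyNrm R < linftyNrm R + ε := ENNReal.lt_add_right hR.ne hε
  conv at hlt => lhs; unfold linftyNrm
  simp only [iInf_lt_iff] at hlt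
  obtain ⟨Ω, mΩ, μ, α, β, hαβ, hlt'⟩ := hlt
  exact ⟨Ω, mΩ, μ, α, β, hαβ, hlt'⟩

omit [CompleteSpace Y] in
lemma finRank_embed {m : ℕ} (x : Fin m → X) (y' : Fin m → StrongDual 𝕜 Y) :
    FiniteDimensional 𝕜 (LinearMap.range
        ((inclusionInDoubleDual 𝕜 X ∘L ∑ i, (y' i).smulRight (x i) :
          Y →L[𝕜] StrongDual 𝕜 (StrongDual 𝕜 X)) :
          Y →ₗ[𝕜] StrongDual 𝕜 (StrongDual 𝕜 X))) := by
  have : FiniteDimensional 𝕜 (Submodule.span 𝕜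
      (Set.range fun i => inclusionInDoubleDual 𝕜 X (x i))) :=
    FiniteDimensional.span_of_finite 𝕜 (Set.finite_range _)
  refine Submodule.finiteDimensional_of_le
    (S₂ := Submodule.span 𝕜 (Set.range fun i => inclusionInDoubleDual 𝕜 X (x i))) ?_
  rintro _ ⟨y, rfl⟩
  have h1 : (inclusionInDoubleDual 𝕜 X ∘L ∑ i, (y' i).smulRight (x i)) y =
      ∑ i, y' i y • inclusionInDoubleDual 𝕜 X (x i) := by
    rw [ContinuousLinearMap.comp_apply, _root_.sum_apply, map_sum]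
    refine Finset.sum_congr rfl fun i _ => ?_
    rw [ContinuousLinearMap.smulRight_apply, map_smul]
  show (inclusionInDoubleDual 𝕜 X ∘L ∑ i, (y' i).smulRight (x i)) y ∈ _
  rw [h1]
  exact Submodule.sum_mem _ fun i _ => Submodule.smul_mem _ _
    (Submodule.subset_span ⟨i, rfl⟩)

/-- **Theorem C'.** -/
theorem adj_bound (B : BanachIdeal 𝕜) (hmax : B.IsMaximal) (hI : B.PropertyI) (hLRP : B.LRP)
    (T₀ : X →L[𝕜] Y) (b : ℝ) (hb : 0 ≤ b) (hT₀ : B.adjNrm T₀ ≤ ENNReal.ofReal b) {m : ℕ}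
    (x : Fin m → X) (y' : Fin m → StrongDual 𝕜 Y) (κ : ℝ) (hκ : 0 ≤ κ)
    (h : ∀ V ∈ FR 𝕜 X Y, ‖∑ i, y' i (V (x i))‖ ≤ κ * ‖V‖) :
    ‖∑ i, y' i (T₀ (x i))‖ ≤ b * κ := by
  have main : ∀ ε : ℝ, 0 < ε →
      ‖∑ i, y' i (T₀ (x i))‖ ≤ b * ((1 + ε) ^ 3 * ((1 + ε) * κ + ε)) + ε := by
    intro ε hε
    have hcomp := compLinftyNrm_le_of_integral B hmax x y' κ hκ h
    obtain ⟨W, _, _, _, R, A, hR, hA, hfac, hAfd, hbound⟩ := hI Y
      (StrongDual 𝕜 (StrongDual 𝕜 X)) (inclusionInDoubleDual 𝕜 X ∘L ∑ i, (y' i).smulRight (x i))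
      (finRank_embed x y') (hcomp.trans_lt ENNReal.ofReal_lt_top) ε hε
    have hbound2 : B.nrm A * linftyNrm R ≤ ENNReal.ofReal ((1 + ε) * κ) := by
      rw [ENNReal.ofReal_mul (by positivity)]
      exact hbound.trans (mul_le_mul_right hcomp _)
    have hA' : B.nrm A ≠ ∞ := hA.ne
    set ρ : ℝ := (B.nrm A).toReal with hρ
    have hρA : B.nrm A = ENNReal.ofReal ρ := (ENNReal.ofReal_toReal hA').symm
    have hρ0 : 0 ≤ ρ := ENNReal.toReal_nonneg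
    obtain ⟨Ω, mΩ, μ, α, β, hαβ, hlt2⟩ := exists_linfty_factor R hR
      (ENNReal.ofReal (ε / (ρ + 1))) (by
        rw [Ne, ENNReal.ofReal_eq_zero, not_le]; positivity)
    have hABα : B.nrm A * (‖β‖ₑ * ‖α‖ₑ) ≤ ENNReal.ofReal ((1 + ε) * κ + ε) := by
      refine (mul_le_mul_right hlt2.le (B.nrm A)).trans ?_
      rw [mul_add, ENNReal.ofReal_add (by positivity) hε.le]
      refine add_le_add hbound2 ?_
      rw [hρA, ← ENNReal.ofReal_mul hρ0]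
      exact ENNReal.ofReal_le_ofReal (mul_div_succ_le hρ0 hε.le)
    exact adj_core B hLRP T₀ b hb hT₀ x y' ε _ hε (by positivity) R A hA hfac hAfd
      (L := Lp 𝕜 ∞ μ) (fun _ _ _ _ v δ hδ => factor_linf v δ hδ) α β hαβ hABα
  have hcont : Tendsto (fun ε : ℝ => b * ((1 + ε) ^ 3 * ((1 + ε) * κ + ε)) + ε) (𝓝[>] 0)
      (𝓝 (b * ((1 + 0) ^ 3 * ((1 + 0) * κ + 0)) + 0)) :=
    (Continuous.tendsto (by fun_prop) 0).mono_left nhdsWithin_le_nhds
  have hlim := ge_of_tendsto hcont (eventually_nhdsWithin_of_forall fun ε hε => main ε hε)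
  simpa using hlim

/-- **Theorem D'.** `T₀` is a limit, in the weak operator topology, of finite-rank operators
of norm at most `b`. -/
theorem approx_FR (B : BanachIdeal 𝕜) (hmax : B.IsMaximal) (hI : B.PropertyI) (hLRP : B.LRP)
    (T₀ : X →L[𝕜] Y) (b : ℝ) (hb : 0 < b) (hT₀ : B.adjNrm T₀ ≤ ENNReal.ofReal b) {r d : ℕ}
    (y' : Fin r → StrongDual 𝕜 Y) (x : Fin d → X) (δ : ℝ) (hδ : 0 < δ) :
    ∃ V ∈ FR 𝕜 X Y, ‖V‖ ≤ b ∧ ∀ i j, ‖y' i (V (x j)) - y' i (T₀ (x j))‖ < δ := by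
  classical
  set C : Set (Fin r → Fin d → 𝕜) := {s | ∃ V ∈ FR 𝕜 X Y, ‖V‖ ≤ b ∧
    s = fun i j => y' i (V (x j))} with hC
  have hCcvx : Cvx 𝕜 C := by
    rintro _ ⟨S, hSF, hS, rfl⟩ _ ⟨R, hRF, hR, rfl⟩ a c ha hc hac
    refine ⟨(a : 𝕜) • S + (c : 𝕜) • R, Submodule.add_mem _ (Submodule.smul_mem _ _ hSF)
      (Submodule.smul_mem _ _ hRF), ?_, ?_⟩
    · calc ‖(a : 𝕜) • S + (c : 𝕜) • R‖ ≤ ‖(a : 𝕜) • S‖ + ‖(c : 𝕜) • R‖ := norm_add_le _ _
        _ = a * ‖S‖ + c * ‖R‖ := by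
          rw [norm_smul, norm_smul, RCLike.norm_ofReal, RCLike.norm_ofReal, abs_of_nonneg ha,
            abs_of_nonneg hc]
        _ ≤ a * b + c * b := by gcongr
        _ = b := by rw [← add_mul, hac, one_mul]
    · funext i j
      simp only [Pi.add_apply, Pi.smul_apply, _root_.add_apply, _root_.smul_apply, map_add,
        map_smul]
  have hv : ∀ (f : StrongDual 𝕜 (Fin r → Fin d → 𝕜)) (u : ℝ),
      (∀ s ∈ C, RCLike.re (f s) ≤ u) → RCLike.re (f (fun i j => y' i (T₀ (x j)))) ≤ u := by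
    intro f u hfu
    let a : Fin r × Fin d → 𝕜 := fun p => f (Pi.single p.1 (Pi.single p.2 1))
    have hf : ∀ s : Fin r → Fin d → 𝕜, f s = ∑ p : Fin r × Fin d, a p * s p.1 p.2 := by
      intro s
      have h1 : s = ∑ p : Fin r × Fin d, s p.1 p.2 • (Pi.single p.1 (Pi.single p.2 (1 : 𝕜)) :
          Fin r → Fin d → 𝕜) := by
        funext i j
        rw [Finset.sum_apply, Finset.sum_apply, Finset.sum_eq_single (i, j)]
        · simp
        · rintro ⟨i', j'⟩ - hne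
          by_cases hi : i = i'
          · subst hi
            have hj : j ≠ j' := fun h => hne (by rw [h])
            simp [hj]
          · simp [hi]
        · intro h; exact absurd (Finset.mem_univ _) h
      conv_lhs => rw [h1, map_sum]
      exact Finset.sum_congr rfl fun p _ => by rw [map_smul, smul_eq_mul, mul_comm]
    let Λ : (X →L[𝕜] Y) →ₗ[𝕜] 𝕜 :=
      { toFun := fun S => f (fun i j => y' i (S (x j)))
        map_add' := fun S R => by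
          rw [← map_add]; congr 1; funext i j; simp
        map_smul' := fun k S => by
          rw [RingHom.id_apply, ← map_smul]; congr 1; funext i j; simp }
    let e : Fin (Fintype.card (Fin r × Fin d)) ≃ Fin r × Fin d := (Fintype.equivFin _).symm
    have hΛ : ∀ S, Λ S = ∑ q, (a (e q) • y' (e q).1) (S (x (e q).2)) := fun S => by
      have h1 : Λ S = ∑ p : Fin r × Fin d, a p * y' p.1 (S (x p.2)) := hf _
      rw [h1, ← e.sum_comp]
      rfl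
    have hu0 : 0 ≤ u := by
      have := hfu 0 ⟨0, Submodule.zero_mem _, by rw [norm_zero]; exact hb.le,
        by funext i j; simp⟩
      simpa using this
    have hbd : ∀ S ∈ FR 𝕜 X Y, ‖S‖ ≤ b → ‖Λ S‖ ≤ u := by
      intro S hSF hS
      by_cases h0 : Λ S = 0
      · rw [h0, norm_zero]; exact hu0
      have h1 := hfu (fun i j => y' i ((((‖Λ S‖ : 𝕜) / Λ S) • S) (x j)))
        ⟨((‖Λ S‖ : 𝕜) / Λ S) • S, Submodule.smul_mem _ _ hSF, by
          rw [norm_smul, norm_div, RCLike.norm_ofReal, abs_norm,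
            div_self (norm_ne_zero_iff.2 h0), one_mul]; exact hS, rfl⟩
      have h2 : f (fun i j => y' i ((((‖Λ S‖ : 𝕜) / Λ S) • S) (x j))) = ((‖Λ S‖ : ℝ) : 𝕜) := by
        show Λ (((‖Λ S‖ : 𝕜) / Λ S) • S) = _
        rw [map_smul, smul_eq_mul, div_mul_cancel₀ _ h0]
      rw [h2, RCLike.ofReal_re] at h1
      exact h1
    have hdom : ∀ S ∈ FR 𝕜 X Y, ‖Λ S‖ ≤ (u / b) * ‖S‖ := by
      intro S hSF
      by_cases hS0 : ‖S‖ = 0
      · rw [norm_eq_zero] at hS0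
        rw [hS0, map_zero, norm_zero, norm_zero, mul_zero]
      · have hSpos : 0 < ‖S‖ := lt_of_le_of_ne (norm_nonneg _) (Ne.symm hS0)
        have h2 := hbd (((b / ‖S‖ : ℝ) : 𝕜) • S) (Submodule.smul_mem _ _ hSF) (by
          rw [norm_smul, RCLike.norm_ofReal, abs_of_nonneg (by positivity)]
          rw [div_mul_cancel₀ _ hS0])
        rw [map_smul, norm_smul, RCLike.norm_ofReal, abs_of_nonneg (by positivity)] at h2
        rw [div_mul_eq_mul_div, div_le_iff₀ hSpos] at h2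
        rw [div_mul_eq_mul_div, le_div_iff₀ hb]
        linarith
    have key := adj_bound B hmax hI hLRP T₀ b hb.le hT₀ (fun q => x (e q).2)
      (fun q => a (e q) • y' (e q).1) (u / b) (by positivity) (fun V hV => by
        rw [← hΛ V]; exact hdom V hV)
    rw [← hΛ T₀] at key
    refine (RCLike.re_le_norm _).trans (key.trans (le_of_eq ?_))
    field_simp
  obtain ⟨s, ⟨S, hSF, hS, rfl⟩, hlt⟩ := exists_approx C hCcvx _ hv δ hδ
  refine ⟨S, hSF, hS, fun i j => ?_⟩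
  rw [norm_sub_rev]
  calc ‖y' i (T₀ (x j)) - y' i (S (x j))‖
      ≤ ‖(fun j => y' i (T₀ (x j))) - fun j => y' i (S (x j))‖ := norm_le_pi_norm
        ((fun j => y' i (T₀ (x j))) - fun j => y' i (S (x j))) j
    _ ≤ ‖(fun i j => y' i (T₀ (x j))) - fun i j => y' i (S (x j))‖ := norm_le_pi_norm
        ((fun i j => y' i (T₀ (x j))) - fun i j => y' i (S (x j))) i
    _ < δ := hlt

end

end Pool.Agent.H47.OpIdeal
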