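import Pool.Agent.H47.OpIdeal.Main
import Pool.Agent.H47.OpIdeal.Stmt

/-!
# Transfer between the bundled statements and the unbundled ones
-/

set_option autoImplicit false
set_option maxSynthPendingDepth 3

open scoped ENNReal Topology
open Filter NormedSpace

namespace Pool.Agent.H47.OpIdeal.Stmt

variable {𝕜 : Type} [RCLike 𝕜]

/-- the unbundled ideal -/
noncomputable def toU (B : BanachIdeal 𝕜) : OpIdeal.BanachIdeal 𝕜 where
  nrm := fun {X Y} _ _ _ _ _ _ T => B.nrm (X := ⟨X⟩) (Y := ⟨Y⟩) T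
  nrm_id := B.nrm_id
  nrm_add_le := fun {X Y} _ _ _ _ _ _ S T => B.nrm_add_le (X := ⟨X⟩) (Y := ⟨Y⟩) S T
  nrm_comp_le := fun {W X Y Z} _ _ _ _ _ _ _ _ _ _ _ _ R S T =>
    B.nrm_comp_le (W := ⟨W⟩) (X := ⟨X⟩) (Y := ⟨Y⟩) (Z := ⟨Z⟩) R S T
  complete := fun {X Y} _ _ _ _ _ _ T => B.complete (X := ⟨X⟩) (Y := ⟨Y⟩) T

lemma toU_isMaximal {B : BanachIdeal 𝕜} (hB : B.IsMaximal) : (toU B).IsMaximal := by
  intro X Y _ _ _ _ _ _ T
  have h := hB ⟨X⟩ ⟨Y⟩ T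
  refine le_antisymm ?_ ?_
  · refine h.le.trans ?_
    refine iSup_le fun M => iSup_le fun L => ?_
    exact le_iSup_of_le M.1 <| le_iSup_of_le M.2 <| le_iSup_of_le (FinSub.instComplete M) <|
      le_iSup_of_le L.1 <| le_iSup_of_le L.2.1 <| le_iSup_of_le L.2.2 le_rfl
  · refine le_trans ?_ h.ge
    refine iSup_le fun M => iSup_le fun hM => iSup_le fun hM2 => iSup_le fun L =>
      iSup_le fun hL => iSup_le fun hL2 => ?_
    exact le_iSup_of_le (⟨M, hM⟩ : FinSub (⟨X⟩ : Ban 𝕜)) <|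
      le_iSup_of_le (⟨L, hL, hL2⟩ : CofinSub (⟨Y⟩ : Ban 𝕜)) le_rfl

lemma toU_adjNrm_le (B : BanachIdeal 𝕜) {X Y : Ban 𝕜} (T : Op X Y) :
    (toU B).adjNrm T ≤ B.adjNrm T := by
  refine iSup_le fun M => iSup_le fun hM => iSup_le fun hM2 => iSup_le fun L =>
    iSup_le fun hL => iSup_le fun hL2 => iSup_le fun S => iSup_le fun hS => ?_
  exact le_iSup_of_le (⟨M, hM⟩ : FinSub X) <| le_iSup_of_le (⟨L, hL, hL2⟩ : CofinSub Y) <|
    le_iSup_of_le S <| le_iSup_of_le hS le_rfl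

lemma toU_linftyNrm {X Y : Ban 𝕜} (T : Op X Y) : OpIdeal.linftyNrm T = linftyNrm T := rfl

lemma toU_compLinftyNrm (B : BanachIdeal 𝕜) {X Y : Ban 𝕜} (T : Op X Y) :
    (toU B).compLinftyNrm T = B.compLinftyNrm T := by
  refine le_antisymm ?_ ?_
  · refine le_iInf fun W => le_iInf fun R => le_iInf fun hR => le_iInf fun A => le_iInf fun hA =>
      le_iInf fun hT => ?_
    exact iInf_le_of_le W.carrier <| iInf_le_of_le inferInstance <|
      iInf_le_of_le inferInstance <| iInf_le_of_le inferInstance <| iInf_le_of_le R <|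
      iInf_le_of_le hR <| iInf_le_of_le A <| iInf_le_of_le hA <| iInf_le_of_le hT le_rfl
  · refine le_iInf fun W => le_iInf fun _ => le_iInf fun _ => le_iInf fun _ => le_iInf fun R =>
      le_iInf fun hR => le_iInf fun A => le_iInf fun hA => le_iInf fun hT => ?_
    exact iInf_le_of_le (⟨W⟩ : Ban 𝕜) <| iInf_le_of_le R <|
      iInf_le_of_le hR <| iInf_le_of_le A <| iInf_le_of_le hA <| iInf_le_of_le hT le_rfl

lemma toU_propertyI {B : BanachIdeal 𝕜} (hB : B.PropertyI) : (toU B).PropertyI := by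
  intro X Y _ _ _ _ _ _ T hT hfin ε hε
  rw [toU_compLinftyNrm B (X := ⟨X⟩) (Y := ⟨Y⟩) T] at hfin ⊢
  obtain ⟨W, R, A, h1, h2, h3, h4, h5⟩ := hB ⟨X⟩ ⟨Y⟩ T hT hfin ε hε
  exact ⟨W.carrier, inferInstance, inferInstance, inferInstance, R, A, h1, h2, h3, h4, h5⟩

lemma toU_LRP {B : BanachIdeal 𝕜} (hB : B.LRP) : (toU B).LRP := by
  intro E Y _ _ _ hE _ _ _ F hF T ε hε
  obtain ⟨S, h1, h2, h3⟩ := hB ⟨E⟩ ⟨Y⟩ hE (⟨F, hF⟩ : FinSub (⟨Y⟩ : Ban 𝕜).dual) T ε hε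
  refine ⟨S, h1, fun x y' hy' => h2 x y' hy', fun x hx => ?_⟩
  exact h3 x hx

lemma isRightAccessible_of_toU {B : BanachIdeal 𝕜} (hB : (toU B).IsRightAccessible) :
    B.IsRightAccessible := by
  intro E Y hE T ε hε
  have : FiniteDimensional 𝕜 E.carrier := hE
  obtain ⟨N, hN, hN2, S, h1, h2⟩ := hB E.carrier Y.carrier T ε hε
  exact ⟨⟨N, hN⟩, S, h1, h2⟩

/-- **Theorem A.** -/
theorem isRightAccessible_of_LRP {B : BanachIdeal 𝕜} (hB : B.LRP) : B.IsRightAccessible :=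
  isRightAccessible_of_toU (toU_LRP hB).isRightAccessible

/-- **Main theorem.** -/
theorem main {B : BanachIdeal 𝕜} (hmax : B.IsMaximal) (hI : B.PropertyI) (hLRP : B.LRP)
    {X Y : Ban 𝕜} (hX : HasCotypeTwo X.dual) (hY : HasCotypeTwo Y) (T : Op X Y)
    (hT : B.adjNrm T < ∞) : FactorsThroughHilbert T :=
  adj_factors (toU B) (toU_isMaximal hmax) (toU_propertyI hI) (toU_LRP hLRP)
    (X := X.carrier) (Y := Y.carrier) hX hY T ((toU_adjNrm_le B T).trans_lt hT)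

end Pool.Agent.H47.OpIdeal.Stmt
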